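import Pool.Agent.H416R3.BP.Defs

set_option autoImplicit false

/-! # From a cubic graph with a path `x - v - y` to a `Pole` -/

namespace Pool.Agent.H416R3.BP

open Finset Classical

theorem three_nbrs {V : Type*} [Fintype V] (G : SimpleGraph V)
    (u a : V) (h3 : (G.neighborSet u).ncard = 3) (ha : G.Adj u a) :
    ∃ b c, b ≠ c ∧ b ≠ a ∧ c ≠ a ∧ ∀ w, G.Adj u w ↔ w = a ∨ w = b ∨ w = c := by
  obtain ⟨p, q, r, hpq, hpr, hqr, h⟩ := Set.ncard_eq_three.1 h3
  have hm : ∀ w, G.Adj u w ↔ w = p ∨ w = q ∨ w = r := by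
    intro w
    rw [← SimpleGraph.mem_neighborSet, h]
    simp
  rcases (hm a).1 ha with rfl | rfl | rfl
  · exact ⟨q, r, hqr, hpq.symm, hpr.symm, hm⟩
  · refine ⟨p, r, hpr, hpq, hqr.symm, fun w => ?_⟩
    rw [hm w]; tauto
  · refine ⟨p, q, hpq, hpr, hqr, fun w => ?_⟩
    rw [hm w]; tauto

theorem exists_pole {V : Type*} [Fintype V] (G : SimpleGraph V)
    (h3 : ∀ u, (G.neighborSet u).ncard = 3) (v x y : V) (hvx : G.Adj v x) (hvy : G.Adj v y)
    (hxy : x ≠ y) (hn : ¬ G.Adj x y) :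
    ∃ H : Pole V, H.G = G ∧ H.x = x ∧ H.v = v ∧ H.y = y := by
  obtain ⟨a, b, hab, hav, hbv, hx⟩ := three_nbrs G x v (h3 x) hvx.symm
  obtain ⟨c, d, hcd, hcv, hdv, hy⟩ := three_nbrs G y v (h3 y) hvy.symm
  have hm : ∃ m, m ≠ x ∧ m ≠ y ∧ ∀ w, G.Adj v w ↔ w = x ∨ w = y ∨ w = m := by
    obtain ⟨p, q, hpq, hpx, hqx, hv⟩ := three_nbrs G v x (h3 v) hvx
    rcases (hv y).1 hvy with h | h | h
    · exact absurd h.symm hxy
    · subst h
      exact ⟨q, hqx, hpq.symm, hv⟩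
    · subst h
      refine ⟨p, hpx, hpq, fun w => ?_⟩
      rw [hv w]; tauto
  obtain ⟨m, hmx, hmy, hv⟩ := hm
  have hxa : G.Adj x a := (hx a).2 (Or.inr (Or.inl rfl))
  have hxb : G.Adj x b := (hx b).2 (Or.inr (Or.inr rfl))
  have hyc : G.Adj y c := (hy c).2 (Or.inr (Or.inl rfl))
  have hyd : G.Adj y d := (hy d).2 (Or.inr (Or.inr rfl))
  have hvm : G.Adj v m := (hv m).2 (Or.inr (Or.inr rfl))
  refine ⟨{ G := G, x := x, v := v, y := y, e := ![a, b, m, c, d], hxv := hvx.ne.symm,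
            hyv := hvy.ne.symm, hxy := hxy, deg3 := h3, adjx := hx, adjv := hv, adjy := hy,
            he01 := hab, he34 := hcd, hex := ?_, hev := ?_, hey := ?_ }, rfl, rfl, rfl, rfl⟩
  · intro t
    fin_cases t
    · exact hxa.ne.symm
    · exact hxb.ne.symm
    · exact hmx
    · rintro rfl; exact hn hyc.symm
    · rintro rfl; exact hn hyd.symm
  · intro t
    fin_cases t
    · exact hav
    · exact hbv
    · exact hvm.ne.symm
    · exact hcv
    · exact hdv
  · intro t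
    fin_cases t
    · rintro rfl; exact hn hxa
    · rintro rfl; exact hn hxb
    · exact hmy
    · exact hyc.ne.symm
    · exact hyd.ne.symm

end Pool.Agent.H416R3.BP
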