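import Mathlib

set_option autoImplicit false

/-!
# A path `x - v - y` in a cubic graph and the five edges leaving it

Leaves: `0, 1` at `x`, `2` at `v`, `3, 4` at `y`; `e t` is the outer end of leaf `t`, `z t` its
end on the path.  A `OneF` (near perfect matching) is a function `p : V → V` with `p u = u` on
`x, v, y` and `p u` a neighbour of `u` otherwise, an involution as long as `p u` is inner.
`bd p` is the set of the leaves used by `p`.
-/

namespace Pool.Agent.H416R3.BP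

open Finset Classical

structure Pole (V : Type*) where
  G : SimpleGraph V
  x : V
  v : V
  y : V
  e : Fin 5 → V
  hxv : x ≠ v
  hyv : y ≠ v
  hxy : x ≠ y
  deg3 : ∀ u, (G.neighborSet u).ncard = 3
  adjx : ∀ w, G.Adj x w ↔ w = v ∨ w = e 0 ∨ w = e 1
  adjv : ∀ w, G.Adj v w ↔ w = x ∨ w = y ∨ w = e 2
  adjy : ∀ w, G.Adj y w ↔ w = v ∨ w = e 3 ∨ w = e 4
  he01 : e 0 ≠ e 1
  he34 : e 3 ≠ e 4
  hex : ∀ t, e t ≠ x
  hev : ∀ t, e t ≠ v
  hey : ∀ t, e t ≠ y

/-- Six perfect matchings covering every edge exactly twice. -/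
def HasBF {V : Type*} (G : SimpleGraph V) : Prop :=
  ∃ P : Fin 6 → G.Subgraph, (∀ i, (P i).IsPerfectMatching) ∧
    ∀ e ∈ G.edgeSet, Set.ncard {i : Fin 6 | e ∈ (P i).edgeSet} = 2

/-- A circuit of `G`: a connected subgraph with all degrees two. -/
def IsCircuit {V : Type*} {G : SimpleGraph V} (Z : G.Subgraph) : Prop :=
  Z.Connected ∧ ∀ u ∈ Z.verts, (Z.neighborSet u).ncard = 2

/-- The circuits of `G` whose vertex set is `V ∖ {v, y}`. -/
def hamSet {V : Type*} (G : SimpleGraph V) (v y : V) : Set G.Subgraph :=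
  {Z | IsCircuit Z ∧ Z.verts = {v, y}ᶜ}

/-- The pairs of disjoint circuits covering `V ∖ {v}`, the first one of even length and through
`x`, the second one through `y`. -/
def twoSet {V : Type*} (G : SimpleGraph V) (v x y : V) : Set (G.Subgraph × G.Subgraph) :=
  {Z | IsCircuit Z.1 ∧ IsCircuit Z.2 ∧ Disjoint Z.1.verts Z.2.verts ∧
    Z.1.verts ∪ Z.2.verts = {v}ᶜ ∧ x ∈ Z.1.verts ∧ y ∈ Z.2.verts ∧ Even Z.1.verts.ncard}

/-- The boundary patterns that extend to six perfect matchings of the whole graph. -/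
def Good (β : Fin 6 → Finset (Fin 5)) : Prop :=
  ∀ s, ¬ (0 ∈ β s ∧ 1 ∈ β s) ∧ ¬ (3 ∈ β s ∧ 4 ∈ β s) ∧
    ((2 ∈ β s ∧ (0 ∈ β s ∨ 1 ∈ β s) ∧ (3 ∈ β s ∨ 4 ∈ β s)) ∨
     (2 ∉ β s ∧ (0 ∉ β s ∧ 1 ∉ β s) ∧ (3 ∈ β s ∨ 4 ∈ β s)) ∨
     (2 ∉ β s ∧ (0 ∈ β s ∨ 1 ∈ β s) ∧ (3 ∉ β s ∧ 4 ∉ β s)))

/-- The boundary pattern of a Kempe family. -/
def kem (Q : Finset (Fin 5)) (q : Fin 5) (γ : Fin 6 → Finset (Fin 5)) :
    Fin 6 → Finset (Fin 5) :=
  fun s => if s = 0 then Q.erase q else if s = 1 then {q} else γ s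

namespace Pole

variable {V : Type*} (H : Pole V)

/-- the path end of each leaf -/
def z : Fin 5 → V := ![H.x, H.x, H.v, H.y, H.y]

/-- inner vertices -/
def I (u : V) : Prop := u ≠ H.x ∧ u ≠ H.v ∧ u ≠ H.y

def OneF (p : V → V) : Prop :=
  (∀ u, ¬ H.I u → p u = u) ∧ ∀ u, H.I u → H.G.Adj u (p u) ∧ (H.I (p u) → p (p u) = u)

noncomputable def bd (p : V → V) : Finset (Fin 5) := univ.filter (fun t => p (H.e t) = H.z t)

/-- every edge with an inner end is covered exactly twice -/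
def Cov (P : Fin 6 → V → V) : Prop :=
  ∀ u, H.I u → ∀ w, H.G.Adj u w → (univ.filter (fun s => P s u = w)).card = 2

variable [Fintype V]

noncomputable def Tup (β : Fin 6 → Finset (Fin 5)) : Finset (Fin 6 → V → V) :=
  univ.filter (fun P => (∀ s, H.OneF (P s)) ∧ (∀ s, H.bd (P s) = β s) ∧ H.Cov P)

noncomputable def cn (β : Fin 6 → Finset (Fin 5)) : ℕ := (H.Tup β).card

noncomputable def F1 (σ : Finset (Fin 5)) : Finset (V → V) :=
  univ.filter (fun p => H.OneF p ∧ H.bd p = σ)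

/-- the near perfect matchings with boundary `σ` that are disjoint from `X` -/
noncomputable def S (X : V → V) (σ : Finset (Fin 5)) : Finset (V → V) :=
  univ.filter (fun s => H.OneF s ∧ H.bd s = σ ∧ ∀ u, H.I u → s u ≠ X u)

/-- quadruples of near perfect matchings, with boundaries `σ 0, …, σ 3`, that avoid the edges of
`X` and cover every other edge with an inner end exactly twice -/
noncomputable def D4 (X : V → V) (σ : Fin 4 → Finset (Fin 5)) : ℕ :=
  (univ.filter (fun Q : Fin 4 → V → V => (∀ s, H.OneF (Q s)) ∧ (∀ s, H.bd (Q s) = σ s) ∧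
    ∀ u, H.I u → ∀ w, H.G.Adj u w →
      (univ.filter (fun s => Q s u = w)).card = if w = X u then 0 else 2)).card

/-- the third neighbour of an inner vertex `u`, beside `X u` and `s u` -/
noncomputable def co {V : Type*} (H : Pole V) (X s : V → V) (u : V) : V :=
  if h : ∃ w, H.I u ∧ H.G.Adj u w ∧ w ≠ X u ∧ w ≠ s u then h.choose else u

/-- `s` replaced by the third neighbour on `C` -/
noncomputable def fl {V : Type*} (H : Pole V) (X s : V → V) (C : Set V) (u : V) : V :=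
  if u ∈ C then H.co X s u else s u

/-- the edges with an inner end that are not in `X`; the vertices are all vertices -/
def FG {V : Type*} (H : Pole V) (X : V → V) : SimpleGraph V where
  Adj u w := H.G.Adj u w ∧ (H.I u ∨ H.I w) ∧ (H.I u → X u ≠ w) ∧ (H.I w → X w ≠ u)
  symm := ⟨fun _ _ h => ⟨h.1.symm, h.2.1.symm, h.2.2.2, h.2.2.1⟩⟩
  loopless := ⟨fun _ h => h.1.ne rfl⟩

/-- the edges with two inner ends that are not in `X` -/
def FI {V : Type*} (H : Pole V) (X : V → V) : SimpleGraph V where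
  Adj u w := H.G.Adj u w ∧ (H.I u ∧ H.I w) ∧ X u ≠ w ∧ X w ≠ u
  symm := ⟨fun _ _ h => ⟨h.1.symm, h.2.1.symm, h.2.2.2, h.2.2.1⟩⟩
  loopless := ⟨fun _ h => h.1.ne rfl⟩

/-- exchange of the leaves `3` and `4` -/
def flip34 {V : Type*} (H : Pole V) : Pole V where
  G := H.G
  x := H.x
  v := H.v
  y := H.y
  e := H.e ∘ Equiv.swap 3 4
  hxv := H.hxv
  hyv := H.hyv
  hxy := H.hxy
  deg3 := H.deg3
  adjx := H.adjx
  adjv := H.adjv
  adjy := by
    intro w
    rw [H.adjy w]
    simp only [Function.comp_apply, Equiv.swap_apply_left, Equiv.swap_apply_right]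
    tauto
  he01 := H.he01
  he34 := by
    simp only [Function.comp_apply, Equiv.swap_apply_left, Equiv.swap_apply_right]
    exact H.he34.symm
  hex := fun t => H.hex _
  hev := fun t => H.hev _
  hey := fun t => H.hey _

end Pole

end Pool.Agent.H416R3.BP
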