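import Pool.Agent.H416R3.BP.Defs

set_option autoImplicit false

/-! Task T01 (helper617): sum of deficiencies over a path component. -/

namespace Pool.Agent.H416R3.BP

open Finset Classical

theorem T01.nbr {V : Type*} {D : SimpleGraph V} {a b : V} (h : D.Reachable a b) (hne : a ≠ b) :
    ∃ c, D.Adj a c := by
  obtain ⟨w⟩ := h
  cases w with
  | nil => exact absurd rfl hne
  | cons hadj _ => exact ⟨_, hadj⟩

/-- T01 -/
theorem path_sum {V : Type*} [Fintype V] (D : SimpleGraph V) (s : V → ℕ)
    (h : ∀ u, (D.neighborSet u).ncard + s u = 2 ∨ ((D.neighborSet u).ncard = 0 ∧ s u = 0))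
    (u0 : V) (h0 : 1 ≤ s u0) :
    ∑ u ∈ univ.filter (fun u => D.Reachable u0 u), s u = 2 := by
  let C := D.connectedComponentMk u0
  let T : SimpleGraph C := C.toSimpleGraph
  have hT : T.Connected := C.connected_toSimpleGraph
  have : Fintype C := Fintype.ofFinite _
  have hmem : ∀ u, u ∈ C ↔ D.Reachable u0 u := by
    intro u
    constructor
    · intro hu
      have h1 : D.connectedComponentMk u = D.connectedComponentMk u0 := hu
      exact (SimpleGraph.ConnectedComponent.exact h1).symm
    · intro hu
      have h1 : D.connectedComponentMk u = D.connectedComponentMk u0 :=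
        SimpleGraph.ConnectedComponent.sound hu.symm
      exact h1
  have hdeg : ∀ v : C, T.degree v = (D.neighborSet v.1).ncard := by
    intro v
    have e1 : D.neighborSet v.1 = Subtype.val '' (T.neighborSet v) := by
      ext w
      constructor
      · intro hw
        have hwC : w ∈ C := by
          have hv : D.connectedComponentMk v.1 = C := v.2
          have : D.connectedComponentMk w = C := by
            rw [← hv]
            exact (SimpleGraph.ConnectedComponent.connectedComponentMk_eq_of_adj hw).symm
          exact this
        refine ⟨⟨w, hwC⟩, ?_, rfl⟩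
        exact hw
      · rintro ⟨w', hw', rfl⟩
        exact hw'
    rw [e1, Set.ncard_image_of_injective _ Subtype.val_injective]
    rw [Set.ncard_eq_toFinset_card']
    rfl
  have hfull : ∀ v : C, (D.neighborSet v.1).ncard + s v.1 = 2 := by
    intro v
    rcases h v.1 with h1 | ⟨h1, h2⟩
    · exact h1
    · exfalso
      have hr : D.Reachable v.1 u0 := ((hmem v.1).1 v.2).symm
      by_cases hv : v.1 = u0
      · rw [hv] at h2
        omega
      · obtain ⟨c, hc⟩ := T01.nbr hr hv
        rw [Set.ncard_eq_zero (Set.toFinite _)] at h1
        have h3 : c ∈ D.neighborSet v.1 := hc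
        rw [h1] at h3
        exact h3
  have hsum := T.sum_degrees_eq_twice_card_edges
  have hcard : Fintype.card C ≤ #T.edgeFinset + 1 := by
    have := hT.card_vert_le_card_edgeSet_add_one
    rw [Nat.card_eq_fintype_card, Nat.card_eq_fintype_card] at this
    rw [SimpleGraph.edgeFinset, Set.toFinset_card]
    exact this
  have htot : ∑ v : C, T.degree v + ∑ v : C, s v.1 = 2 * Fintype.card C := by
    rw [← Finset.sum_add_distrib]
    have h5 : ∀ v : C, T.degree v + s v.1 = 2 := by
      intro v
      rw [hdeg]
      exact hfull v
    rw [Finset.sum_congr rfl (fun v _ => h5 v)]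
    simp [mul_comm]
  have hpos : s u0 ≤ ∑ v : C, s v.1 := by
    have hu0 : u0 ∈ C := (hmem u0).2 (SimpleGraph.Reachable.refl _)
    exact Finset.single_le_sum (f := fun v : C => s v.1) (fun _ _ => Nat.zero_le _)
      (Finset.mem_univ (⟨u0, hu0⟩ : C))
  have heq : ∑ u ∈ univ.filter (fun u => D.Reachable u0 u), s u = ∑ v : C, s v.1 := by
    apply Finset.sum_subtype
    intro u
    rw [Finset.mem_filter]
    constructor
    · intro hu
      exact (hmem u).2 hu.2
    · intro hu
      exact ⟨Finset.mem_univ _, (hmem u).1 hu⟩
  rw [heq]
  omega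

end Pool.Agent.H416R3.BP
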