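import Pool.Agent.H416R3.BP.Defs
import Pool.Agent.H416R3.BP.T01

set_option autoImplicit false

/-! Task T02 (helper180): corollary of `path_sum`. -/

namespace Pool.Agent.H416R3.BP

open Finset Classical

/-- T02 -/
theorem leaf_pair {V : Type*} [Fintype V] (D : SimpleGraph V) (e : Fin 5 → V)
    (T : Finset (Fin 5))
    (h : ∀ u, (D.neighborSet u).ncard + (T.filter (fun t => e t = u)).card = 2 ∨
      ((D.neighborSet u).ncard = 0 ∧ (T.filter (fun t => e t = u)).card = 0))
    (t0 : Fin 5) (ht0 : t0 ∈ T) :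
    (T.filter (fun t => D.Reachable (e t0) (e t))).card = 2 := by
  have h0 : 1 ≤ (T.filter (fun t => e t = e t0)).card :=
    Finset.card_pos.2 ⟨t0, Finset.mem_filter.2 ⟨ht0, rfl⟩⟩
  have h1 := path_sum D (fun u => (T.filter (fun t => e t = u)).card) h (e t0) h0
  rw [← h1]
  have h2 : ∀ t ∈ T.filter (fun t => D.Reachable (e t0) (e t)),
      e t ∈ univ.filter (fun u => D.Reachable (e t0) u) := by
    intro t ht
    exact Finset.mem_filter.2 ⟨Finset.mem_univ _, (Finset.mem_filter.1 ht).2⟩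
  rw [Finset.card_eq_sum_card_fiberwise h2]
  refine Finset.sum_congr rfl fun u hu => ?_
  have hu2 : D.Reachable (e t0) u := (Finset.mem_filter.1 hu).2
  congr 1
  ext t
  simp only [Finset.mem_filter]
  constructor
  · rintro ⟨⟨h3, _⟩, h4⟩
    exact ⟨h3, h4⟩
  · rintro ⟨h3, h4⟩
    exact ⟨⟨h3, by rw [h4]; exact hu2⟩, h4⟩

end Pool.Agent.H416R3.BP
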