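import Pool.Agent.H416R3.BP.Defs

set_option autoImplicit false

namespace Pool.Agent.H416R3.BP

open Finset Classical

namespace T03

theorem two_nbrs {V : Type*} [Fintype V] (F : SimpleGraph V) (u w : V)
    (hd : (F.neighborSet u).ncard = 2) (h : F.Adj u w) :
    ∃ w', F.Adj u w' ∧ w' ≠ w ∧ ∀ x, F.Adj u x ↔ x = w ∨ x = w' := by
  obtain ⟨x, y, hxy, he⟩ := Set.ncard_eq_two.1 hd
  have hm : ∀ z, F.Adj u z ↔ z = x ∨ z = y := by
    intro z
    rw [← SimpleGraph.mem_neighborSet, he]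
    simp
  rcases (hm w).1 h with rfl | rfl
  · exact ⟨y, (hm y).2 (Or.inr rfl), hxy.symm, hm⟩
  · exact ⟨x, (hm x).2 (Or.inl rfl), hxy, fun z => (hm z).trans or_comm⟩

theorem seq {V : Type*} [Fintype V] (F : SimpleGraph V) (b a0 : V) (hb : F.Adj b a0)
    (hd : ∀ u, F.Reachable b u → (F.neighborSet u).ncard = 2) :
    ∃ p : ℕ → V, p 0 = b ∧ p 1 = a0 ∧ (∀ i, F.Reachable b (p i)) ∧
      (∀ i, F.Adj (p i) (p (i + 1))) ∧
      ∀ i, p (i + 2) ≠ p i ∧ ∀ x, F.Adj (p (i + 1)) x ↔ x = p i ∨ x = p (i + 2) := by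
  have hf : ∀ a : V × V, ∃ w' : V, F.Reachable b a.2 → F.Adj a.2 a.1 →
      F.Adj a.2 w' ∧ w' ≠ a.1 ∧ ∀ x, F.Adj a.2 x ↔ x = a.1 ∨ x = w' := by
    intro a
    by_cases h : F.Reachable b a.2 ∧ F.Adj a.2 a.1
    · obtain ⟨w', hw⟩ := two_nbrs F a.2 a.1 (hd _ h.1) h.2
      exact ⟨w', fun _ _ => hw⟩
    · exact ⟨a.1, fun h1 h2 => absurd ⟨h1, h2⟩ h⟩
  choose oth hoth using hf
  let q : ℕ → V × V := fun i => Nat.rec (b, a0) (fun _ a => (a.2, oth a)) i
  have hq : ∀ i, q (i + 1) = ((q i).2, oth (q i)) := fun i => rfl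
  have hinv : ∀ i, F.Reachable b (q i).1 ∧ F.Adj (q i).1 (q i).2 := by
    intro i
    induction i with
    | zero => exact ⟨SimpleGraph.Reachable.refl _, hb⟩
    | succ i ih =>
      rw [hq]
      have hr : F.Reachable b (q i).2 := ih.1.trans ih.2.reachable
      exact ⟨hr, (hoth (q i) hr ih.2.symm).1⟩
  refine ⟨fun i => (q i).1, rfl, rfl, fun i => (hinv i).1, fun i => (hinv i).2, fun i => ?_⟩
  have hr : F.Reachable b (q i).2 := (hinv i).1.trans (hinv i).2.reachable
  exact (hoth (q i) hr (hinv i).2.symm).2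

theorem cyc {V : Type*} [Fintype V] (F : SimpleGraph V) (b a0 a1 : V)
    (hb : ∀ w, F.Adj b w ↔ w = a0 ∨ w = a1) (p : ℕ → V) (h0 : p 0 = b) (h1 : p 1 = a0)
    (hr : ∀ i, F.Reachable b (p i)) (ha : ∀ i, F.Adj (p i) (p (i + 1)))
    (hn : ∀ i, p (i + 2) ≠ p i ∧ ∀ x, F.Adj (p (i + 1)) x ↔ x = p i ∨ x = p (i + 2)) :
    ∃ n, 3 ≤ n ∧ p n = b ∧ (∀ i < n, ∀ j < n, p i = p j → i = j) ∧ p (n - 1) = a1 ∧
      ∀ u, F.Reachable b u ↔ ∃ i < n, p i = u := by
  have hex : ∃ j, ∃ i < j, p i = p j := by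
    obtain ⟨i, j, hij, h⟩ := Finite.exists_ne_map_eq_of_infinite p
    rcases lt_or_gt_of_ne hij with h' | h'
    · exact ⟨j, i, h', h⟩
    · exact ⟨i, j, h', h.symm⟩
  obtain ⟨n, hnn⟩ : ∃ n, n = Nat.find hex := ⟨_, rfl⟩
  obtain ⟨i, hi, hpi⟩ : ∃ i < n, p i = p n := by rw [hnn]; exact Nat.find_spec hex
  have hmin : ∀ j < n, ∀ i < j, p i ≠ p j := by
    intro j hj i hij h
    rw [hnn] at hj
    exact Nat.find_min hex hj ⟨i, hij, h⟩
  have hinj : ∀ i < n, ∀ j < n, p i = p j → i = j := by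
    intro i hi j hj h
    rcases lt_trichotomy i j with h' | h' | h'
    · exact absurd h (hmin j hj i h')
    · exact h'
    · exact absurd h.symm (hmin i hi j h')
  have hi0 : i = 0 := by
    by_contra hne
    obtain ⟨k, rfl⟩ : ∃ k, i = k + 1 := ⟨i - 1, by omega⟩
    obtain ⟨l, hl⟩ : ∃ l, n = l + 1 := ⟨n - 1, by omega⟩
    have h2 : F.Adj (p (k + 1)) (p l) := by
      rw [hpi, hl]; exact (ha l).symm
    have hlk : k < l := by omega
    rcases ((hn k).2 _).1 h2 with h3 | h3
    · have := hinj l (by omega) k (by omega) h3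
      omega
    · rcases Nat.lt_or_ge (k + 2) n with h4 | h4
      · have := hinj l (by omega) (k + 2) h4 h3
        have h5 : n = k + 1 + 2 := by omega
        rw [h5] at hpi
        exact (hn (k + 1)).1 hpi.symm
      · have h5 : n = k + 1 + 1 := by omega
        rw [h5] at hpi
        exact (ha (k + 1)).ne hpi
  subst hi0
  have hpn : p n = b := by rw [← hpi, h0]
  have hn3 : 3 ≤ n := by
    rcases Nat.lt_or_ge n 3 with h | h
    · exfalso
      have : n = 1 ∨ n = 2 := by omega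
      rcases this with h' | h'
      · rw [h'] at hpi
        exact (ha 0).ne hpi
      · rw [h'] at hpi
        exact (hn 0).1 hpi.symm
    · exact h
  have hl : p (n - 1) = a1 := by
    have h2 : F.Adj b (p (n - 1)) := by
      have := ha (n - 1)
      rw [show n - 1 + 1 = n by omega, hpn] at this
      exact this.symm
    rcases (hb _).1 h2 with h3 | h3
    · rw [← h1] at h3
      have := hinj (n - 1) (by omega) 1 (by omega) h3
      omega
    · exact h3
  refine ⟨n, hn3, hpn, hinj, hl, fun u => ⟨fun h => ?_, ?_⟩⟩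
  · -- closure under adjacency
    have hcl : ∀ u w, (∃ i < n, p i = u) → F.Adj u w → ∃ i < n, p i = w := by
      rintro u w ⟨i, hi, rfl⟩ hw
      rcases Nat.eq_zero_or_pos i with h' | h'
      · subst h'
        rw [h0] at hw
        rcases (hb _).1 hw with h3 | h3
        · exact ⟨1, by omega, by rw [h1, h3]⟩
        · exact ⟨n - 1, by omega, by rw [hl, h3]⟩
      · obtain ⟨k, rfl⟩ : ∃ k, i = k + 1 := ⟨i - 1, by omega⟩
        rcases ((hn k).2 _).1 hw with h3 | h3
        · exact ⟨k, by omega, h3.symm⟩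
        · rcases Nat.lt_or_ge (k + 2) n with h4 | h4
          · exact ⟨k + 2, h4, h3.symm⟩
          · have h5 : k + 2 = n := by omega
            rw [h5, hpn] at h3
            exact ⟨0, by omega, by rw [h0, h3]⟩
    obtain ⟨wk⟩ := h
    have hw : ∀ (s t : V) (W : F.Walk s t), (∃ i < n, p i = s) → ∃ i < n, p i = t := by
      intro s t W
      induction W with
      | nil => exact id
      | cons hadj _ ih => exact fun hs => ih (hcl _ _ hs hadj)
    exact hw _ _ wk ⟨0, by omega, h0⟩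
  · rintro ⟨i, _, rfl⟩
    exact hr i

end T03

/-- T03 -/
theorem alt_exists {V : Type*} [Fintype V] (F : SimpleGraph V) (b a0 a1 : V) (h01 : a0 ≠ a1)
    (hb : ∀ w, F.Adj b w ↔ w = a0 ∨ w = a1)
    (hd : ∀ u, F.Reachable b u → (F.neighborSet u).ncard = 2) :
    ∃ g : V → V, (∀ u, F.Reachable b u → u ≠ b → F.Adj u (g u) ∧ (g u ≠ b → g (g u) = u)) ∧
      g a0 = b ∧ (g a1 = b ↔ Odd ({u | F.Reachable b u}.ncard)) := by
  obtain ⟨p, h0, h1, hr, ha, hn⟩ := T03.seq F b a0 ((hb a0).2 (Or.inl rfl)) hd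
  obtain ⟨n, hn3, hpn, hinj, hl, hreach⟩ := T03.cyc F b a0 a1 hb p h0 h1 hr ha hn
  have hidx : ∀ u : V, ∃ i : ℕ, (∃ i < n, p i = u) → i < n ∧ p i = u := by
    intro u
    by_cases h : ∃ i < n, p i = u
    · obtain ⟨i, hi⟩ := h
      exact ⟨i, fun _ => hi⟩
    · exact ⟨0, fun h' => absurd h' h⟩
  choose ix hix using hidx
  have hixp : ∀ i < n, ix (p i) = i := by
    intro i hi
    obtain ⟨h2, h3⟩ := hix (p i) ⟨i, hi, rfl⟩
    exact hinj _ h2 _ hi h3
  obtain ⟨g, hg⟩ : ∃ g : V → V, g = fun u => if Odd (ix u) then p (ix u - 1) else p (ix u + 1) :=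
    ⟨_, rfl⟩
  have hgo : ∀ i < n, Odd i → g (p i) = p (i - 1) := by
    intro i hi ho
    rw [hg]
    simp only
    rw [hixp i hi, if_pos ho]
  have hge : ∀ i < n, ¬ Odd i → g (p i) = p (i + 1) := by
    intro i hi ho
    rw [hg]
    simp only
    rw [hixp i hi, if_neg ho]
  have hcard : {u | F.Reachable b u}.ncard = n := by
    have e : {u | F.Reachable b u} = ((Finset.range n).image p : Finset V) := by
      ext u
      simp [hreach u]
    rw [e, Set.ncard_coe_finset, Finset.card_image_of_injOn, Finset.card_range]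
    intro i hi j hj h
    simp only [Finset.coe_range, Set.mem_Iio] at hi hj
    exact hinj i hi j hj h
  refine ⟨g, ?_, ?_, ?_⟩
  · intro u hu hub
    obtain ⟨i, hi, rfl⟩ := (hreach u).1 hu
    by_cases ho : Odd i
    · rw [hgo i hi ho]
      obtain ⟨k, rfl⟩ : ∃ k, i = k + 1 := by
        rcases ho with ⟨t, rfl⟩
        exact ⟨2 * t, rfl⟩
      rw [Nat.add_sub_cancel]
      refine ⟨(ha k).symm, fun _ => ?_⟩
      have hk : ¬ Odd k := by
        rw [Nat.not_odd_iff_even]
        rwa [Nat.odd_add_one, Nat.not_odd_iff_even] at ho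
      exact hge k (by omega) hk
    · rw [hge i hi ho]
      refine ⟨ha i, fun hne => ?_⟩
      have h2 : i + 1 < n := by
        rcases Nat.lt_or_ge (i + 1) n with h | h
        · exact h
        · exfalso
          apply hne
          rw [show i + 1 = n by omega, hpn]
      have h3 : Odd (i + 1) := by
        rw [Nat.odd_add_one]; exact ho
      rw [hgo (i + 1) h2 h3, Nat.add_sub_cancel]
  · rw [← h1, hgo 1 (by omega) (by decide), ← h0]
  · rw [hcard, ← hl]
    by_cases ho : Odd (n - 1)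
    · rw [hgo (n - 1) (by omega) ho]
      have hno : ¬ Odd n := by
        intro h
        have h2 : n = (n - 1) + 1 := by omega
        rw [h2, Nat.odd_add_one] at h
        exact h ho
      constructor
      · intro h
        exfalso
        rw [← h0] at h
        have h2 := hinj (n - 1 - 1) (by omega) 0 (by omega) h
        omega
      · intro h
        exact absurd h hno
    · rw [hge (n - 1) (by omega) ho, show n - 1 + 1 = n by omega]
      constructor
      · intro _
        have h2 : n = (n - 1) + 1 := by omega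
        rw [h2, Nat.odd_add_one]
        exact ho
      · intro _
        exact hpn

end Pool.Agent.H416R3.BP
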