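import Pool.Agent.H416R3.BP.Defs

set_option autoImplicit false

namespace Pool.Agent.H416R3.BP

open Finset Classical

/-- T04 -/
theorem bf_of_fun {V : Type*} [Fintype V] (G : SimpleGraph V) (m : Fin 6 → V → V)
    (hm : ∀ s u, G.Adj u (m s u) ∧ m s (m s u) = u)
    (hc : ∀ u w, G.Adj u w → (univ.filter (fun s => m s u = w)).card = 2) : HasBF G := by
  have hsymm : ∀ s u w, m s u = w → m s w = u := by
    intro s u w h
    rw [← h]
    exact (hm s u).2
  refine ⟨fun s => { verts := Set.univ
                     Adj := fun u w => m s u = w
                     adj_sub := by
                      intro u w h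
                      rw [← h]
                      exact (hm s u).1
                     edge_vert := fun _ => trivial
                     symm := ⟨fun u w h => hsymm s u w h⟩ }, ?_, ?_⟩
  · intro s
    refine ⟨?_, ?_⟩
    · intro u _
      refine ⟨m s u, rfl, fun w hw => ?_⟩
      have hw' : m s u = w := hw
      exact hw'.symm
    · intro u
      trivial
  · intro e
    induction e using Sym2.ind with
    | _ u w =>
      intro he
      rw [← hc u w he, ← Set.ncard_coe_finset]
      congr 1
      ext s
      simp [SimpleGraph.Subgraph.mem_edgeSet]

end Pool.Agent.H416R3.BP
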