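import Pool.Agent.H416R3.BP.Defs

set_option autoImplicit false

namespace Pool.Agent.H416R3.BP

open Finset Classical

variable {V : Type*} [Fintype V] (H : Pole V)

/-- T05 -/
theorem co_spec {X s : V → V} (hX : H.OneF X) (hs : H.OneF s)
    (hd : ∀ u, H.I u → s u ≠ X u) {u : V} (hu : H.I u) :
    H.G.Adj u (H.co X s u) ∧ H.co X s u ≠ X u ∧ H.co X s u ≠ s u ∧
      ∀ w, H.G.Adj u w ↔ (w = X u ∨ w = s u ∨ w = H.co X s u) := by
  have h1 : H.G.Adj u (X u) := (hX.2 u hu).1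
  have h2 : H.G.Adj u (s u) := (hs.2 u hu).1
  have h3 : X u ≠ s u := fun h => hd u hu h.symm
  have hsub : ({X u, s u} : Set V) ⊆ H.G.neighborSet u := by
    intro w hw
    rcases hw with hw | hw
    · rw [hw]; exact h1
    · have hw' : w = s u := hw
      rw [hw']; exact h2
  have hcard : (H.G.neighborSet u \ {X u, s u}).ncard = 1 := by
    rw [Set.ncard_sdiff hsub (Set.toFinite _), H.deg3 u, Set.ncard_pair h3]
  obtain ⟨w, hw⟩ := Set.ncard_eq_one.1 hcard
  have hwm : w ∈ H.G.neighborSet u \ {X u, s u} := by rw [hw]; exact Set.mem_singleton w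
  have hex : ∃ w, H.I u ∧ H.G.Adj u w ∧ w ≠ X u ∧ w ≠ s u :=
    ⟨w, hu, hwm.1, fun h => hwm.2 (Or.inl h), fun h => hwm.2 (Or.inr h)⟩
  have hco : H.co X s u = hex.choose := by
    unfold Pole.co
    rw [dif_pos hex]
  obtain ⟨-, c1, c2, c3⟩ := hex.choose_spec
  rw [← hco] at c1 c2 c3
  refine ⟨c1, c2, c3, fun w' => ⟨fun h => ?_, ?_⟩⟩
  · by_cases e1 : w' = X u
    · exact Or.inl e1
    by_cases e2 : w' = s u
    · exact Or.inr (Or.inl e2)
    have m1 : w' ∈ H.G.neighborSet u \ {X u, s u} := ⟨h, fun hh => hh.elim e1 e2⟩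
    have m2 : H.co X s u ∈ H.G.neighborSet u \ {X u, s u} := ⟨c1, fun hh => hh.elim c2 c3⟩
    rw [hw] at m1 m2
    have m1' : w' = w := m1
    have m2' : H.co X s u = w := m2
    exact Or.inr (Or.inr (m1'.trans m2'.symm))
  · rintro (h | h | h)
    · rw [h]; exact h1
    · rw [h]; exact h2
    · rw [h]; exact c1

end Pool.Agent.H416R3.BP
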