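import Pool.Agent.H416R3.BP.Defs
import Pool.Agent.H416R3.BP.T05

set_option autoImplicit false

namespace Pool.Agent.H416R3.BP

open Finset Classical

namespace T06

variable {V : Type*} (H : Pole V)

theorem co_out {X s : V → V} {u : V} (hu : ¬ H.I u) : H.co X s u = u := by
  unfold Pole.co
  rw [dif_neg]
  rintro ⟨w, h, -⟩
  exact hu h

theorem adj_z (t : Fin 5) : H.G.Adj (H.z t) (H.e t) := by
  have h0 : H.G.Adj H.x (H.e 0) := (H.adjx _).2 (Or.inr (Or.inl rfl))
  have h1 : H.G.Adj H.x (H.e 1) := (H.adjx _).2 (Or.inr (Or.inr rfl))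
  have h2 : H.G.Adj H.v (H.e 2) := (H.adjv _).2 (Or.inr (Or.inr rfl))
  have h3 : H.G.Adj H.y (H.e 3) := (H.adjy _).2 (Or.inr (Or.inl rfl))
  have h4 : H.G.Adj H.y (H.e 4) := (H.adjy _).2 (Or.inr (Or.inr rfl))
  fin_cases t
  · exact h0
  · exact h1
  · exact h2
  · exact h3
  · exact h4

theorem I_e (t : Fin 5) : H.I (H.e t) := ⟨H.hex t, H.hev t, H.hey t⟩

end T06

variable {V : Type*} [Fintype V] (H : Pole V)

/-- T06 -/
theorem co_mem {X s : V → V} (hX : H.OneF X) {σ : Finset (Fin 5)} (hs : s ∈ H.S X σ) :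
    H.co X s ∈ H.S X (univ \ (H.bd X ∪ σ)) ∧ H.co X (H.co X s) = s := by
  unfold Pole.S at hs
  obtain ⟨-, hs1, hsσ, hd⟩ := Finset.mem_filter.mp hs
  have spec := fun {u : V} (hu : H.I u) => co_spec H hX hs1 hd hu
  have hone : H.OneF (H.co X s) := by
    refine ⟨fun u hu => T06.co_out H hu, fun u hu => ⟨(spec hu).1, fun hc => ?_⟩⟩
    have hadj : H.G.Adj (H.co X s u) u := (spec hu).1.symm
    rcases ((spec hc).2.2.2 u).1 hadj with h | h | h
    · exfalso
      have h2 := (hX.2 _ hc).2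
      rw [← h] at h2
      exact (spec hu).2.1 (h2 hu).symm
    · exfalso
      have h2 := (hs1.2 _ hc).2
      rw [← h] at h2
      exact (spec hu).2.2.1 (h2 hu).symm
    · exact h.symm
  have hne : ∀ u, H.I u → H.co X s u ≠ X u := fun u hu => (spec hu).2.1
  refine ⟨?_, ?_⟩
  · unfold Pole.S
    refine Finset.mem_filter.mpr ⟨Finset.mem_univ _, hone, ?_, hne⟩
    ext t
    have hI := T06.I_e H t
    have hsp := spec hI
    have hz := (hsp.2.2.2 (H.z t)).1 (T06.adj_z H t).symm
    have e1 : t ∈ σ ↔ s (H.e t) = H.z t := by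
      rw [← hsσ]
      unfold Pole.bd
      simp
    have e2 : t ∈ H.bd X ↔ X (H.e t) = H.z t := by
      unfold Pole.bd
      simp
    have e3 : t ∈ H.bd (H.co X s) ↔ H.co X s (H.e t) = H.z t := by
      unfold Pole.bd
      simp
    rw [e3, Finset.mem_sdiff, Finset.mem_union, e1, e2]
    have hdd := hd _ hI
    constructor
    · intro h
      refine ⟨Finset.mem_univ _, ?_⟩
      rintro (h' | h')
      · exact hsp.2.1 (h.trans h'.symm)
      · exact hsp.2.2.1 (h.trans h'.symm)
    · rintro ⟨-, h⟩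
      rcases hz with h' | h' | h'
      · exact absurd (Or.inl h'.symm) h
      · exact absurd (Or.inr h'.symm) h
      · exact h'.symm
  · funext u
    by_cases hu : H.I u
    · have h2 := co_spec H hX hone hne hu
      rcases ((spec hu).2.2.2 _).1 h2.1 with h | h | h
      · exact absurd h h2.2.1
      · exact h
      · exact absurd h h2.2.2.1
    · rw [T06.co_out H hu, hs1.1 u hu]

end Pool.Agent.H416R3.BP
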