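import Pool.Agent.H416R3.BP.Defs
import Pool.Agent.H416R3.BP.T05
import Pool.Agent.H416R3.BP.T06

set_option autoImplicit false

namespace Pool.Agent.H416R3.BP

open Finset Classical

variable {V : Type*} [Fintype V] (H : Pole V)

theorem T07.mem_S {X s : V → V} {σ : Finset (Fin 5)} :
    s ∈ H.S X σ ↔ H.OneF s ∧ H.bd s = σ ∧ ∀ u, H.I u → s u ≠ X u := by
  unfold Pole.S
  rw [mem_filter]
  exact ⟨fun h => h.2, fun h => ⟨mem_univ _, h⟩⟩

theorem T07.mem_bd {p : V → V} {t : Fin 5} : t ∈ H.bd p ↔ p (H.e t) = H.z t := by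
  unfold Pole.bd
  rw [mem_filter]
  exact ⟨fun h => h.2, fun h => ⟨mem_univ _, h⟩⟩

/-- T07: `C` is closed under adjacency along inner non-`X`-edges; flipping `s` on `C`. -/
theorem fl_mem {X s : V → V} (hX : H.OneF X) {σ σ' : Finset (Fin 5)} (hs : s ∈ H.S X σ)
    (C : Set V) (hC : ∀ u w, H.I u → H.I w → H.G.Adj u w → w ≠ X u → u ∈ C → w ∈ C)
    (hσ : ∀ t, t ∈ σ' ↔ (if H.e t ∈ C then (t ∉ σ ∧ t ∉ H.bd X) else t ∈ σ)) :
    H.fl X s C ∈ H.S X σ' ∧ H.fl X (H.fl X s C) C = s := by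
  obtain ⟨hs1, hs2, hs3⟩ := (T07.mem_S H).mp hs
  obtain ⟨hc, -⟩ := co_mem H hX hs
  obtain ⟨hc1, hc2, hc3⟩ := (T07.mem_S H).mp hc
  have fC : ∀ u, u ∈ C → H.fl X s C u = H.co X s u := fun u hu => if_pos hu
  have fN : ∀ u, u ∉ C → H.fl X s C u = s u := fun u hu => if_neg hu
  have hfS : H.fl X s C ∈ H.S X σ' := by
    refine (T07.mem_S H).mpr ⟨⟨fun u hu => ?_, fun u hu => ?_⟩, ?_, fun u hu => ?_⟩
    · by_cases huC : u ∈ C
      · rw [fC u huC]; exact hc1.1 u hu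
      · rw [fN u huC]; exact hs1.1 u hu
    · by_cases huC : u ∈ C
      · rw [fC u huC]
        refine ⟨(hc1.2 u hu).1, fun hw => ?_⟩
        have hwC : H.co X s u ∈ C := hC u _ hu hw (hc1.2 u hu).1 (hc3 u hu) huC
        rw [fC _ hwC]
        exact (hc1.2 u hu).2 hw
      · rw [fN u huC]
        refine ⟨(hs1.2 u hu).1, fun hw => ?_⟩
        have hwC : s u ∉ C := by
          intro hwC
          apply huC
          have h1 : s (s u) = u := (hs1.2 u hu).2 hw
          refine hC (s u) u hw hu (hs1.2 u hu).1.symm ?_ hwC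
          have h2 := hs3 (s u) hw
          rw [h1] at h2
          exact h2
        rw [fN _ hwC]
        exact (hs1.2 u hu).2 hw
    · ext t
      rw [hσ t, T07.mem_bd]
      by_cases htC : H.e t ∈ C
      · rw [fC _ htC, if_pos htC, ← T07.mem_bd, hc2]
        simp only [mem_sdiff, mem_univ, true_and, mem_union, not_or]
        tauto
      · rw [fN _ htC, if_neg htC, ← T07.mem_bd, hs2]
    · by_cases huC : u ∈ C
      · rw [fC u huC]; exact hc3 u hu
      · rw [fN u huC]; exact hs3 u hu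
  refine ⟨hfS, ?_⟩
  obtain ⟨hf1, hf2, hf3⟩ := (T07.mem_S H).mp hfS
  obtain ⟨hg, -⟩ := co_mem H hX hfS
  obtain ⟨hg1, hg2, hg3⟩ := (T07.mem_S H).mp hg
  funext u
  by_cases huC : u ∈ C
  · have e1 : H.fl X (H.fl X s C) C u = H.co X (H.fl X s C) u := if_pos huC
    rw [e1]
    by_cases hu : H.I u
    · obtain ⟨-, a2, a3, a4⟩ := co_spec H hX hf1 hf3 hu
      obtain ⟨-, b2, b3, b4⟩ := co_spec H hX hs1 hs3 hu
      have h1 := (a4 (s u)).mp (hs1.2 u hu).1
      rw [fC u huC] at h1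
      rcases h1 with h1 | h1 | h1
      · exact absurd h1 (hs3 u hu)
      · exact absurd h1.symm b3
      · exact h1.symm
    · rw [hg1.1 u hu, hs1.1 u hu]
  · have e1 : H.fl X (H.fl X s C) C u = H.fl X s C u := if_neg huC
    rw [e1, fN u huC]

end Pool.Agent.H416R3.BP
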