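import Pool.Agent.H416R3.BP.Defs
import Pool.Agent.H416R3.BP.T02

set_option autoImplicit false

/-! # T08: Kempe families -/

namespace Pool.Agent.H416R3.BP

open Finset Classical

namespace T08

variable {V : Type*} (H : Pole V)

theorem not_I_z (t : Fin 5) : ¬ H.I (H.z t) := by
  fin_cases t <;> simp [Pole.I, Pole.z]

theorem I_e (t : Fin 5) : H.I (H.e t) := ⟨H.hex t, H.hev t, H.hey t⟩

/-- the leaf of an edge between an inner and a noninner vertex -/
theorem leaf {u w : V} (hu : H.I u) (hw : ¬ H.I w) (hA : H.G.Adj u w) :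
    ∃ t, H.e t = u ∧ H.z t = w ∧ ∀ t', H.e t' = u → H.z t' = w → t' = t := by
  have hz0 : H.z 0 = H.x := rfl
  have hz1 : H.z 1 = H.x := rfl
  have hz2 : H.z 2 = H.v := rfl
  have hz3 : H.z 3 = H.y := rfl
  have hz4 : H.z 4 = H.y := rfl
  have hcase : w = H.x ∨ w = H.v ∨ w = H.y := by
    unfold Pole.I at hw
    tauto
  have h1 := H.hxv
  have h2 := H.hyv
  have h3 := H.hxy
  have h4 := H.he01
  have h5 := H.he34
  rcases hcase with rfl | rfl | rfl
  · rcases (H.adjx u).1 hA.symm with h | h | h
    · exact absurd h hu.2.1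
    · refine ⟨0, h.symm, rfl, ?_⟩
      intro t' ht1 ht2
      fin_cases t'
      · rfl
      · exact absurd (ht1.trans h).symm h4
      · exact absurd ht2 h1.symm
      · exact absurd ht2 h3.symm
      · exact absurd ht2 h3.symm
    · refine ⟨1, h.symm, rfl, ?_⟩
      intro t' ht1 ht2
      fin_cases t'
      · exact absurd (ht1.trans h) h4
      · rfl
      · exact absurd ht2 h1.symm
      · exact absurd ht2 h3.symm
      · exact absurd ht2 h3.symm
  · rcases (H.adjv u).1 hA.symm with h | h | h
    · exact absurd h hu.1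
    · exact absurd h hu.2.2
    · refine ⟨2, h.symm, rfl, ?_⟩
      intro t' ht1 ht2
      fin_cases t'
      · exact absurd ht2 h1
      · exact absurd ht2 h1
      · rfl
      · exact absurd ht2 h2
      · exact absurd ht2 h2
  · rcases (H.adjy u).1 hA.symm with h | h | h
    · exact absurd h hu.2.1
    · refine ⟨3, h.symm, rfl, ?_⟩
      intro t' ht1 ht2
      fin_cases t'
      · exact absurd ht2 h3
      · exact absurd ht2 h3
      · exact absurd ht2 h2.symm
      · rfl
      · exact absurd (ht1.trans h).symm h5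
    · refine ⟨4, h.symm, rfl, ?_⟩
      intro t' ht1 ht2
      fin_cases t'
      · exact absurd ht2 h3
      · exact absurd ht2 h3
      · exact absurd ht2 h2.symm
      · exact absurd (ht1.trans h) h5
      · rfl

/-- the adjacency of the Kempe graph -/
def rel (P : Fin 6 → V → V) (u w : V) : Prop :=
  H.I u ∧ H.I w ∧ P 0 u ≠ P 1 u ∧ (P 0 u = w ∨ P 1 u = w)

/-- the Kempe graph -/
def D (P : Fin 6 → V → V) : SimpleGraph V := SimpleGraph.fromRel (rel H P)

theorem rel_symm {P : Fin 6 → V → V} (h0 : H.OneF (P 0)) (h1 : H.OneF (P 1)) {u w : V}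
    (h : rel H P u w) : rel H P w u := by
  obtain ⟨hu, hw, hne, h⟩ := h
  refine ⟨hw, hu, ?_⟩
  rcases h with h | h
  · have h2 : P 0 w = u := by
      have := (h0.2 u hu).2 (by rw [h]; exact hw)
      rwa [h] at this
    refine ⟨?_, Or.inl h2⟩
    intro h3
    apply hne
    have h4 : P 1 w = u := by rw [← h3, h2]
    have := (h1.2 w hw).2 (by rw [h4]; exact hu)
    rw [h4] at this
    rw [h, this]
  · have h2 : P 1 w = u := by
      have := (h1.2 u hu).2 (by rw [h]; exact hw)
      rwa [h] at this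
    refine ⟨?_, Or.inr h2⟩
    intro h3
    apply hne
    have h4 : P 0 w = u := by rw [h3, h2]
    have := (h0.2 w hw).2 (by rw [h4]; exact hu)
    rw [h4] at this
    rw [h, this]

theorem D_adj {P : Fin 6 → V → V} (h0 : H.OneF (P 0)) (h1 : H.OneF (P 1)) {u w : V} :
    (D H P).Adj u w ↔ rel H P u w := by
  unfold D
  rw [SimpleGraph.fromRel_adj]
  constructor
  · rintro ⟨_, h | h⟩
    · exact h
    · exact rel_symm H h0 h1 h
  · intro h
    refine ⟨?_, Or.inl h⟩
    obtain ⟨hu, hw, hne, h⟩ := h
    rcases h with h | h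
    · rw [← h]
      exact (h0.2 u hu).1.ne
    · rw [← h]
      exact (h1.2 u hu).1.ne

theorem mem_bd {p : V → V} {t : Fin 5} : t ∈ H.bd p ↔ p (H.e t) = H.z t := by
  simp [Pole.bd]

/-- the degrees in the Kempe graph -/
theorem deg {P : Fin 6 → V → V} (h0 : H.OneF (P 0)) (h1 : H.OneF (P 1)) {Q : Finset (Fin 5)}
    {q : Fin 5} (hq : q ∈ Q) (b0 : H.bd (P 0) = Q.erase q) (b1 : H.bd (P 1) = {q}) (u : V) :
    ((D H P).neighborSet u).ncard + (Q.filter (fun t => H.e t = u)).card = 2 ∨
      (((D H P).neighborSet u).ncard = 0 ∧ (Q.filter (fun t => H.e t = u)).card = 0) := by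
  have hQ : ∀ t, t ∈ Q ↔ (P 0 (H.e t) = H.z t ∨ P 1 (H.e t) = H.z t) := by
    intro t
    rw [← mem_bd, ← mem_bd, b0, b1, mem_erase, mem_singleton]
    constructor
    · intro h
      by_cases h' : t = q
      · exact Or.inr h'
      · exact Or.inl ⟨h', h⟩
    · rintro (h | h)
      · exact h.2
      · rw [h]; exact hq
  have hnot : ∀ t, ¬ (P 0 (H.e t) = H.z t ∧ P 1 (H.e t) = H.z t) := by
    intro t
    rw [← mem_bd, ← mem_bd, b0, b1, mem_erase, mem_singleton]
    tauto
  by_cases hu : H.I u
  · by_cases hab : P 0 u = P 1 u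
    · right
      constructor
      · have : (D H P).neighborSet u = ∅ := by
          ext w
          rw [SimpleGraph.mem_neighborSet, D_adj H h0 h1]
          simp [rel, hab]
        rw [this, Set.ncard_empty]
      · rw [card_eq_zero, filter_eq_empty_iff]
        rintro t ht rfl
        have h2 := (hQ t).1 ht
        apply hnot t
        rw [hab] at h2 ⊢
        tauto
    · left
      have hN : (D H P).neighborSet u = {w | (w = P 0 u ∨ w = P 1 u) ∧ H.I w} := by
        ext w
        rw [SimpleGraph.mem_neighborSet, D_adj H h0 h1]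
        simp only [rel, Set.mem_ofPred_eq]
        constructor
        · rintro ⟨_, h2, _, h3⟩
          refine ⟨?_, h2⟩
          rcases h3 with h3 | h3
          · exact Or.inl h3.symm
          · exact Or.inr h3.symm
        · rintro ⟨h3, h2⟩
          refine ⟨hu, h2, hab, ?_⟩
          rcases h3 with h3 | h3
          · exact Or.inl h3.symm
          · exact Or.inr h3.symm
      have hF : ∀ t, t ∈ Q.filter (fun t => H.e t = u) ↔
          (H.e t = u ∧ (H.z t = P 0 u ∨ H.z t = P 1 u)) := by
        intro t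
        rw [mem_filter, hQ]
        constructor
        · rintro ⟨h2, h3⟩
          rw [h3] at h2
          refine ⟨h3, ?_⟩
          rcases h2 with h2 | h2
          · exact Or.inl h2.symm
          · exact Or.inr h2.symm
        · rintro ⟨h3, h2⟩
          refine ⟨?_, h3⟩
          rw [h3]
          rcases h2 with h2 | h2
          · exact Or.inl h2.symm
          · exact Or.inr h2.symm
      have hA0 := (h0.2 u hu).1
      have hA1 := (h1.2 u hu).1
      rw [hN]
      by_cases ha : H.I (P 0 u)
      · by_cases hb : H.I (P 1 u)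
        · have e1 : {w | (w = P 0 u ∨ w = P 1 u) ∧ H.I w} = {P 0 u, P 1 u} := by
            ext w
            simp only [Set.mem_ofPred_eq, Set.mem_insert_iff, Set.mem_singleton_iff]
            constructor
            · exact fun h => h.1
            · rintro (h | h)
              · exact ⟨Or.inl h, h ▸ ha⟩
              · exact ⟨Or.inr h, h ▸ hb⟩
          have e2 : Q.filter (fun t => H.e t = u) = ∅ := by
            rw [eq_empty_iff_forall_notMem]
            intro t ht
            rw [hF] at ht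
            rcases ht.2 with h | h
            · exact not_I_z H t (h ▸ ha)
            · exact not_I_z H t (h ▸ hb)
          rw [e1, e2, Set.ncard_pair hab, card_empty]
        · obtain ⟨t1, ht1, ht2, ht3⟩ := leaf H hu hb hA1
          have e1 : {w | (w = P 0 u ∨ w = P 1 u) ∧ H.I w} = {P 0 u} := by
            ext w
            simp only [Set.mem_ofPred_eq, Set.mem_singleton_iff]
            constructor
            · rintro ⟨h | h, h'⟩
              · exact h
              · exact absurd (h ▸ h') hb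
            · rintro h
              exact ⟨Or.inl h, h ▸ ha⟩
          have e2 : Q.filter (fun t => H.e t = u) = {t1} := by
            ext t
            rw [hF, mem_singleton]
            constructor
            · rintro ⟨h2, h | h⟩
              · exact absurd (h ▸ ha) (not_I_z H t)
              · exact ht3 t h2 h
            · rintro rfl
              exact ⟨ht1, Or.inr ht2⟩
          rw [e1, e2, Set.ncard_singleton, card_singleton]
      · obtain ⟨t0, hs1, hs2, hs3⟩ := leaf H hu ha hA0
        by_cases hb : H.I (P 1 u)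
        · have e1 : {w | (w = P 0 u ∨ w = P 1 u) ∧ H.I w} = {P 1 u} := by
            ext w
            simp only [Set.mem_ofPred_eq, Set.mem_singleton_iff]
            constructor
            · rintro ⟨h | h, h'⟩
              · exact absurd (h ▸ h') ha
              · exact h
            · rintro h
              exact ⟨Or.inr h, h ▸ hb⟩
          have e2 : Q.filter (fun t => H.e t = u) = {t0} := by
            ext t
            rw [hF, mem_singleton]
            constructor
            · rintro ⟨h2, h | h⟩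
              · exact hs3 t h2 h
              · exact absurd (h ▸ hb) (not_I_z H t)
            · rintro rfl
              exact ⟨hs1, Or.inl hs2⟩
          rw [e1, e2, Set.ncard_singleton, card_singleton]
        · obtain ⟨t1, ht1, ht2, ht3⟩ := leaf H hu hb hA1
          have hne : t0 ≠ t1 := by
            rintro rfl
            exact hab (hs2.symm.trans ht2)
          have e1 : {w | (w = P 0 u ∨ w = P 1 u) ∧ H.I w} = ∅ := by
            ext w
            simp only [Set.mem_ofPred_eq, Set.mem_empty_iff_false, iff_false]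
            rintro ⟨h | h, h'⟩
            · exact ha (h ▸ h')
            · exact hb (h ▸ h')
          have e2 : Q.filter (fun t => H.e t = u) = {t0, t1} := by
            ext t
            rw [hF, mem_insert, mem_singleton]
            constructor
            · rintro ⟨h2, h | h⟩
              · exact Or.inl (hs3 t h2 h)
              · exact Or.inr (ht3 t h2 h)
            · rintro (rfl | rfl)
              · exact ⟨hs1, Or.inl hs2⟩
              · exact ⟨ht1, Or.inr ht2⟩
          rw [e1, e2, Set.ncard_empty, card_pair hne]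
  · right
    constructor
    · have : (D H P).neighborSet u = ∅ := by
        ext w
        rw [SimpleGraph.mem_neighborSet, D_adj H h0 h1]
        simp [rel, hu]
      rw [this, Set.ncard_empty]
    · rw [card_eq_zero, filter_eq_empty_iff]
      rintro t _ rfl
      exact hu (I_e H t)

/-! ### the exchange -/

/-- exchange of `P 0` and `P 1` on `C` -/
noncomputable def sw (P : Fin 6 → V → V) (C : Set V) : Fin 6 → V → V :=
  fun s u => if u ∈ C then P (Equiv.swap 0 1 s) u else P s u

theorem sw_mem {P : Fin 6 → V → V} {C : Set V} (s : Fin 6) {u : V} (h : u ∈ C) :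
    sw P C s u = P (Equiv.swap 0 1 s) u := if_pos h

theorem sw_not {P : Fin 6 → V → V} {C : Set V} (s : Fin 6) {u : V} (h : u ∉ C) :
    sw P C s u = P s u := if_neg h

theorem sw_sw (P : Fin 6 → V → V) (C : Set V) : sw (sw P C) C = P := by
  funext s u
  by_cases h : u ∈ C
  · rw [sw_mem _ h, sw_mem _ h, Equiv.swap_apply_self]
  · rw [sw_not _ h, sw_not _ h]

theorem sw_other (P : Fin 6 → V → V) (C : Set V) {s : Fin 6} (h0 : s ≠ 0) (h1 : s ≠ 1) :
    sw P C s = P s := by
  funext u
  by_cases h : u ∈ C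
  · rw [sw_mem _ h, Equiv.swap_apply_of_ne_of_ne h0 h1]
  · rw [sw_not _ h]

theorem D_sw (P : Fin 6 → V → V) (C : Set V) : D H (sw P C) = D H P := by
  have h : rel H (sw P C) = rel H P := by
    funext u w
    unfold rel
    by_cases h : u ∈ C
    · rw [sw_mem _ h, sw_mem _ h, Equiv.swap_apply_left, Equiv.swap_apply_right]
      rw [ne_comm, or_comm]
    · rw [sw_not _ h, sw_not _ h]
  unfold D
  rw [h]

/-- closed sets -/
def Cl (P : Fin 6 → V → V) (C : Set V) : Prop := ∀ u w, (D H P).Adj u w → u ∈ C → w ∈ C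

theorem oneF_sw {P : Fin 6 → V → V} (h0 : H.OneF (P 0)) (h1 : H.OneF (P 1)) {C : Set V}
    (hC : Cl H P C) {s s' : Fin 6} (hs : (s = 0 ∧ s' = 1) ∨ (s = 1 ∧ s' = 0)) :
    H.OneF (sw P C s) := by
  have hsw : Equiv.swap (0 : Fin 6) 1 s = s' := by
    rcases hs with ⟨rfl, rfl⟩ | ⟨rfl, rfl⟩
    · exact Equiv.swap_apply_left _ _
    · exact Equiv.swap_apply_right _ _
  have hPs : H.OneF (P s) := by rcases hs with ⟨rfl, rfl⟩ | ⟨rfl, rfl⟩ <;> assumption
  have hPs' : H.OneF (P s') := by rcases hs with ⟨rfl, rfl⟩ | ⟨rfl, rfl⟩ <;> assumption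
  have hadj : ∀ u w, H.I u → H.I w → P s u ≠ P s' u → (P s u = w ∨ P s' u = w) →
      (D H P).Adj u w := by
    intro u w hu hw hne h
    rw [D_adj H h0 h1]
    rcases hs with ⟨rfl, rfl⟩ | ⟨rfl, rfl⟩
    · exact ⟨hu, hw, hne, h⟩
    · exact ⟨hu, hw, hne.symm, h.symm⟩
  refine ⟨?_, ?_⟩
  · intro u hu
    by_cases h : u ∈ C
    · rw [sw_mem _ h, hsw, hPs'.1 u hu]
    · rw [sw_not _ h, hPs.1 u hu]
  · intro u hu
    by_cases h : u ∈ C
    · rw [sw_mem _ h, hsw]
      refine ⟨(hPs'.2 u hu).1, ?_⟩
      intro hw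
      have h2 := (hPs'.2 u hu).2 hw
      by_cases hw' : P s' u ∈ C
      · rw [sw_mem _ hw', hsw, h2]
      · rw [sw_not _ hw']
        by_cases hne : P s u = P s' u
        · rw [← hne] at hw ⊢
          exact (hPs.2 u hu).2 hw
        · exact absurd (hC u _ (hadj u _ hu hw hne (Or.inr rfl)) h) hw'
    · rw [sw_not _ h]
      refine ⟨(hPs.2 u hu).1, ?_⟩
      intro hw
      have h2 := (hPs.2 u hu).2 hw
      by_cases hw' : P s u ∈ C
      · rw [sw_mem _ hw', hsw]
        by_cases hne : P s u = P s' u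
        · rw [hne] at hw ⊢
          exact (hPs'.2 u hu).2 hw
        · exact absurd (hC _ u (hadj u _ hu hw hne (Or.inl rfl)).symm hw') h
      · rw [sw_not _ hw', h2]

theorem cov_sw {P : Fin 6 → V → V} (hP : H.Cov P) (C : Set V) : H.Cov (sw P C) := by
  intro u hu w hw
  rw [← hP u hu w hw]
  by_cases h : u ∈ C
  · simp only [sw_mem _ h]
    apply card_bij (fun s _ => Equiv.swap (0 : Fin 6) 1 s)
    · intro s hs
      rw [mem_filter] at hs ⊢
      exact ⟨mem_univ _, hs.2⟩
    · intro s _ s' _ he
      exact (Equiv.swap (0 : Fin 6) 1).injective he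
    · intro s hs
      rw [mem_filter] at hs
      refine ⟨Equiv.swap (0 : Fin 6) 1 s, ?_, Equiv.swap_apply_self _ _ _⟩
      rw [mem_filter, Equiv.swap_apply_self]
      exact ⟨mem_univ _, hs.2⟩
  · simp only [sw_not _ h]

/-- the set where the exchange is done -/
def Cc (P : Fin 6 → V → V) : Set V := {u | ∃ t, t ∈ H.bd (P 1) ∧ (D H P).Reachable (H.e t) u}

theorem Cc_cl (P : Fin 6 → V → V) : Cl H P (Cc H P) := by
  rintro u w h ⟨t, ht, h2⟩
  exact ⟨t, ht, h2.trans h.reachable⟩

theorem Cc_eq {P : Fin 6 → V → V} {q : Fin 5} (b1 : H.bd (P 1) = {q}) :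
    Cc H P = {u | (D H P).Reachable (H.e q) u} := by
  ext u
  simp only [Cc, b1, mem_singleton, Set.mem_ofPred_eq]
  constructor
  · rintro ⟨t, rfl, h⟩
    exact h
  · intro h
    exact ⟨q, rfl, h⟩

variable [Fintype V]

theorem mem_Tup {β : Fin 6 → Finset (Fin 5)} {P : Fin 6 → V → V} : P ∈ H.Tup β ↔
    (∀ s, H.OneF (P s)) ∧ (∀ s, H.bd (P s) = β s) ∧ H.Cov P := by
  simp [Pole.Tup]

/-- the main property of the exchange -/
theorem main (Q : Finset (Fin 5)) (γ : Fin 6 → Finset (Fin 5)) {q : Fin 5} (hq : q ∈ Q)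
    {P : Fin 6 → V → V} (hP : P ∈ H.Tup (kem Q q γ)) :
    ∃ p ∈ Q, p ≠ q ∧ sw P (Cc H P) ∈ H.Tup (kem Q p γ) ∧
      Cc H (sw P (Cc H P)) = Cc H P := by
  rw [mem_Tup] at hP
  obtain ⟨hO, hB, hCov⟩ := hP
  have b0 : H.bd (P 0) = Q.erase q := by rw [hB]; rfl
  have b1 : H.bd (P 1) = {q} := by rw [hB]; rfl
  have h0 := hO 0
  have h1 := hO 1
  have hlp := leaf_pair (D H P) H.e Q (deg H h0 h1 hq b0 b1) q hq
  have hCe := Cc_eq H b1
  have hCmem : ∀ t, H.e t ∈ Cc H P ↔ (D H P).Reachable (H.e q) (H.e t) := by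
    intro t
    rw [hCe, Set.mem_ofPred_eq]
  have hqm : q ∈ Q.filter (fun t => (D H P).Reachable (H.e q) (H.e t)) :=
    mem_filter.2 ⟨hq, SimpleGraph.Reachable.refl _⟩
  obtain ⟨p, hp⟩ : ∃ p, (Q.filter (fun t => (D H P).Reachable (H.e q) (H.e t))).erase q = {p} := by
    rw [← card_eq_one, card_erase_of_mem hqm, hlp]
  have hpm : p ∈ (Q.filter (fun t => (D H P).Reachable (H.e q) (H.e t))).erase q := by
    rw [hp]; exact mem_singleton_self _
  rw [mem_erase, mem_filter] at hpm
  obtain ⟨hpq, hpQ, hpr⟩ := hpm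
  have hQC : ∀ t ∈ Q, H.e t ∈ Cc H P ↔ (t = q ∨ t = p) := by
    intro t ht
    rw [hCmem]
    constructor
    · intro h
      by_cases h' : t = q
      · exact Or.inl h'
      · right
        have : t ∈ (Q.filter (fun t => (D H P).Reachable (H.e q) (H.e t))).erase q :=
          mem_erase.2 ⟨h', mem_filter.2 ⟨ht, h⟩⟩
        rw [hp] at this
        exact mem_singleton.1 this
    · rintro (rfl | rfl)
      · exact SimpleGraph.Reachable.refl _
      · exact hpr
  have m0 : ∀ t, P 0 (H.e t) = H.z t ↔ (t ≠ q ∧ t ∈ Q) := by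
    intro t
    rw [← mem_bd, b0, mem_erase]
  have m1 : ∀ t, P 1 (H.e t) = H.z t ↔ t = q := by
    intro t
    rw [← mem_bd, b1, mem_singleton]
  have b1' : H.bd (sw P (Cc H P) 1) = {p} := by
    ext t
    rw [mem_bd, mem_singleton]
    by_cases h : H.e t ∈ Cc H P
    · rw [sw_mem _ h, Equiv.swap_apply_right, m0]
      constructor
      · rintro ⟨h3, h4⟩
        rcases (hQC t h4).1 h with h5 | h5
        · exact absurd h5 h3
        · exact h5
      · rintro rfl
        exact ⟨hpq, hpQ⟩
    · rw [sw_not _ h, m1]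
      constructor
      · rintro rfl
        exact absurd ((hQC t hq).2 (Or.inl rfl)) h
      · rintro rfl
        exact absurd ((hQC t hpQ).2 (Or.inr rfl)) h
  have b0' : H.bd (sw P (Cc H P) 0) = Q.erase p := by
    ext t
    rw [mem_bd, mem_erase]
    by_cases h : H.e t ∈ Cc H P
    · rw [sw_mem _ h, Equiv.swap_apply_left, m1]
      constructor
      · rintro rfl
        exact ⟨hpq.symm, hq⟩
      · rintro ⟨h3, h4⟩
        rcases (hQC t h4).1 h with h5 | h5
        · exact h5
        · exact absurd h5 h3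
    · rw [sw_not _ h, m0]
      constructor
      · rintro ⟨_, h4⟩
        refine ⟨?_, h4⟩
        rintro rfl
        exact h ((hQC t h4).2 (Or.inr rfl))
      · rintro ⟨_, h4⟩
        refine ⟨?_, h4⟩
        rintro rfl
        exact h ((hQC t h4).2 (Or.inl rfl))
  refine ⟨p, hpQ, hpq, ?_, ?_⟩
  · rw [mem_Tup]
    refine ⟨?_, ?_, cov_sw H hCov _⟩
    · intro s
      by_cases hs0 : s = 0
      · exact oneF_sw H h0 h1 (Cc_cl H P) (s' := 1) (Or.inl ⟨hs0, rfl⟩)
      · by_cases hs1 : s = 1
        · exact oneF_sw H h0 h1 (Cc_cl H P) (s' := 0) (Or.inr ⟨hs1, rfl⟩)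
        · rw [sw_other _ _ hs0 hs1]
          exact hO s
    · intro s
      by_cases hs0 : s = 0
      · subst hs0
        exact b0'
      · by_cases hs1 : s = 1
        · subst hs1
          exact b1'
        · rw [sw_other _ _ hs0 hs1, hB]
          simp only [kem, if_neg hs0, if_neg hs1]
  · rw [Cc_eq H b1', D_sw, hCe]
    ext u
    simp only [Set.mem_ofPred_eq]
    exact ⟨fun h => hpr.trans h, fun h => hpr.symm.trans h⟩

end T08

variable {V : Type*} [Fintype V] (H : Pole V)

/-- T08 -/
theorem kempe (Q : Finset (Fin 5)) (hQ : Q.card = 4) (γ : Fin 6 → Finset (Fin 5)) :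
    Even (∑ q ∈ Q, H.cn (kem Q q γ)) := by
  have hdisj : ∀ q ∈ Q, ∀ q' ∈ Q, q ≠ q' →
      Disjoint (H.Tup (kem Q q γ)) (H.Tup (kem Q q' γ)) := by
    intro q _ q' _ hne
    rw [Finset.disjoint_left]
    intro P hP hP'
    rw [T08.mem_Tup] at hP hP'
    have h1 : H.bd (P 1) = {q} := by rw [hP.2.1]; rfl
    have h2 : H.bd (P 1) = {q'} := by rw [hP'.2.1]; rfl
    exact hne (singleton_injective (h1.symm.trans h2))
  have hsum : ∑ q ∈ Q, H.cn (kem Q q γ) = (Q.biUnion (fun q => H.Tup (kem Q q γ))).card := by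
    rw [card_biUnion hdisj]
    rfl
  rw [hsum, ← ZMod.natCast_eq_zero_iff_even, ← nsmul_one, ← sum_const]
  have hmem : ∀ P, P ∈ Q.biUnion (fun q => H.Tup (kem Q q γ)) →
      T08.sw P (T08.Cc H P) ∈ Q.biUnion (fun q => H.Tup (kem Q q γ)) := by
    intro P hP
    rw [mem_biUnion] at hP ⊢
    obtain ⟨q, hq, hP⟩ := hP
    obtain ⟨p, hp, _, h, _⟩ := T08.main H Q γ hq hP
    exact ⟨p, hp, h⟩
  refine sum_involution (fun P _ => T08.sw P (T08.Cc H P)) ?_ ?_ hmem ?_
  · intro P _
    decide
  · intro P hP _ heq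
    rw [mem_biUnion] at hP
    obtain ⟨q, hq, hP⟩ := hP
    obtain ⟨p, hp, hne, h, _⟩ := T08.main H Q γ hq hP
    rw [heq] at h
    have h3 := Finset.disjoint_left.1 (hdisj p hp q hq hne) h
    exact h3 hP
  · intro P hP
    rw [mem_biUnion] at hP
    obtain ⟨q, hq, hP⟩ := hP
    obtain ⟨p, hp, hne, h, h2⟩ := T08.main H Q γ hq hP
    show T08.sw (T08.sw P (T08.Cc H P)) (T08.Cc H (T08.sw P (T08.Cc H P))) = P
    rw [h2, T08.sw_sw]

end Pool.Agent.H416R3.BP
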