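import Pool.Agent.H416R3.BP.Defs

set_option autoImplicit false

namespace Pool.Agent.H416R3.BP

open Finset Classical

variable {V : Type*} [Fintype V] (H : Pole V)

namespace T09

omit [Fintype V] in
theorem cov_perm (H : Pole V) (P : Fin 6 → V → V) (σ : Equiv.Perm (Fin 6)) (hP : H.Cov P) :
    H.Cov (fun s => P (σ s)) := by
  intro u hu w hw
  rw [← hP u hu w hw]
  refine Finset.card_bij (fun s _ => σ s) ?_ ?_ ?_
  · intro s hs
    rw [Finset.mem_filter] at hs ⊢
    exact ⟨Finset.mem_univ _, hs.2⟩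
  · intro a _ b _ hab
    exact σ.injective hab
  · intro b hb
    rw [Finset.mem_filter] at hb
    refine ⟨σ.symm b, ?_, σ.apply_symm_apply b⟩
    rw [Finset.mem_filter]
    refine ⟨Finset.mem_univ _, ?_⟩
    show P (σ (σ.symm b)) u = w
    rw [σ.apply_symm_apply]
    exact hb.2

end T09

/-- T09 -/
theorem cn_perm (β : Fin 6 → Finset (Fin 5)) (σ : Equiv.Perm (Fin 6)) :
    H.cn (fun s => β (σ s)) = H.cn β := by
  unfold Pole.cn
  refine Finset.card_bij (fun P _ => fun s => P (σ.symm s)) ?_ ?_ ?_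
  · intro P hP
    unfold Pole.Tup at hP ⊢
    rw [Finset.mem_filter] at hP ⊢
    obtain ⟨_, h1, h2, h3⟩ := hP
    refine ⟨Finset.mem_univ _, fun s => h1 _, fun s => ?_, T09.cov_perm H P σ.symm h3⟩
    have := h2 (σ.symm s)
    simp only [σ.apply_symm_apply] at this
    exact this
  · intro P _ Q _ hPQ
    funext s
    have := congrFun hPQ (σ s)
    simpa using this
  · intro P hP
    refine ⟨fun s => P (σ s), ?_, ?_⟩
    · unfold Pole.Tup at hP ⊢
      rw [Finset.mem_filter] at hP ⊢
      obtain ⟨_, h1, h2, h3⟩ := hP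
      exact ⟨Finset.mem_univ _, fun s => h1 _, fun s => h2 _, T09.cov_perm H P σ h3⟩
    · funext s
      show P (σ (σ.symm s)) = P s
      rw [σ.apply_symm_apply]

end Pool.Agent.H416R3.BP
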