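import Pool.Agent.H416R3.BP.Defs

set_option autoImplicit false

namespace Pool.Agent.H416R3.BP

open Finset Classical

variable {V : Type*} [Fintype V] (H : Pole V)

namespace T10

/-- covering condition is invariant under permutations of the positions -/
theorem cov_perm {V : Type*} (H : Pole V) (P : Fin 6 → V → V) (σ : Equiv.Perm (Fin 6))
    (h : H.Cov P) : H.Cov (fun s => P (σ s)) := by
  intro u hu w hw
  rw [← h u hu w hw]
  refine Finset.card_bij (fun s _ => σ s) ?_ ?_ ?_
  · intro s hs
    rw [Finset.mem_filter] at hs ⊢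
    exact ⟨Finset.mem_univ _, hs.2⟩
  · intro s _ s' _ hss
    exact σ.injective hss
  · intro s hs
    rw [Finset.mem_filter] at hs
    refine ⟨σ.symm s, ?_, σ.apply_symm_apply s⟩
    rw [Finset.mem_filter]
    refine ⟨Finset.mem_univ _, ?_⟩
    show P (σ (σ.symm s)) u = w
    rw [σ.apply_symm_apply]
    exact hs.2

theorem swap_mem {β : Fin 6 → Finset (Fin 5)} {a b : Fin 6} (h : β a = β b)
    (P : Fin 6 → V → V) (hP : P ∈ H.Tup β) : (fun s => P (Equiv.swap a b s)) ∈ H.Tup β := by
  unfold Pole.Tup at hP ⊢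
  rw [Finset.mem_filter] at hP ⊢
  obtain ⟨-, h1, h2, h3⟩ := hP
  refine ⟨Finset.mem_univ _, fun s => h1 _, fun s => ?_, cov_perm H P _ h3⟩
  show H.bd (P (Equiv.swap a b s)) = β s
  rw [h2]
  by_cases hsa : s = a
  · rw [hsa, Equiv.swap_apply_left, h]
  · by_cases hsb : s = b
    · rw [hsb, Equiv.swap_apply_right, h]
    · rw [Equiv.swap_apply_of_ne_of_ne hsa hsb]

end T10

/-- T10 -/
theorem cn_eq_mod {β : Fin 6 → Finset (Fin 5)} {a b : Fin 6} (hab : a ≠ b) (h : β a = β b) :
    H.cn β % 2 = ((H.Tup β).filter (fun P => P a = P b)).card % 2 := by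
  have h1 : ∑ _P ∈ (H.Tup β).filter (fun P => ¬ P a = P b), (1 : ZMod 2) = 0 := by
    refine Finset.sum_involution (fun P _ => fun s => P (Equiv.swap a b s)) ?_ ?_ ?_ ?_
    · intro P _
      decide
    · intro P hP _ he
      have h2 := congrFun he a
      simp only [Equiv.swap_apply_left] at h2
      exact (Finset.mem_filter.1 hP).2 h2.symm
    · intro P hP
      rw [Finset.mem_filter] at hP ⊢
      refine ⟨T10.swap_mem H h P hP.1, ?_⟩
      show ¬ P (Equiv.swap a b a) = P (Equiv.swap a b b)
      rw [Equiv.swap_apply_left, Equiv.swap_apply_right]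
      exact fun h' => hP.2 h'.symm
    · intro P _
      funext s
      show P (Equiv.swap a b (Equiv.swap a b s)) = P s
      rw [Equiv.swap_apply_self]
  have h2 : Even ((H.Tup β).filter (fun P => ¬ P a = P b)).card := by
    rw [Finset.sum_const, nsmul_eq_mul, mul_one] at h1
    exact (ZMod.natCast_eq_zero_iff_even).1 h1
  have h3 : ((H.Tup β).filter (fun P => P a = P b)).card +
      ((H.Tup β).filter (fun P => ¬ P a = P b)).card = (H.Tup β).card :=
    Finset.card_filter_add_card_filter_not _
  unfold Pole.cn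
  obtain ⟨k, hk⟩ := h2
  omega

end Pool.Agent.H416R3.BP
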