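import Pool.Agent.H416R3.BP.Defs
import Pool.Agent.H416R3.BP.T10

set_option autoImplicit false

namespace Pool.Agent.H416R3.BP

open Finset Classical

namespace T11

theorem key {V : Type*} (P : Fin 6 → V → V) (Q : Fin 4 → V → V) (X : V → V) (h0 : Q 0 = P 0)
    (h1 : Q 1 = P 2) (h2 : Q 2 = P 3) (h3 : Q 3 = P 5) (h4 : P 1 = X) (h5 : P 4 = X) (u w : V) :
    (univ.filter (fun s => P s u = w)).card =
      (univ.filter (fun s => Q s u = w)).card + (if w = X u then 2 else 0) := by
  rw [Finset.card_filter, Finset.card_filter, Fin.sum_univ_six, Fin.sum_univ_four, h0, h1, h2, h3,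
    h4, h5]
  by_cases hw : w = X u
  · rw [if_pos hw, if_pos hw.symm]
    omega
  · have h6 : (if X u = w then 1 else 0) = 0 := if_neg (fun h => hw h.symm)
    rw [if_neg hw, h6]
    omega

end T11

variable {V : Type*} [Fintype V] (H : Pole V)

/-- T11 -/
theorem cn_D4 {β : Fin 6 → Finset (Fin 5)} (h : β 1 = β 4) :
    H.cn β % 2 = (∑ X ∈ H.F1 (β 1), H.D4 X ![β 0, β 2, β 3, β 5]) % 2 := by
  rw [cn_eq_mod H (a := 1) (b := 4) (by decide) h]
  congr 1
  rw [Finset.card_eq_sum_card_fiberwise (f := fun P : Fin 6 → V → V => P 1) (t := H.F1 (β 1))]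
  · apply Finset.sum_congr rfl
    intro X hX
    unfold Pole.F1 at hX
    rw [Finset.mem_filter] at hX
    obtain ⟨-, hX1, hX2⟩ := hX
    unfold Pole.D4
    refine Finset.card_bij' (fun P _ => ![P 0, P 2, P 3, P 5])
      (fun Q _ => ![Q 0, X, Q 1, Q 2, X, Q 3]) ?_ ?_ ?_ ?_
    · intro P hP
      simp only [Finset.mem_filter, Pole.Tup, Finset.mem_univ, true_and] at hP ⊢
      obtain ⟨⟨⟨h1, h2, h3⟩, h4⟩, h5⟩ := hP
      refine ⟨?_, ?_, ?_⟩
      · intro s
        fin_cases s
        · exact h1 0
        · exact h1 2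
        · exact h1 3
        · exact h1 5
      · intro s
        fin_cases s
        · exact h2 0
        · exact h2 2
        · exact h2 3
        · exact h2 5
      · intro u hu w hw
        have h6 := h3 u hu w hw
        rw [T11.key P ![P 0, P 2, P 3, P 5] X rfl rfl rfl rfl h5 (h4.symm.trans h5)] at h6
        by_cases hw2 : w = X u
        · rw [if_pos hw2] at h6 ⊢
          omega
        · rw [if_neg hw2] at h6 ⊢
          omega
    · intro Q hQ
      simp only [Finset.mem_filter, Pole.Tup, Finset.mem_univ, true_and] at hQ ⊢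
      obtain ⟨h1, h2, h3⟩ := hQ
      refine ⟨⟨⟨?_, ?_, ?_⟩, rfl⟩, rfl⟩
      · intro s
        fin_cases s
        · exact h1 0
        · exact hX1
        · exact h1 1
        · exact h1 2
        · exact hX1
        · exact h1 3
      · intro s
        fin_cases s
        · exact h2 0
        · exact hX2
        · exact h2 1
        · exact h2 2
        · exact hX2.trans h
        · exact h2 3
      · intro u hu w hw
        have h6 := h3 u hu w hw
        rw [T11.key ![Q 0, X, Q 1, Q 2, X, Q 3] Q X rfl rfl rfl rfl rfl rfl]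
        by_cases hw2 : w = X u
        · rw [if_pos hw2] at h6 ⊢
          omega
        · rw [if_neg hw2] at h6 ⊢
          omega
    · intro P hP
      simp only [Finset.mem_filter, Pole.Tup, Finset.mem_univ, true_and] at hP
      obtain ⟨⟨-, h4⟩, h5⟩ := hP
      funext s
      fin_cases s
      · rfl
      · exact h5.symm
      · rfl
      · rfl
      · show X = P 4
        rw [← h4, h5]
      · rfl
    · intro Q hQ
      funext s
      fin_cases s <;> rfl
  · intro P hP
    have hP' := Finset.mem_coe.1 hP
    rw [Finset.mem_filter] at hP'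
    obtain ⟨hP1, -⟩ := hP'
    unfold Pole.Tup at hP1
    rw [Finset.mem_filter] at hP1
    rw [Finset.mem_coe]
    unfold Pole.F1
    rw [Finset.mem_filter]
    exact ⟨Finset.mem_univ _, hP1.2.1 1, hP1.2.2.1 1⟩

end Pool.Agent.H416R3.BP
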