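import Pool.Agent.H416R3.BP.Defs

/-! T12: exchange of leaves `3` and `4` (helper9). -/

set_option autoImplicit false

namespace Pool.Agent.H416R3.BP

open Finset Classical

namespace T12

theorem z_swap {V : Type*} (H : Pole V) (t : Fin 5) : H.z (Equiv.swap 3 4 t) = H.z t := by
  fin_cases t <;> rfl

theorem bd_flip {V : Type*} (H : Pole V) (p : V → V) :
    H.flip34.bd p = (H.bd p).image (Equiv.swap 3 4) := by
  ext t
  rw [mem_image]
  unfold Pole.bd
  constructor
  · intro h
    rw [mem_filter] at h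
    refine ⟨Equiv.swap 3 4 t, ?_, Equiv.swap_apply_self _ _ _⟩
    rw [mem_filter]
    refine ⟨mem_univ _, ?_⟩
    have h1 : p (H.e (Equiv.swap 3 4 t)) = H.z t := h.2
    rw [h1, z_swap]
  · rintro ⟨u, hu, rfl⟩
    rw [mem_filter] at hu ⊢
    refine ⟨mem_univ _, ?_⟩
    show p (H.e (Equiv.swap 3 4 (Equiv.swap 3 4 u))) = H.z (Equiv.swap 3 4 u)
    rw [Equiv.swap_apply_self, z_swap]
    exact hu.2

theorem image_swap_swap (A : Finset (Fin 5)) :
    (A.image (Equiv.swap 3 4)).image (Equiv.swap 3 4) = A := by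
  rw [image_image]
  have : (⇑(Equiv.swap (3 : Fin 5) 4) ∘ ⇑(Equiv.swap (3 : Fin 5) 4)) = id := by
    funext t
    exact Equiv.swap_apply_self _ _ _
  rw [this, image_id]

end T12

variable {V : Type*} [Fintype V] (H : Pole V)

/-- T12 -/
theorem cn_flip (β : Fin 6 → Finset (Fin 5)) :
    H.cn (fun s => (β s).image (Equiv.swap 3 4)) = H.flip34.cn β := by
  unfold Pole.cn Pole.Tup
  refine congrArg Finset.card (filter_congr fun P _ => ?_)
  refine and_congr Iff.rfl (and_congr ?_ Iff.rfl)
  refine forall_congr' fun s => ?_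
  rw [T12.bd_flip]
  constructor
  · intro h
    rw [h, T12.image_swap_swap]
  · intro h
    show H.bd (P s) = (β s).image (Equiv.swap 3 4)
    rw [← h, T12.image_swap_swap]

end Pool.Agent.H416R3.BP
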