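import Pool.Agent.H416R3.BP.Defs
import Pool.Agent.H416R3.BP.T05
import Pool.Agent.H416R3.BP.T06

set_option autoImplicit false

namespace Pool.Agent.H416R3.BP

open Finset Classical

namespace T14

theorem loc {α : Type*} {a b c d X : α}
    (h : ∀ w, (w = a ∨ w = b ∨ w = c ∨ w = d) →
      (if a = w then 1 else 0) + (if b = w then 1 else 0) + (if c = w then 1 else 0) +
        (if d = w then 1 else 0) = if w = X then 0 else 2) :
    (a ≠ X ∧ b ≠ X ∧ c ≠ X ∧ d ≠ X) ∧ (a = c ↔ b = d) ∧ (a = c → b ≠ a) := by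
  have ha := h a (by tauto)
  have hb := h b (by tauto)
  have hc := h c (by tauto)
  have hd := h d (by tauto)
  have h1 : a ≠ X := by
    intro e
    rw [if_pos e, if_pos rfl] at ha
    omega
  have h2 : b ≠ X := by
    intro e
    rw [if_pos e, if_pos (rfl : b = b)] at hb
    omega
  have h3 : c ≠ X := by
    intro e
    rw [if_pos e, if_pos (rfl : c = c)] at hc
    omega
  have h4 : d ≠ X := by
    intro e
    rw [if_pos e, if_pos (rfl : d = d)] at hd
    omega
  rw [if_neg h1, if_pos rfl] at ha
  rw [if_neg h2, if_pos (rfl : b = b)] at hb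
  rw [if_neg h3, if_pos (rfl : c = c)] at hc
  rw [if_neg h4, if_pos (rfl : d = d)] at hd
  refine ⟨⟨h1, h2, h3, h4⟩, ?_, ?_⟩
  · by_cases hac : a = c
    · subst hac
      rw [if_pos (rfl : a = a)] at ha
      have hba : b ≠ a := by
        intro e
        rw [if_pos e] at ha
        omega
      have hda : d ≠ a := by
        intro e
        rw [if_pos e] at ha
        omega
      rw [if_neg hba.symm] at hb
      have hdb : d = b := by
        by_contra e
        rw [if_neg e] at hb
        omega
      simp [hdb]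
    · have hbd : b ≠ d := by
        intro e
        subst e
        rw [if_pos (rfl : b = b)] at hb
        have hab : a ≠ b := by
          intro e
          rw [if_pos e] at hb
          omega
        have hcb : c ≠ b := by
          intro e
          rw [if_pos e] at hb
          omega
        rw [if_neg hab.symm, if_neg (Ne.symm hac)] at ha
        omega
      simp [hac, hbd]
  · intro hac e
    rw [if_pos e, if_pos hac.symm] at ha
    omega

/-- the transposition pattern -/
def tau : Fin 4 → Fin 4 := ![1, 0, 3, 2]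

theorem tau_tau (s : Fin 4) : tau (tau s) = s := by
  fin_cases s <;> rfl

variable {V : Type*} [Fintype V] (H : Pole V)

/-- the properties of a quadruple -/
structure Q4 (X : V → V) (σ : Fin 4 → Finset (Fin 5)) (Q : Fin 4 → V → V) : Prop where
  one : ∀ s, H.OneF (Q s)
  bd : ∀ s, H.bd (Q s) = σ s
  cnt : ∀ u, H.I u → ∀ w, H.G.Adj u w →
      (if Q 0 u = w then 1 else 0) + (if Q 1 u = w then 1 else 0) + (if Q 2 u = w then 1 else 0) +
        (if Q 3 u = w then 1 else 0) = if w = X u then 0 else 2

variable {H} {X : V → V} {σ : Fin 4 → Finset (Fin 5)} {Q : Fin 4 → V → V}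

theorem Q4.loc (h : Q4 H X σ Q) {u : V} (hu : H.I u) :
    (∀ s, Q s u ≠ X u) ∧ (Q 0 u = Q 2 u ↔ Q 1 u = Q 3 u) ∧ (Q 0 u = Q 2 u → Q 1 u ≠ Q 0 u) := by
  have h1 := T14.loc (a := Q 0 u) (b := Q 1 u) (c := Q 2 u) (d := Q 3 u) (X := X u) (by
    intro w hw
    refine h.cnt u hu w ?_
    rcases hw with rfl | rfl | rfl | rfl
    · exact (((h.one 0).2 u hu).1)
    · exact (((h.one 1).2 u hu).1)
    · exact (((h.one 2).2 u hu).1)
    · exact (((h.one 3).2 u hu).1))
  refine ⟨?_, h1.2⟩
  intro s
  fin_cases s
  · exact h1.1.1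
  · exact h1.1.2.1
  · exact h1.1.2.2.1
  · exact h1.1.2.2.2

/-- the set where the first and the third agree -/
def U (H : Pole V) (Q : Fin 4 → V → V) (u : V) : Prop := H.I u ∧ Q 0 u = Q 2 u

/-- the involution -/
noncomputable def phi (H : Pole V) (Q : Fin 4 → V → V) : Fin 4 → V → V :=
  fun s u => if U H Q u then Q (tau s) u else Q s u

theorem U_closed (hX : H.OneF X) (h : Q4 H X σ Q) {u w : V} (hu : U H Q u) (hw : H.I w)
    {s : Fin 4} (hs : Q s u = w) : U H Q w := by
  refine ⟨hw, ?_⟩
  obtain ⟨hui, huq⟩ := hu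
  have hloc := h.loc hui
  have hinv : ∀ s, Q s u = w → Q s w = u := by
    intro s hs
    have := ((h.one s).2 u hui).2
    rw [hs] at this
    exact this hw
  have h13 : Q 1 u = Q 3 u := hloc.2.1.1 huq
  fin_cases s
  · have e0 : Q 0 u = w := hs
    have e2 : Q 2 u = w := by rw [← huq]; exact e0
    rw [hinv 0 e0, hinv 2 e2]
  · have e1 : Q 1 u = w := hs
    have e3 : Q 3 u = w := by rw [← h13]; exact e1
    exact (h.loc hw).2.1.2 (by rw [hinv 1 e1, hinv 3 e3])
  · have e2 : Q 2 u = w := hs
    have e0 : Q 0 u = w := by rw [huq]; exact e2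
    rw [hinv 0 e0, hinv 2 e2]
  · have e3 : Q 3 u = w := hs
    have e1 : Q 1 u = w := by rw [h13]; exact e3
    exact (h.loc hw).2.1.2 (by rw [hinv 1 e1, hinv 3 e3])

theorem U_iff (hX : H.OneF X) (h : Q4 H X σ Q) {u w : V} (hu : H.I u) (hw : H.I w)
    {s : Fin 4} (hs : Q s u = w) : U H Q u ↔ U H Q w := by
  constructor
  · intro h1
    exact U_closed hX h h1 hw hs
  · intro h1
    have h2 : Q s w = u := by
      have := ((h.one s).2 u hu).2
      rw [hs] at this
      exact this hw
    exact U_closed hX h h1 hu h2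

theorem U_phi (h : Q4 H X σ Q) (u : V) : U H (phi H Q) u ↔ U H Q u := by
  unfold U phi
  constructor
  · rintro ⟨h1, h2⟩
    refine ⟨h1, ?_⟩
    by_contra h3
    have h4 : ¬ U H Q u := fun h5 => h3 h5.2
    simp only [if_neg h4] at h2
    exact h3 h2
  · rintro ⟨h1, h2⟩
    refine ⟨h1, ?_⟩
    have h4 : U H Q u := ⟨h1, h2⟩
    simp only [if_pos h4]
    show Q 1 u = Q 3 u
    exact (h.loc h1).2.1.1 h2

theorem phi_phi (h : Q4 H X σ Q) : phi H (phi H Q) = Q := by
  funext s u
  show (if U H (phi H Q) u then phi H Q (tau s) u else phi H Q s u) = Q s u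
  simp only [U_phi h]
  by_cases hu : U H Q u
  · rw [if_pos hu]
    show (if U H Q u then Q (tau (tau s)) u else Q (tau s) u) = Q s u
    rw [if_pos hu, tau_tau]
  · rw [if_neg hu]
    show (if U H Q u then Q (tau s) u else Q s u) = Q s u
    rw [if_neg hu]

theorem phi_mem (hX : H.OneF X) {σ0 σ2 : Finset (Fin 5)}
    (h0 : Disjoint σ0 (H.bd X)) (h2 : Disjoint σ2 (H.bd X))
    (h : Q4 H X ![σ0, σ2, univ \ (H.bd X ∪ σ0), univ \ (H.bd X ∪ σ2)] Q) :
    Q4 H X ![σ0, σ2, univ \ (H.bd X ∪ σ0), univ \ (H.bd X ∪ σ2)] (phi H Q) := by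
  refine ⟨?_, ?_, ?_⟩
  · intro s
    refine ⟨?_, ?_⟩
    · intro u hu
      have h3 : ¬ U H Q u := fun h4 => hu h4.1
      show (if U H Q u then Q (tau s) u else Q s u) = u
      rw [if_neg h3]
      exact (h.one s).1 u hu
    · intro u hu
      show H.G.Adj u (if U H Q u then Q (tau s) u else Q s u) ∧
        (H.I (if U H Q u then Q (tau s) u else Q s u) →
          (if U H Q (if U H Q u then Q (tau s) u else Q s u)
            then Q (tau s) (if U H Q u then Q (tau s) u else Q s u)
            else Q s (if U H Q u then Q (tau s) u else Q s u)) = u)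
      by_cases hU : U H Q u
      · simp only [if_pos hU]
        refine ⟨((h.one (tau s)).2 u hu).1, fun hw => ?_⟩
        rw [if_pos ((U_iff hX h hu hw rfl).1 hU)]
        exact ((h.one (tau s)).2 u hu).2 hw
      · simp only [if_neg hU]
        refine ⟨((h.one s).2 u hu).1, fun hw => ?_⟩
        rw [if_neg fun h5 => hU ((U_iff hX h hu hw rfl).2 h5)]
        exact ((h.one s).2 u hu).2 hw
  · intro s
    rw [← h.bd s]
    ext t
    unfold Pole.bd
    simp only [mem_filter, mem_univ, true_and]
    show (if U H Q (H.e t) then Q (tau s) (H.e t) else Q s (H.e t)) = H.z t ↔ _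
    by_cases hU : U H Q (H.e t)
    · rw [if_pos hU]
      have hI : H.I (H.e t) := hU.1
      by_cases htX : t ∈ H.bd X
      · have hx : X (H.e t) = H.z t := by
          unfold Pole.bd at htX
          simpa using htX
        have hn := (h.loc hI).1
        rw [← hx]
        exact iff_of_false (hn _) (hn _)
      · exfalso
        have hm0 : t ∈ H.bd (Q 0) ↔ t ∈ σ0 := by rw [h.bd 0]; rfl
        have hm2 : t ∈ H.bd (Q 2) ↔ t ∈ univ \ (H.bd X ∪ σ0) := by rw [h.bd 2]; rfl
        have hm : t ∈ H.bd (Q 0) ↔ t ∈ H.bd (Q 2) := by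
          unfold Pole.bd
          simp only [mem_filter, mem_univ, true_and]
          rw [hU.2]
        rw [hm0, hm2] at hm
        simp only [mem_sdiff, mem_univ, true_and, mem_union, not_or] at hm
        by_cases ht : t ∈ σ0
        · exact (hm.1 ht).2 ht
        · exact ht (hm.2 ⟨htX, ht⟩)
    · rw [if_neg hU]
  · intro u hu w hw
    rw [← h.cnt u hu w hw]
    by_cases hU : U H Q u
    · have e0 : phi H Q 0 u = Q 1 u := if_pos hU
      have e1 : phi H Q 1 u = Q 0 u := if_pos hU
      have e2 : phi H Q 2 u = Q 3 u := if_pos hU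
      have e3 : phi H Q 3 u = Q 2 u := if_pos hU
      rw [e0, e1, e2, e3]
      ring
    · have e : ∀ s, phi H Q s u = Q s u := fun s => if_neg hU
      rw [e, e, e, e]

theorem phi_fix (h : Q4 H X σ Q) : phi H Q = Q ↔ ∀ u, ¬ U H Q u := by
  constructor
  · intro h1 u hu
    have h2 : phi H Q 0 u = Q 1 u := if_pos hu
    rw [h1] at h2
    exact ((h.loc hu.1).2.2 hu.2) h2.symm
  · intro h1
    funext s u
    exact if_neg (h1 u)

end T14

variable {V : Type*} [Fintype V] (H : Pole V)

open T14 in
/-- T14 -/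
theorem d4_parity {X : V → V} (hX : H.OneF X) {σ0 σ2 : Finset (Fin 5)}
    (h0 : Disjoint σ0 (H.bd X)) (h2 : Disjoint σ2 (H.bd X)) :
    H.D4 X ![σ0, σ2, univ \ (H.bd X ∪ σ0), univ \ (H.bd X ∪ σ2)] % 2 =
      ((H.S X σ0).card * (H.S X σ2).card) % 2 := by
  have key : ∀ D : Finset (Fin 4 → V → V),
      (∀ Q, Q ∈ D ↔ Q4 H X ![σ0, σ2, univ \ (H.bd X ∪ σ0), univ \ (H.bd X ∪ σ2)] Q) →
      D.card % 2 = ((H.S X σ0).card * (H.S X σ2).card) % 2 := by
    intro D hD
    have hpart : D.card = (D.filter (fun Q => phi H Q = Q)).card +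
        (D.filter (fun Q => ¬ phi H Q = Q)).card :=
      (Finset.card_filter_add_card_filter_not (s := D) (fun Q => phi H Q = Q)).symm
    have heven : ((D.filter (fun Q => ¬ phi H Q = Q)).card : ZMod 2) = 0 := by
      have h3 : ∑ _Q ∈ D.filter (fun Q => ¬ phi H Q = Q), (1 : ZMod 2) = 0 := by
        refine Finset.sum_involution (fun Q _ => phi H Q) ?_ ?_ ?_ ?_
        · intro Q _
          decide
        · intro Q hQ _
          exact (mem_filter.1 hQ).2
        · intro Q hQ
          obtain ⟨hQ1, hQ2⟩ := mem_filter.1 hQ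
          have hQ3 := (hD Q).1 hQ1
          refine mem_filter.2 ⟨(hD _).2 (phi_mem hX h0 h2 hQ3), ?_⟩
          rw [phi_phi hQ3]
          exact fun h4 => hQ2 h4.symm
        · intro Q hQ
          exact phi_phi ((hD Q).1 (mem_filter.1 hQ).1)
      rw [Finset.sum_const, nsmul_eq_mul, mul_one] at h3
      exact h3
    have heven' : (D.filter (fun Q => ¬ phi H Q = Q)).card % 2 = 0 := by
      rw [ZMod.natCast_eq_zero_iff] at heven
      exact Nat.mod_eq_zero_of_dvd heven
    have hfix : (D.filter (fun Q => phi H Q = Q)).card = (H.S X σ0 ×ˢ H.S X σ2).card := by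
      refine Finset.card_nbij' (fun Q => (Q 0, Q 1)) (fun p => ![p.1, p.2, H.co X p.1, H.co X p.2])
        ?_ ?_ ?_ ?_
      · intro Q hQ
        obtain ⟨hQ1, hQ2⟩ := mem_filter.1 (mem_coe.1 hQ)
        have hQ3 := (hD Q).1 hQ1
        rw [mem_coe, mem_product]
        constructor
        · show Q 0 ∈ H.S X σ0
          unfold Pole.S
          rw [mem_filter]
          exact ⟨mem_univ _, hQ3.one 0, hQ3.bd 0, fun u hu => (hQ3.loc hu).1 0⟩
        · show Q 1 ∈ H.S X σ2
          unfold Pole.S
          rw [mem_filter]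
          exact ⟨mem_univ _, hQ3.one 1, hQ3.bd 1, fun u hu => (hQ3.loc hu).1 1⟩
      · rintro ⟨a, b⟩ hab
        rw [mem_coe, mem_product] at hab
        obtain ⟨ha, hb⟩ := hab
        have ha0 : a ∈ H.S X σ0 := ha
        have hb0 : b ∈ H.S X σ2 := hb
        have hca := (co_mem H hX ha0).1
        have hcb := (co_mem H hX hb0).1
        have ha' := ha0
        have hb' := hb0
        have hca' := hca
        have hcb' := hcb
        unfold Pole.S at ha' hb' hca' hcb'
        rw [mem_filter] at ha' hb' hca' hcb'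
        obtain ⟨-, ha1, ha2, ha3⟩ := ha'
        obtain ⟨-, hb1, hb2, hb3⟩ := hb'
        obtain ⟨-, hca1, hca2, hca3⟩ := hca'
        obtain ⟨-, hcb1, hcb2, hcb3⟩ := hcb'
        have hQ4 : Q4 H X ![σ0, σ2, univ \ (H.bd X ∪ σ0), univ \ (H.bd X ∪ σ2)]
            ![a, b, H.co X a, H.co X b] := by
          refine ⟨?_, ?_, ?_⟩
          · intro s
            fin_cases s
            · exact ha1
            · exact hb1
            · exact hca1
            · exact hcb1
          · intro s
            fin_cases s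
            · exact ha2
            · exact hb2
            · exact hca2
            · exact hcb2
          · intro u hu w hw
            show (if a u = w then 1 else 0) + (if b u = w then 1 else 0) +
              (if H.co X a u = w then 1 else 0) + (if H.co X b u = w then 1 else 0) =
              if w = X u then 0 else 2
            obtain ⟨-, hs2, hs3, hs4⟩ := co_spec H hX ha1 ha3 hu
            obtain ⟨-, ht2, ht3, ht4⟩ := co_spec H hX hb1 hb3 hu
            by_cases hwX : w = X u
            · rw [if_pos hwX, hwX, if_neg (ha3 u hu), if_neg (hb3 u hu), if_neg hs2, if_neg ht2]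
            · rw [if_neg hwX]
              have h5 : (if a u = w then 1 else 0) + (if H.co X a u = w then 1 else 0) = 1 := by
                rcases ((hs4 w).1 hw).resolve_left hwX with h6 | h6
                · rw [h6, if_pos rfl, if_neg hs3]
                · rw [h6, if_pos rfl, if_neg hs3.symm]
              have h7 : (if b u = w then 1 else 0) + (if H.co X b u = w then 1 else 0) = 1 := by
                rcases ((ht4 w).1 hw).resolve_left hwX with h6 | h6
                · rw [h6, if_pos rfl, if_neg ht3]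
                · rw [h6, if_pos rfl, if_neg ht3.symm]
              omega
        rw [mem_coe, mem_filter]
        refine ⟨(hD _).2 hQ4, (phi_fix hQ4).2 ?_⟩
        intro u hu
        exact (co_spec H hX ha1 ha3 hu.1).2.2.1 hu.2.symm
      · intro Q hQ
        obtain ⟨hQ1, hQ2⟩ := mem_filter.1 (mem_coe.1 hQ)
        have hQ3 := (hD Q).1 hQ1
        have hQ5 := (phi_fix hQ3).1 hQ2
        have hc : ∀ a c : V → V, H.OneF a → H.OneF c → (∀ u, H.I u → a u ≠ X u) →
            (∀ u, H.I u → c u ≠ X u) → (∀ u, H.I u → a u ≠ c u) → H.co X a = c := by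
          intro a c ha hc ha' hc' hac
          funext u
          by_cases hu : H.I u
          · obtain ⟨-, hs2, hs3, hs4⟩ := co_spec H hX ha ha' hu
            rcases (hs4 (c u)).1 (hc.2 u hu).1 with h6 | h6 | h6
            · exact absurd h6 (hc' u hu)
            · exact absurd h6.symm (hac u hu)
            · exact h6.symm
          · have h7 : H.co X a u = u := by
              unfold Pole.co
              rw [dif_neg]
              rintro ⟨w, hw, -⟩
              exact hu hw
            rw [h7, hc.1 u hu]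
        have e2 : H.co X (Q 0) = Q 2 := hc _ _ (hQ3.one 0) (hQ3.one 2)
          (fun u hu => (hQ3.loc hu).1 0) (fun u hu => (hQ3.loc hu).1 2)
          (fun u hu h8 => hQ5 u ⟨hu, h8⟩)
        have e3 : H.co X (Q 1) = Q 3 := hc _ _ (hQ3.one 1) (hQ3.one 3)
          (fun u hu => (hQ3.loc hu).1 1) (fun u hu => (hQ3.loc hu).1 3)
          (fun u hu h8 => hQ5 u ⟨hu, (hQ3.loc hu).2.1.2 h8⟩)
        funext s
        fin_cases s
        · rfl
        · rfl
        · exact e2
        · exact e3
      · rintro ⟨a, b⟩ _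
        rfl
    rw [hpart, hfix, Finset.card_product]
    omega
  unfold Pole.D4
  apply key
  intro Q
  rw [mem_filter]
  have hcard : ∀ (u w : V), (univ.filter (fun s => Q s u = w)).card =
      (if Q 0 u = w then 1 else 0) + (if Q 1 u = w then 1 else 0) + (if Q 2 u = w then 1 else 0) +
        (if Q 3 u = w then 1 else 0) := by
    intro u w
    rw [Finset.card_filter, Fin.sum_univ_four]
  constructor
  · rintro ⟨-, h3, h4, h5⟩
    refine ⟨h3, h4, fun u hu w hw => ?_⟩
    rw [← hcard]
    exact h5 u hu w hw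
  · intro h3
    refine ⟨mem_univ _, h3.one, h3.bd, fun u hu w hw => ?_⟩
    rw [hcard]
    exact h3.cnt u hu w hw

end Pool.Agent.H416R3.BP
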