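import Pool.Agent.H416R3.BP.Defs
import Pool.Agent.H416R3.BP.T04

set_option autoImplicit false

namespace Pool.Agent.H416R3.BP

open Finset Classical

namespace T13

/-- the extended matching -/
noncomputable def ex {V : Type*} (H : Pole V) (b : Finset (Fin 5)) (p : V → V) (u : V) : V :=
  if u = H.x then (if 0 ∈ b then H.e 0 else if 1 ∈ b then H.e 1 else H.v)
  else if u = H.v then (if 2 ∈ b then H.e 2 else if 0 ∈ b ∨ 1 ∈ b then H.y else H.x)
  else if u = H.y then (if 3 ∈ b then H.e 3 else if 4 ∈ b then H.e 4 else H.v)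
  else p u

variable {V : Type*} (H : Pole V)

theorem ex_x (b : Finset (Fin 5)) (p : V → V) :
    ex H b p H.x = if 0 ∈ b then H.e 0 else if 1 ∈ b then H.e 1 else H.v := by
  rw [ex, if_pos rfl]

theorem ex_v (b : Finset (Fin 5)) (p : V → V) :
    ex H b p H.v = if 2 ∈ b then H.e 2 else if 0 ∈ b ∨ 1 ∈ b then H.y else H.x := by
  rw [ex, if_neg H.hxv.symm, if_pos rfl]

theorem ex_y (b : Finset (Fin 5)) (p : V → V) :
    ex H b p H.y = if 3 ∈ b then H.e 3 else if 4 ∈ b then H.e 4 else H.v := by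
  rw [ex, if_neg H.hxy.symm, if_neg H.hyv, if_pos rfl]

theorem ex_i (b : Finset (Fin 5)) (p : V → V) {u : V} (hu : H.I u) : ex H b p u = p u := by
  rw [ex, if_neg hu.1, if_neg hu.2.1, if_neg hu.2.2]

theorem eI (t : Fin 5) : H.I (H.e t) := ⟨H.hex t, H.hev t, H.hey t⟩

theorem ex_adj {b : Finset (Fin 5)} {p : V → V} (hp : H.OneF p) (u : V) :
    H.G.Adj u (ex H b p u) := by
  by_cases hx : u = H.x
  · subst hx
    rw [ex_x, H.adjx]
    split_ifs <;> simp
  by_cases hv : u = H.v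
  · subst hv
    rw [ex_v, H.adjv]
    split_ifs <;> simp
  by_cases hy : u = H.y
  · subst hy
    rw [ex_y, H.adjy]
    split_ifs <;> simp
  have hu : H.I u := ⟨hx, hv, hy⟩
  rw [ex_i H b p hu]
  exact (hp.2 u hu).1

theorem ex_inv {b : Finset (Fin 5)} {p : V → V} (hp : H.OneF p)
    (hb : ∀ t, t ∈ b ↔ p (H.e t) = H.z t)
    (h1 : ¬ (0 ∈ b ∧ 1 ∈ b)) (h2 : ¬ (3 ∈ b ∧ 4 ∈ b))
    (h3 : (2 ∈ b ∧ (0 ∈ b ∨ 1 ∈ b) ∧ (3 ∈ b ∨ 4 ∈ b)) ∨
     (2 ∉ b ∧ (0 ∉ b ∧ 1 ∉ b) ∧ (3 ∈ b ∨ 4 ∈ b)) ∨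
     (2 ∉ b ∧ (0 ∈ b ∨ 1 ∈ b) ∧ (3 ∉ b ∧ 4 ∉ b))) (u : V) :
    ex H b p (ex H b p u) = u := by
  have z0 : H.z 0 = H.x := rfl
  have z1 : H.z 1 = H.x := rfl
  have z2 : H.z 2 = H.v := rfl
  have z3 : H.z 3 = H.y := rfl
  have z4 : H.z 4 = H.y := rfl
  by_cases hx : u = H.x
  · subst hx
    rw [ex_x]
    by_cases h0 : (0 : Fin 5) ∈ b
    · rw [if_pos h0, ex_i H b p (eI H 0), (hb 0).1 h0, z0]
    · rw [if_neg h0]
      by_cases h1' : (1 : Fin 5) ∈ b
      · rw [if_pos h1', ex_i H b p (eI H 1), (hb 1).1 h1', z1]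
      · rw [if_neg h1', ex_v, if_neg (by tauto), if_neg (by tauto)]
  by_cases hv : u = H.v
  · subst hv
    rw [ex_v]
    by_cases h2' : (2 : Fin 5) ∈ b
    · rw [if_pos h2', ex_i H b p (eI H 2), (hb 2).1 h2', z2]
    · rw [if_neg h2']
      by_cases h01 : (0 : Fin 5) ∈ b ∨ (1 : Fin 5) ∈ b
      · rw [if_pos h01, ex_y, if_neg (by tauto), if_neg (by tauto)]
      · rw [if_neg h01, ex_x, if_neg (by tauto), if_neg (by tauto)]
  by_cases hy : u = H.y
  · subst hy
    rw [ex_y]
    by_cases h3' : (3 : Fin 5) ∈ b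
    · rw [if_pos h3', ex_i H b p (eI H 3), (hb 3).1 h3', z3]
    · rw [if_neg h3']
      by_cases h4' : (4 : Fin 5) ∈ b
      · rw [if_pos h4', ex_i H b p (eI H 4), (hb 4).1 h4', z4]
      · rw [if_neg h4', ex_v, if_neg (by tauto), if_pos (by tauto)]
  have hu : H.I u := ⟨hx, hv, hy⟩
  obtain ⟨ha, hi⟩ := hp.2 u hu
  rw [ex_i H b p hu]
  by_cases hx' : p u = H.x
  · rw [hx', ex_x]
    rw [hx'] at ha
    rcases (H.adjx u).1 ha.symm with h | h | h
    · exact absurd h hv
    · subst h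
      rw [if_pos ((hb 0).2 (by rw [hx', z0]))]
    · subst h
      have h1' : (1 : Fin 5) ∈ b := (hb 1).2 (by rw [hx', z1])
      rw [if_neg (by tauto), if_pos h1']
  by_cases hv' : p u = H.v
  · rw [hv', ex_v]
    rw [hv'] at ha
    rcases (H.adjv u).1 ha.symm with h | h | h
    · exact absurd h hx
    · exact absurd h hy
    · subst h
      rw [if_pos ((hb 2).2 (by rw [hv', z2]))]
  by_cases hy' : p u = H.y
  · rw [hy', ex_y]
    rw [hy'] at ha
    rcases (H.adjy u).1 ha.symm with h | h | h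
    · exact absurd h hv
    · subst h
      rw [if_pos ((hb 3).2 (by rw [hy', z3]))]
    · subst h
      have h4' : (4 : Fin 5) ∈ b := (hb 4).2 (by rw [hy', z4])
      rw [if_neg (by tauto), if_pos h4']
  rw [ex_i H b p ⟨hx', hv', hy'⟩]
  exact hi ⟨hx', hv', hy'⟩

/-- counting the three neighbours -/
theorem three {m : Fin 6 → V → V} {u a c d : V} (hac : a ≠ c) (had : a ≠ d) (hcd : c ≠ d)
    (h : ∀ s, m s u = a ∨ m s u = c ∨ m s u = d)
    (hc : (univ.filter (fun s => m s u = c)).card = 2)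
    (hd : (univ.filter (fun s => m s u = d)).card = 2) :
    (univ.filter (fun s => m s u = a)).card = 2 := by
  have h1 : (univ : Finset (Fin 6)) = univ.filter (fun s => m s u = a) ∪
      (univ.filter (fun s => m s u = c) ∪ univ.filter (fun s => m s u = d)) := by
    ext s
    simp only [mem_univ, mem_union, mem_filter, true_and, true_iff]
    exact h s
  have h2 := congrArg Finset.card h1
  rw [card_univ, Fintype.card_fin, card_union_of_disjoint, card_union_of_disjoint, hc, hd] at h2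
  · omega
  · rw [Finset.disjoint_left]
    intro s hs hs'
    simp only [mem_filter, mem_univ, true_and] at hs hs'
    exact hcd (hs.symm.trans hs')
  · rw [Finset.disjoint_left]
    intro s hs hs'
    simp only [mem_filter, mem_univ, true_and, mem_union] at hs hs'
    rcases hs' with hs' | hs'
    · exact hac (hs.symm.trans hs')
    · exact had (hs.symm.trans hs')

end T13

variable {V : Type*} [Fintype V] (H : Pole V)

open T13 in
/-- T13 -/
theorem ext_bf {β : Fin 6 → Finset (Fin 5)} (hg : Good β) (hne : (H.Tup β).Nonempty) :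
    HasBF H.G := by
  obtain ⟨P, hP⟩ := hne
  rw [Pole.Tup, mem_filter] at hP
  obtain ⟨-, h1, h2, h3⟩ := hP
  have hz : ∀ s t, t ∈ β s ↔ P s (H.e t) = H.z t := by
    intro s t
    rw [← h2 s, Pole.bd, mem_filter]
    simp
  have hadj : ∀ s u, H.G.Adj u (ex H (β s) (P s) u) := fun s u => ex_adj H (h1 s) u
  have hinv : ∀ s u, ex H (β s) (P s) (ex H (β s) (P s) u) = u := fun s u =>
    ex_inv H (h1 s) (hz s) (hg s).1 (hg s).2.1 (hg s).2.2 u
  refine bf_of_fun H.G (fun s => ex H (β s) (P s)) (fun s u => ⟨hadj s u, hinv s u⟩) ?_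
  -- symmetry of the counts
  have hsym : ∀ u w, (univ.filter (fun s => ex H (β s) (P s) u = w)) =
      (univ.filter (fun s => ex H (β s) (P s) w = u)) := by
    intro u w
    ext s
    simp only [mem_filter, mem_univ, true_and]
    constructor
    · intro h
      rw [← h, hinv]
    · intro h
      rw [← h, hinv]
  have hin : ∀ u w, H.I u → H.G.Adj u w →
      (univ.filter (fun s => ex H (β s) (P s) u = w)).card = 2 := by
    intro u w hu hw
    rw [← h3 u hu w hw]
    congr 1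
    ext s
    simp only [mem_filter, mem_univ, true_and]
    rw [ex_i H _ _ hu]
  have hin' : ∀ u w, H.I w → H.G.Adj u w →
      (univ.filter (fun s => ex H (β s) (P s) u = w)).card = 2 := by
    intro u w hw ha
    rw [hsym]
    exact hin w u hw ha.symm
  have hxv : (univ.filter (fun s => ex H (β s) (P s) H.x = H.v)).card = 2 := by
    refine three (m := fun s => ex H (β s) (P s)) (c := H.e 0) (d := H.e 1)
      (H.hev 0).symm (H.hev 1).symm H.he01 (fun s => (H.adjx _).1 (hadj s H.x)) ?_ ?_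
    · exact hin' H.x (H.e 0) (eI H 0) ((H.adjx _).2 (Or.inr (Or.inl rfl)))
    · exact hin' H.x (H.e 1) (eI H 1) ((H.adjx _).2 (Or.inr (Or.inr rfl)))
  have hyv : (univ.filter (fun s => ex H (β s) (P s) H.y = H.v)).card = 2 := by
    refine three (m := fun s => ex H (β s) (P s)) (c := H.e 3) (d := H.e 4)
      (H.hev 3).symm (H.hev 4).symm H.he34 (fun s => (H.adjy _).1 (hadj s H.y)) ?_ ?_
    · exact hin' H.y (H.e 3) (eI H 3) ((H.adjy _).2 (Or.inr (Or.inl rfl)))
    · exact hin' H.y (H.e 4) (eI H 4) ((H.adjy _).2 (Or.inr (Or.inr rfl)))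
  intro u w hw
  by_cases hu : H.I u
  · exact hin u w hu hw
  by_cases hw' : H.I w
  · exact hin' u w hw' hw
  by_cases hx : u = H.x
  · subst hx
    rcases (H.adjx w).1 hw with h | h | h
    · subst h; exact hxv
    · subst h; exact absurd (eI H 0) hw'
    · subst h; exact absurd (eI H 1) hw'
  by_cases hy : u = H.y
  · subst hy
    rcases (H.adjy w).1 hw with h | h | h
    · subst h; exact hyv
    · subst h; exact absurd (eI H 3) hw'
    · subst h; exact absurd (eI H 4) hw'
  by_cases hv : u = H.v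
  · subst hv
    rcases (H.adjv w).1 hw with h | h | h
    · subst h; rw [hsym]; exact hxv
    · subst h; rw [hsym]; exact hyv
    · subst h; exact absurd (eI H 2) hw'
  exact absurd ⟨hx, hv, hy⟩ hu

end Pool.Agent.H416R3.BP
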