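import Pool.Agent.H416R3.BP.Defs
import Pool.Agent.H416R3.BP.T02
import Pool.Agent.H416R3.BP.T05
import Pool.Agent.H416R3.BP.T06
import Pool.Agent.H416R3.BP.T07
import Pool.Agent.H416R3.BP.T13

set_option autoImplicit false

namespace Pool.Agent.H416R3.BP

open Finset Classical

namespace T15

section basic

variable {V : Type*} (H : Pole V)

theorem inner_e (t : Fin 5) : H.I (H.e t) := ⟨H.hex t, H.hev t, H.hey t⟩

theorem not_inner_z (t : Fin 5) : ¬ H.I (H.z t) := by
  intro h
  fin_cases t
  · exact h.1 rfl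
  · exact h.1 rfl
  · exact h.2.1 rfl
  · exact h.2.2 rfl
  · exact h.2.2 rfl

theorem adj_ez (t : Fin 5) : H.G.Adj (H.e t) (H.z t) := by
  apply SimpleGraph.Adj.symm
  fin_cases t
  · exact (H.adjx _).2 (Or.inr (Or.inl rfl))
  · exact (H.adjx _).2 (Or.inr (Or.inr rfl))
  · exact (H.adjv _).2 (Or.inr (Or.inr rfl))
  · exact (H.adjy _).2 (Or.inr (Or.inl rfl))
  · exact (H.adjy _).2 (Or.inr (Or.inr rfl))

theorem leaf_of {u w : V} (hu : H.I u) (hw : ¬ H.I w) (h : H.G.Adj u w) :
    ∃ t, H.e t = u ∧ H.z t = w := by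
  have hc : w = H.x ∨ w = H.v ∨ w = H.y := by
    by_contra hc
    rw [not_or, not_or] at hc
    exact hw hc
  rcases hc with rfl | rfl | rfl
  · rcases (H.adjx u).1 h.symm with h1 | h1 | h1
    · exact absurd h1 hu.2.1
    · exact ⟨0, h1.symm, rfl⟩
    · exact ⟨1, h1.symm, rfl⟩
  · rcases (H.adjv u).1 h.symm with h1 | h1 | h1
    · exact absurd h1 hu.1
    · exact absurd h1 hu.2.2
    · exact ⟨2, h1.symm, rfl⟩
  · rcases (H.adjy u).1 h.symm with h1 | h1 | h1
    · exact absurd h1 hu.2.1
    · exact ⟨3, h1.symm, rfl⟩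
    · exact ⟨4, h1.symm, rfl⟩

theorem ez_inj {t t' : Fin 5} (h1 : H.e t = H.e t') (h2 : H.z t = H.z t') : t = t' := by
  have a1 := H.hxv
  have a2 := H.hyv
  have a3 := H.hxy
  have a4 := H.he01
  have a5 := H.he34
  fin_cases t <;> fin_cases t' <;>
    first
    | rfl
    | exact absurd h2 a1
    | exact absurd h2 a2
    | exact absurd h2 a3
    | exact absurd h2 a1.symm
    | exact absurd h2 a2.symm
    | exact absurd h2 a3.symm
    | exact absurd h1 a4
    | exact absurd h1 a5
    | exact absurd h1 a4.symm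
    | exact absurd h1 a5.symm

theorem mem_bd (p : V → V) (t : Fin 5) : t ∈ H.bd p ↔ p (H.e t) = H.z t := by
  unfold Pole.bd
  rw [Finset.mem_filter]
  exact ⟨fun h => h.2, fun h => ⟨Finset.mem_univ _, h⟩⟩

/-- symmetry of not being an edge of `X` -/
theorem nx_symm {X : V → V} (hX : H.OneF X) {u w : V} (hu : H.I u) (hw : H.I w) (h : w ≠ X u) :
    X w ≠ u := by
  intro h1
  apply h
  have h2 := (hX.2 w hw).2 (by rw [h1]; exact hu)
  rw [h1] at h2
  exact h2.symm

theorem nbr_count {X : V → V} (hX : H.OneF X) (hbd : H.bd X = {1}) {u : V} (hu : H.I u) :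
    ((H.FI X).neighborSet u).ncard +
      (({0, 2, 3, 4} : Finset (Fin 5)).filter (fun t => H.e t = u)).card = 2 := by
  set T := ({0, 2, 3, 4} : Finset (Fin 5)).filter (fun t => H.e t = u) with hT
  have hfin : (H.G.neighborSet u).Finite := Set.finite_of_ncard_ne_zero (by rw [H.deg3]; norm_num)
  have h3 : (H.G.neighborSet u \ {X u}).ncard = 2 := by
    rw [Set.ncard_sdiff_singleton_of_mem (show X u ∈ H.G.neighborSet u from (hX.2 u hu).1), H.deg3]
  have hnot : ∀ t ∈ T, t ≠ 1 := by
    intro t ht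
    rw [hT, Finset.mem_filter] at ht
    intro h
    rw [h] at ht
    simp at ht
  have hall : ∀ t : Fin 5, t ≠ 1 → t ∈ ({0, 2, 3, 4} : Finset (Fin 5)) := by decide
  have himg : H.z '' (↑T : Set (Fin 5)) = {w | w ∈ H.G.neighborSet u \ {X u} ∧ ¬ H.I w} := by
    ext w
    constructor
    · rintro ⟨t, ht, rfl⟩
      have ht' : t ∈ T := ht
      have hte : H.e t = u := by
        rw [hT, Finset.mem_filter] at ht'
        exact ht'.2
      refine ⟨⟨?_, ?_⟩, not_inner_z H t⟩
      · rw [← hte]
        exact adj_ez H t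
      · intro h
        have h1 : H.z t = X u := h
        have h2 : t ∈ H.bd X := (mem_bd H X t).2 (by rw [hte, h1])
        rw [hbd, Finset.mem_singleton] at h2
        exact hnot t ht h2
    · rintro ⟨⟨h1, h2⟩, h3⟩
      obtain ⟨t, ht1, ht2⟩ := leaf_of H hu h3 h1
      refine ⟨t, ?_, ht2⟩
      have ht : t ≠ 1 := by
        rintro rfl
        apply h2
        have h4 : (1 : Fin 5) ∈ H.bd X := by rw [hbd]; exact Finset.mem_singleton_self _
        have h5 := (mem_bd H X 1).1 h4
        rw [ht1, ht2] at h5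
        exact h5.symm
      exact Finset.mem_coe.2 (Finset.mem_filter.2 ⟨hall t ht, ht1⟩)
  have hFI : (H.FI X).neighborSet u = {w | w ∈ H.G.neighborSet u \ {X u} ∧ H.I w} := by
    ext w
    constructor
    · intro h
      have h' : (H.FI X).Adj u w := h
      obtain ⟨g1, g2, g3, g4⟩ := h'
      exact ⟨⟨g1, fun h => g3 (Set.mem_singleton_iff.1 h).symm⟩, g2.2⟩
    · rintro ⟨⟨g1, g2⟩, g3⟩
      have g2' : w ≠ X u := fun h => g2 h
      exact ⟨g1, ⟨hu, g3⟩, fun h => g2' h.symm, nx_symm H hX hu g3 g2'⟩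
  have hinj : Set.InjOn H.z (↑T : Set (Fin 5)) := by
    intro t ht t' ht' h
    have e1 : H.e t = u := (Finset.mem_filter.1 (Finset.mem_coe.1 ht)).2
    have e2 : H.e t' = u := (Finset.mem_filter.1 (Finset.mem_coe.1 ht')).2
    exact ez_inj H (e1.trans e2.symm) h
  have hc : (H.z '' (↑T : Set (Fin 5))).ncard = T.card := by
    rw [hinj.ncard_image, Set.ncard_coe_finset]
  have hd : Disjoint {w | w ∈ H.G.neighborSet u \ {X u} ∧ H.I w}
      {w | w ∈ H.G.neighborSet u \ {X u} ∧ ¬ H.I w} := by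
    rw [Set.disjoint_left]
    rintro w ⟨_, h1⟩ ⟨_, h2⟩
    exact h2 h1
  have hf : (H.G.neighborSet u \ {X u}).Finite := hfin.subset Set.sdiff_subset
  rw [← hc, himg, hFI, ← Set.ncard_union_eq hd (hf.subset fun w h => h.1)
    (hf.subset fun w h => h.1), ← h3]
  · congr 1
    ext w
    constructor
    · rintro (h | h)
      · exact h.1
      · exact h.1
    · intro h
      by_cases hw : H.I w
      · exact Or.inl ⟨h, hw⟩
      · exact Or.inr ⟨h, hw⟩

end basic

section main

variable {V : Type*} [Fintype V] (H : Pole V)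

theorem leaf {X : V → V} (hX : H.OneF X) (hbd : H.bd X = {1}) :
    ((({0, 2, 3, 4} : Finset (Fin 5))).filter
      (fun t => (H.FI X).Reachable (H.e 0) (H.e t))).card = 2 := by
  apply leaf_pair (H.FI X) H.e {0, 2, 3, 4} _ 0 (by simp)
  intro u
  by_cases hu : H.I u
  · exact Or.inl (nbr_count H hX hbd hu)
  · right
    constructor
    · rw [Set.ncard_eq_zero]
      ext w
      constructor
      · intro h
        have h' : (H.FI X).Adj u w := h
        exact absurd h'.2.1.1 hu
      · intro h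
        exact absurd h (Set.notMem_empty w)
    · rw [Finset.card_eq_zero, Finset.filter_eq_empty_iff]
      intro t _ ht
      exact hu (ht ▸ inner_e H t)

omit [Fintype V] in
/-- the component of `e 0` is closed -/
theorem closed {X : V → V} (hX : H.OneF X) (u w : V) (hu : H.I u) (hw : H.I w)
    (h : H.G.Adj u w) (hwX : w ≠ X u) (huC : u ∈ {u | (H.FI X).Reachable (H.e 0) u}) :
    w ∈ {u | (H.FI X).Reachable (H.e 0) u} := by
  have h1 : (H.FI X).Adj u w := ⟨h, ⟨hu, hw⟩, fun h => hwX h.symm, nx_symm H hX hu hw hwX⟩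
  have h2 : (H.FI X).Reachable (H.e 0) u := huC
  exact h2.trans h1.reachable

/-- the six functions `r, r, r', r', X, X` -/
theorem six {X r : V → V} (hX : H.OneF X) (hbd : H.bd X = {1}) {σ : Finset (Fin 5)}
    (hr : r ∈ H.S X σ)
    (hg : Good ![σ, σ, univ \ ({1} ∪ σ), univ \ ({1} ∪ σ), {1}, {1}]) : HasBF H.G := by
  have hr' := (co_mem H hX hr).1
  rw [hbd] at hr'
  have m1 : H.OneF r ∧ H.bd r = σ ∧ ∀ u, H.I u → r u ≠ X u := (Finset.mem_filter.1 hr).2
  have m2 : H.OneF (H.co X r) ∧ H.bd (H.co X r) = univ \ ({1} ∪ σ) ∧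
      ∀ u, H.I u → H.co X r u ≠ X u := (Finset.mem_filter.1 hr').2
  refine ext_bf H hg ⟨![r, r, H.co X r, H.co X r, X, X], ?_⟩
  refine Finset.mem_filter.2 ⟨Finset.mem_univ _, ?_, ?_, ?_⟩
  · intro s
    fin_cases s
    · exact m1.1
    · exact m1.1
    · exact m2.1
    · exact m2.1
    · exact hX
    · exact hX
  · intro s
    fin_cases s
    · exact m1.2.1
    · exact m1.2.1
    · exact m2.2.1
    · exact m2.2.1
    · exact hbd
    · exact hbd
  · intro u hu w hw
    obtain ⟨k1, k2, k3, k4⟩ := co_spec H hX m1.1 m1.2.2 hu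
    have k5 := m1.2.2 u hu
    have key : ∀ A : Finset (Fin 6), (∀ s, (![r, r, H.co X r, H.co X r, X, X] : Fin 6 → V → V) s u = w ↔ s ∈ A) →
        univ.filter (fun s => (![r, r, H.co X r, H.co X r, X, X] : Fin 6 → V → V) s u = w) = A := by
      intro A hA
      ext s
      rw [Finset.mem_filter]
      exact ⟨fun h => (hA s).1 h.2, fun h => ⟨Finset.mem_univ _, (hA s).2 h⟩⟩
    rcases (k4 w).1 hw with rfl | rfl | rfl
    · rw [key {4, 5}]
      · rfl
      · intro s
        fin_cases s
        · exact ⟨fun h => absurd h k5, fun h => absurd h (by decide)⟩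
        · exact ⟨fun h => absurd h k5, fun h => absurd h (by decide)⟩
        · exact ⟨fun h => absurd h k2, fun h => absurd h (by decide)⟩
        · exact ⟨fun h => absurd h k2, fun h => absurd h (by decide)⟩
        · exact ⟨fun _ => by decide, fun _ => rfl⟩
        · exact ⟨fun _ => by decide, fun _ => rfl⟩
    · rw [key {0, 1}]
      · rfl
      · intro s
        fin_cases s
        · exact ⟨fun _ => by decide, fun _ => rfl⟩
        · exact ⟨fun _ => by decide, fun _ => rfl⟩
        · exact ⟨fun h => absurd h k3, fun h => absurd h (by decide)⟩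
        · exact ⟨fun h => absurd h k3, fun h => absurd h (by decide)⟩
        · exact ⟨fun h => absurd h k5.symm, fun h => absurd h (by decide)⟩
        · exact ⟨fun h => absurd h k5.symm, fun h => absurd h (by decide)⟩
    · rw [key {2, 3}]
      · rfl
      · intro s
        fin_cases s
        · exact ⟨fun h => absurd h k3.symm, fun h => absurd h (by decide)⟩
        · exact ⟨fun h => absurd h k3.symm, fun h => absurd h (by decide)⟩
        · exact ⟨fun _ => by decide, fun _ => rfl⟩
        · exact ⟨fun _ => by decide, fun _ => rfl⟩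
        · exact ⟨fun h => absurd h k2.symm, fun h => absurd h (by decide)⟩
        · exact ⟨fun h => absurd h k2.symm, fun h => absurd h (by decide)⟩

end main

end T15

variable {V : Type*} [Fintype V] (H : Pole V)

open T15 in
/-- T15 -/
theorem s_prod (hB : ¬ HasBF H.G) {X : V → V} (hX : X ∈ H.F1 {1}) :
    ((H.S X {2, 3, 4}).card * (H.S X {0, 3, 4}).card) % 2 = (H.S X {2, 3, 4}).card % 2 := by
  obtain ⟨hX1, hbd⟩ : H.OneF X ∧ H.bd X = {1} := (Finset.mem_filter.1 hX).2
  set C : Set V := {u | (H.FI X).Reachable (H.e 0) u} with hC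
  have hcl := closed H hX1
  have hleaf := leaf H hX1 hbd
  have h0 : H.e 0 ∈ C := SimpleGraph.Reachable.refl _
  -- the partner of the leaf 0
  set P := (({0, 2, 3, 4} : Finset (Fin 5))).filter
      (fun t => (H.FI X).Reachable (H.e 0) (H.e t)) with hP
  have h0P : (0 : Fin 5) ∈ P := Finset.mem_filter.2 ⟨by simp, h0⟩
  have hmem : ∀ t : Fin 5, t ≠ 1 → (H.e t ∈ C ↔ t ∈ P) := by
    intro t ht
    have : t ∈ ({0, 2, 3, 4} : Finset (Fin 5)) := by
      revert t; decide
    exact ⟨fun h => Finset.mem_filter.2 ⟨this, h⟩, fun h => (Finset.mem_filter.1 h).2⟩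
  have hsub : P ⊆ {0, 2, 3, 4} := Finset.filter_subset _ _
  have hcase : P = {0, 2} ∨ P = {0, 3} ∨ P = {0, 4} := by
    have : ∀ P : Finset (Fin 5), P ⊆ {0, 2, 3, 4} → P.card = 2 → 0 ∈ P →
      P = {0, 2} ∨ P = {0, 3} ∨ P = {0, 4} := by decide
    exact this P hsub hleaf h0P
  -- flipping
  have hfl : ∀ σ σ' : Finset (Fin 5), 1 ∉ σ → 1 ∉ σ' →
      (∀ t, t ≠ 1 → (t ∈ σ' ↔ if t ∈ P then t ∉ σ else t ∈ σ)) →
      ∀ s ∈ H.S X σ, H.fl X s C ∈ H.S X σ' ∧ H.fl X (H.fl X s C) C = s := by
    intro σ σ' h1 h1' hσ s hs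
    apply fl_mem H hX1 hs C (fun u w hu hw h hwX huC => hcl u w hu hw h hwX huC)
    intro t
    by_cases ht : t = 1
    · subst ht
      rw [hbd]
      constructor
      · intro h
        exact absurd h h1'
      · intro h
        split_ifs at h
        · exact absurd (Finset.mem_singleton_self _) h.2
        · exact absurd h h1
    · rw [hσ t ht, hbd]
      by_cases hC1 : H.e t ∈ C
      · rw [if_pos hC1, if_pos ((hmem t ht).1 hC1)]
        exact ⟨fun h => ⟨h, fun h' => ht (Finset.mem_singleton.1 h')⟩, fun h => h.1⟩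
      · rw [if_neg hC1, if_neg (fun h => hC1 ((hmem t ht).2 h))]
  rcases hcase with hc | hc | hc
  · -- partner 2: bijection
    have hcard : (H.S X {2, 3, 4}).card = (H.S X {0, 3, 4}).card := by
      have f1 := hfl {2, 3, 4} {0, 3, 4} (by decide) (by decide) (by rw [hc]; decide)
      have f2 := hfl {0, 3, 4} {2, 3, 4} (by decide) (by decide) (by rw [hc]; decide)
      refine Finset.card_bij' (fun s _ => H.fl X s C) (fun s _ => H.fl X s C)
        (fun s hs => (f1 s hs).1) (fun s hs => (f2 s hs).1) (fun s hs => (f1 s hs).2)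
        (fun s hs => (f2 s hs).2)
    rw [← hcard]
    rcases Nat.mod_two_eq_zero_or_one (H.S X {2, 3, 4}).card with h | h <;>
      rw [Nat.mul_mod, h]
  · -- partner 3
    have hemp : (H.S X {2, 3, 4}).card = 0 := by
      rw [Finset.card_eq_zero, Finset.eq_empty_iff_forall_notMem]
      intro s hs
      have f1 := hfl {2, 3, 4} {0, 2, 4} (by decide) (by decide) (by rw [hc]; decide) s hs
      exact hB (six H hX1 hbd f1.1 (by unfold Good; decide))
    rw [hemp, zero_mul]
  · have hemp : (H.S X {2, 3, 4}).card = 0 := by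
      rw [Finset.card_eq_zero, Finset.eq_empty_iff_forall_notMem]
      intro s hs
      have f1 := hfl {2, 3, 4} {0, 2, 3} (by decide) (by decide) (by rw [hc]; decide) s hs
      exact hB (six H hX1 hbd f1.1 (by unfold Good; decide))
    rw [hemp, zero_mul]

end Pool.Agent.H416R3.BP
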