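import Pool.Agent.H416R3.BP.Defs

set_option autoImplicit false

namespace Pool.Agent.H416R3.BP

open Finset Classical

variable {V : Type*} [Fintype V] (H : Pole V)

/-- T16 -/
theorem s_swap :
    ∑ X ∈ H.F1 {1}, (H.S X {2, 3, 4}).card = ∑ Y ∈ H.F1 {2, 3, 4}, (H.S Y {1}).card := by
  have key := Finset.sum_card_bipartiteAbove_eq_sum_card_bipartiteBelow
    (s := H.F1 {1}) (t := H.F1 {2, 3, 4}) (fun X s : V → V => ∀ u, H.I u → s u ≠ X u)
  have h1 : ∀ X ∈ H.F1 {1}, (H.S X {2, 3, 4}).card =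
      (Finset.bipartiteAbove (fun X s : V → V => ∀ u, H.I u → s u ≠ X u)
        (H.F1 {2, 3, 4}) X).card := by
    intro X _
    congr 1
    ext s
    simp only [Pole.S, Pole.F1, Finset.bipartiteAbove, Finset.mem_filter, Finset.mem_univ,
      true_and, and_assoc]
  have h2 : ∀ Y ∈ H.F1 {2, 3, 4}, (H.S Y {1}).card =
      (Finset.bipartiteBelow (fun X s : V → V => ∀ u, H.I u → s u ≠ X u)
        (H.F1 {1}) Y).card := by
    intro Y _
    congr 1
    ext s
    simp only [Pole.S, Pole.F1, Finset.bipartiteBelow, Finset.mem_filter, Finset.mem_univ,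
      true_and, and_assoc]
    constructor
    · rintro ⟨a, b, c⟩
      exact ⟨a, b, fun u hu => (c u hu).symm⟩
    · rintro ⟨a, b, c⟩
      exact ⟨a, b, fun u hu => (c u hu).symm⟩
  rw [Finset.sum_congr rfl h1, Finset.sum_congr rfl h2, key]

end Pool.Agent.H416R3.BP
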