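import Pool.Agent.H416R3.BP.Defs
import Pool.Agent.H416R3.BP.T10
import Pool.Agent.H416R3.BP.T02
import Pool.Agent.H416R3.BP.T13

set_option autoImplicit false

/-!
# T17: the bad member of the first Kempe family is even
-/

namespace Pool.Agent.H416R3.BP

open Finset Classical

namespace T17

variable {V : Type*} (H : Pole V)

theorem z0 : H.z 0 = H.x := rfl
theorem z1 : H.z 1 = H.x := rfl
theorem z2 : H.z 2 = H.v := rfl
theorem z3 : H.z 3 = H.y := rfl
theorem z4 : H.z 4 = H.y := rfl

theorem z_not_I (t : Fin 5) : ¬ H.I (H.z t) := by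
  rintro ⟨h1, h2, h3⟩
  fin_cases t
  · exact h1 rfl
  · exact h1 rfl
  · exact h2 rfl
  · exact h3 rfl
  · exact h3 rfl

theorem e_I (t : Fin 5) : H.I (H.e t) := ⟨H.hex t, H.hev t, H.hey t⟩

theorem z_adj (t : Fin 5) : H.G.Adj (H.e t) (H.z t) := by
  apply SimpleGraph.Adj.symm
  fin_cases t
  · exact (H.adjx _).mpr (Or.inr (Or.inl rfl))
  · exact (H.adjx _).mpr (Or.inr (Or.inr rfl))
  · exact (H.adjv _).mpr (Or.inr (Or.inr rfl))
  · exact (H.adjy _).mpr (Or.inr (Or.inl rfl))
  · exact (H.adjy _).mpr (Or.inr (Or.inr rfl))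

theorem z_inj {t t' : Fin 5} (h : H.z t = H.z t') (h' : H.e t = H.e t') : t = t' := by
  have a := H.hxv
  have b := H.hyv
  have c := H.hxy
  have d := H.he01
  have f := H.he34
  have a' := a.symm
  have b' := b.symm
  have c' := c.symm
  have d' := d.symm
  have f' := f.symm
  fin_cases t <;> fin_cases t' <;> first
    | rfl
    | exact absurd h a
    | exact absurd h b
    | exact absurd h c
    | exact absurd h a'
    | exact absurd h b'
    | exact absurd h c'
    | exact absurd h' d
    | exact absurd h' f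
    | exact absurd h' d'
    | exact absurd h' f'

theorem exists_leaf {u w : V} (hu : H.I u) (hw : ¬ H.I w) (h : H.G.Adj u w) :
    ∃ t, H.e t = u ∧ H.z t = w := by
  have h' := h.symm
  unfold Pole.I at hw
  by_cases h1 : w = H.x
  · subst h1
    rcases (H.adjx u).mp h' with h2 | h2 | h2
    · exact absurd h2 hu.2.1
    · exact ⟨0, h2.symm, rfl⟩
    · exact ⟨1, h2.symm, rfl⟩
  by_cases h2 : w = H.v
  · subst h2
    rcases (H.adjv u).mp h' with h3 | h3 | h3
    · exact absurd h3 hu.1
    · exact absurd h3 hu.2.2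
    · exact ⟨2, h3.symm, rfl⟩
  by_cases h3 : w = H.y
  · subst h3
    rcases (H.adjy u).mp h' with h4 | h4 | h4
    · exact absurd h4 hu.2.1
    · exact ⟨3, h4.symm, rfl⟩
    · exact ⟨4, h4.symm, rfl⟩
  exact absurd ⟨h1, h2, h3⟩ hw

theorem third {w a b c d : V} (ha : H.G.Adj w a) (hb : H.G.Adj w b) (hc : H.G.Adj w c)
    (hd : H.G.Adj w d) (hab : a ≠ b) (hca : c ≠ a) (hcb : c ≠ b) (hda : d ≠ a) (hdb : d ≠ b) :
    c = d := by
  obtain ⟨p, q, r, _, _, _, hN⟩ := Set.ncard_eq_three.mp (H.deg3 w)
  have h : ∀ k, H.G.Adj w k → k = p ∨ k = q ∨ k = r := by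
    intro k hk
    have : k ∈ H.G.neighborSet w := hk
    rw [hN] at this
    simpa using this
  have a1 := h a ha
  have b1 := h b hb
  have c1 := h c hc
  have d1 := h d hd
  grind

theorem mem_bd {p : V → V} {t : Fin 5} : t ∈ H.bd p ↔ p (H.e t) = H.z t := by
  unfold Pole.bd
  simp

theorem cov6 {P : Fin 6 → V → V} (hC : H.Cov P) {u w : V} (hu : H.I u) (hw : H.G.Adj u w) :
    (if P 0 u = w then 1 else 0) + (if P 1 u = w then 1 else 0) + (if P 2 u = w then 1 else 0) +
      (if P 3 u = w then 1 else 0) + (if P 4 u = w then 1 else 0) +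
      (if P 5 u = w then 1 else 0) = 2 := by
  have := hC u hu w hw
  rw [Finset.card_filter, Fin.sum_univ_six] at this
  exact this

variable [Fintype V]

/-- the degree condition for `FI X` when `bd X = {0}` -/
theorem deg_FI {X : V → V} (hX : H.OneF X) (hb : H.bd X = {0}) (u : V) :
    ((H.FI X).neighborSet u).ncard +
        ((({1, 2, 3, 4} : Finset (Fin 5))).filter (fun t => H.e t = u)).card = 2 ∨
      (((H.FI X).neighborSet u).ncard = 0 ∧
        ((({1, 2, 3, 4} : Finset (Fin 5))).filter (fun t => H.e t = u)).card = 0) := by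
  by_cases hu : H.I u
  · left
    obtain ⟨A, hA⟩ : ∃ A : Finset V, A = univ.filter (fun w => H.G.Adj u w ∧ w ≠ X u) := ⟨_, rfl⟩
    have hXu : H.G.Adj u (X u) := (hX.2 u hu).1
    have hAc : A.card = 2 := by
      have h1 : (A : Set V) = H.G.neighborSet u \ {X u} := by
        ext w
        simp [hA]
      rw [← Set.ncard_coe_finset, h1, Set.ncard_sdiff_singleton_of_mem (by exact hXu), H.deg3]
    have h1 : ((H.FI X).neighborSet u).ncard = (A.filter (fun w => H.I w)).card := by
      rw [← Set.ncard_coe_finset]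
      congr 1
      ext w
      simp only [SimpleGraph.mem_neighborSet, Pole.FI, coe_filter, Set.mem_ofPred_eq, hA,
        mem_filter, mem_univ, true_and]
      constructor
      · rintro ⟨h2, h3, h4, h5⟩
        exact ⟨⟨h2, fun h => h4 h.symm⟩, h3.2⟩
      · rintro ⟨⟨h2, h3⟩, h4⟩
        refine ⟨h2, ⟨hu, h4⟩, fun h => h3 h.symm, fun h => h3 ?_⟩
        have h6 := (hX.2 w h4).2 (by rw [h]; exact hu)
        rw [h] at h6
        exact h6.symm
    have h2 : ((({1, 2, 3, 4} : Finset (Fin 5))).filter (fun t => H.e t = u)).card =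
        (A.filter (fun w => ¬ H.I w)).card := by
      apply Finset.card_bij (fun t _ => H.z t)
      · intro t ht
        rw [mem_filter] at ht
        rw [mem_filter, hA, mem_filter]
        refine ⟨⟨mem_univ _, ?_, ?_⟩, z_not_I H t⟩
        · rw [← ht.2]
          exact z_adj H t
        · intro h
          have h3 : t ∈ H.bd X := by
            rw [mem_bd, ht.2]
            exact h.symm
          rw [hb, mem_singleton] at h3
          have h4 := ht.1
          rw [h3] at h4
          revert h4
          decide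
      · intro t ht t' ht' h
        rw [mem_filter] at ht ht'
        exact z_inj H h (by rw [ht.2, ht'.2])
      · intro w hw
        rw [mem_filter, hA, mem_filter] at hw
        obtain ⟨t, ht1, ht2⟩ := exists_leaf H hu hw.2 hw.1.2.1
        refine ⟨t, ?_, ht2⟩
        rw [mem_filter]
        refine ⟨?_, ht1⟩
        have h3 : t ≠ 0 := by
          rintro rfl
          have h4 : (0 : Fin 5) ∈ H.bd X := by rw [hb]; exact mem_singleton_self _
          rw [mem_bd, ht1, ht2] at h4
          exact hw.1.2.2 h4.symm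
        revert h3
        fin_cases t <;> decide
    rw [h1, h2, Finset.card_filter_add_card_filter_not, hAc]
  · right
    constructor
    · have : (H.FI X).neighborSet u = ∅ := by
        ext w
        simp only [SimpleGraph.mem_neighborSet, Pole.FI, Set.mem_empty_iff_false, iff_false]
        rintro ⟨_, h, _⟩
        exact hu h.1
      rw [this, Set.ncard_empty]
    · rw [Finset.card_eq_zero, Finset.filter_eq_empty_iff]
      rintro t _ rfl
      exact hu (e_I H t)

/-- exchange of two members of a tuple on a set -/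
noncomputable def ex (P : Fin 6 → V → V) (C : Set V) : Fin 6 → V → V := fun s u =>
  if u ∈ C then (if s = 0 then P 4 u else if s = 4 then P 0 u else P s u) else P s u

end T17

open T17 in
/-- T17 -/
theorem bad_even {V : Type*} [Fintype V] (H : Pole V) (hB : ¬ HasBF H.G) :
    Even (H.cn ![{2, 3, 4}, {0}, {1, 2, 4}, {0}, {1}, {3}]) := by
  obtain ⟨β, hβ⟩ : ∃ β : Fin 6 → Finset (Fin 5),
    β = ![{2, 3, 4}, {0}, {1, 2, 4}, {0}, {1}, {3}] := ⟨_, rfl⟩
  rw [← hβ]
  have hb0 : β 0 = {2, 3, 4} := by rw [hβ]; rfl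
  have hb1 : β 1 = {0} := by rw [hβ]; rfl
  have hb2 : β 2 = {1, 2, 4} := by rw [hβ]; rfl
  have hb3 : β 3 = {0} := by rw [hβ]; rfl
  have hb4 : β 4 = {1} := by rw [hβ]; rfl
  have hb5 : β 5 = {3} := by rw [hβ]; rfl
  have key := cn_eq_mod H (β := β) (a := 1) (b := 3) (by decide) (by rw [hb1, hb3])
  rw [Nat.even_iff, key]
  have hempty : (H.Tup β).filter (fun P => P 1 = P 3) = ∅ := by
    rw [Finset.filter_eq_empty_iff]
    intro P hP h13
    apply hB
    unfold Pole.Tup at hP
    rw [mem_filter] at hP
    obtain ⟨_, hO, hbd, hC⟩ := hP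
    obtain ⟨X, hX⟩ : ∃ X, X = P 1 := ⟨_, rfl⟩
    have hX3 : P 3 = X := by rw [hX, h13]
    have hX1 : P 1 = X := hX.symm
    have hXO : H.OneF X := by rw [hX]; exact hO 1
    have hXb : H.bd X = {0} := by rw [hX, hbd, hb1]
    -- the other four avoid `X`
    have hav : ∀ u, H.I u → P 0 u ≠ X u ∧ P 2 u ≠ X u ∧ P 4 u ≠ X u ∧ P 5 u ≠ X u := by
      intro u hu
      have h := cov6 H hC hu (hXO.2 u hu).1
      rw [hX1, hX3] at h
      simp only [if_true] at h
      refine ⟨?_, ?_, ?_, ?_⟩ <;> intro h' <;> rw [if_pos h'] at h <;> split_ifs at h <;> omega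
    -- and take each other neighbour exactly twice
    have htw : ∀ u w, H.I u → H.G.Adj u w → X u ≠ w →
        (if P 0 u = w then 1 else 0) + (if P 2 u = w then 1 else 0) +
          (if P 4 u = w then 1 else 0) + (if P 5 u = w then 1 else 0) = 2 := by
      intro u w hu hw hne
      have h := cov6 H hC hu hw
      rw [hX1, hX3, if_neg hne] at h
      omega
    have hXX : ∀ u w, H.I u → H.I w → X u ≠ w → X w ≠ u := by
      intro u w hu hw h h'
      apply h
      have := (hXO.2 w hw).2 (by rw [h']; exact hu)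
      rw [h'] at this
      exact this
    -- `U` is closed
    have hU : ∀ u w, (H.FI X).Adj u w → P 0 u = P 2 u → P 0 w = P 2 w := by
      rintro u w ⟨h1, ⟨hu, hw⟩, h2, h3⟩ h4
      obtain ⟨v0, v2, v4, v5⟩ := hav u hu
      obtain ⟨w0, w2, w4, w5⟩ := hav w hw
      by_cases h5 : P 0 u = w
      · have h6 := ((hO 0).2 u hu).2 (by rw [h5]; exact hw)
        have h7 := ((hO 2).2 u hu).2 (by rw [← h4, h5]; exact hw)
        rw [h5] at h6
        rw [← h4, h5] at h7
        rw [h6, h7]
      · have h6 := htw u w hu h1 h2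
        rw [if_neg h5, if_neg (by rw [← h4]; exact h5)] at h6
        have h7 : P 4 u = w ∧ P 5 u = w := by
          by_cases h8 : P 4 u = w
          · by_cases h9 : P 5 u = w
            · exact ⟨h8, h9⟩
            · rw [if_pos h8, if_neg h9] at h6
              omega
          · rw [if_neg h8] at h6
            split_ifs at h6 <;> omega
        have h8 := ((hO 4).2 u hu).2 (by rw [h7.1]; exact hw)
        have h9 := ((hO 5).2 u hu).2 (by rw [h7.2]; exact hw)
        rw [h7.1] at h8
        rw [h7.2] at h9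
        have h10 := htw w u hw h1.symm h3
        rw [if_pos h8, if_pos h9] at h10
        have h11 : P 0 w ≠ u ∧ P 2 w ≠ u := by
          constructor <;> intro h12 <;> rw [if_pos h12] at h10 <;> omega
        exact third H (hXO.2 w hw).1 h1.symm ((hO 0).2 w hw).1 ((hO 2).2 w hw).1 h3 w0 h11.1 w2
          h11.2
    obtain ⟨C, hCdef⟩ : ∃ C : Set V, C = {u | (H.FI X).Reachable (H.e 4) u} := ⟨_, rfl⟩
    have h04 : P 0 (H.e 4) = H.z 4 := by
      rw [← mem_bd, hbd, hb0]; decide
    have h24 : P 2 (H.e 4) = H.z 4 := by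
      rw [← mem_bd, hbd, hb2]; decide
    have hCU : ∀ u ∈ C, H.I u ∧ P 0 u = P 2 u := by
      intro u hu
      rw [hCdef] at hu
      obtain ⟨p⟩ := (show (H.FI X).Reachable (H.e 4) u from hu)
      have : ∀ a b, (H.FI X).Walk a b → H.I a ∧ P 0 a = P 2 a → H.I b ∧ P 0 b = P 2 b := by
        intro a b q
        induction q with
        | nil => exact id
        | cons h _ ih =>
          intro h'
          exact ih ⟨h.2.1.2, hU _ _ h h'.2⟩
      exact this _ _ p ⟨e_I H 4, by rw [h04, h24]⟩
    have hCcl : ∀ u w, (H.FI X).Adj u w → (u ∈ C ↔ w ∈ C) := by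
      intro u w h
      rw [hCdef]
      exact ⟨fun h' => SimpleGraph.Reachable.trans h' h.reachable,
        fun h' => SimpleGraph.Reachable.trans h' h.symm.reachable⟩
    have hC4 : H.e 4 ∈ C := by
      rw [hCdef]
      exact SimpleGraph.Reachable.refl _
    have hC1 : H.e 1 ∉ C := by
      intro h
      have h1 := (hCU _ h).2
      have h2 : P 2 (H.e 1) = H.z 1 := by rw [← mem_bd, hbd, hb2]; decide
      rw [h2, ← mem_bd, hbd, hb0] at h1
      revert h1
      decide
    have hC3 : H.e 3 ∉ C := by
      intro h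
      have h1 := (hCU _ h).2
      have h2 : P 0 (H.e 3) = H.z 3 := by rw [← mem_bd, hbd, hb0]; decide
      rw [h2] at h1
      have h3 := h1.symm
      rw [← mem_bd, hbd, hb2] at h3
      revert h3
      decide
    have hC2 : H.e 2 ∈ C := by
      have h := leaf_pair (H.FI X) H.e {1, 2, 3, 4} (deg_FI H hXO hXb) 4 (by decide)
      by_contra h2
      have h3 : (({1, 2, 3, 4} : Finset (Fin 5))).filter
          (fun t => (H.FI X).Reachable (H.e 4) (H.e t)) ⊆ {4} := by
        intro t ht
        rw [mem_filter] at ht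
        have h4 : H.e t ∈ C := by rw [hCdef]; exact ht.2
        have h5 := ht.1
        have h6 : t ≠ 1 := by rintro rfl; exact hC1 h4
        have h7 : t ≠ 2 := by rintro rfl; exact h2 h4
        have h8 : t ≠ 3 := by rintro rfl; exact hC3 h4
        simp only [mem_insert, mem_singleton] at h5 ⊢
        tauto
      have h4 := Finset.card_le_card h3
      rw [h, card_singleton] at h4
      omega
    -- the new tuple
    obtain ⟨P', hP'⟩ : ∃ P', P' = ex P C := ⟨_, rfl⟩
    have e0 : ∀ u ∈ C, P' 0 u = P 4 u := fun u hu => by rw [hP']; simp [ex, hu]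
    have e4 : ∀ u ∈ C, P' 4 u = P 0 u := fun u hu => by rw [hP']; simp [ex, hu]
    have ene : ∀ s u, s ≠ 0 → s ≠ 4 → P' s u = P s u := fun s u h0 h4 => by
      rw [hP']; simp [ex, h0, h4]
    have eout : ∀ s u, u ∉ C → P' s u = P s u := fun s u hu => by rw [hP']; simp [ex, hu]
    have hcl4 : ∀ s, (∀ u, H.I u → P s u ≠ X u) → ∀ u, H.I u → H.I (P s u) →
        (u ∈ C ↔ P s u ∈ C) := by
      intro s hs u hu hw
      apply hCcl
      exact ⟨((hO s).2 u hu).1, ⟨hu, hw⟩, fun h => hs u hu h.symm,
        hXX u _ hu hw (fun h => hs u hu h.symm)⟩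
    have hc0 := hcl4 0 (fun u hu => (hav u hu).1)
    have hc4 := hcl4 4 (fun u hu => (hav u hu).2.2.1)
    have hO' : ∀ s, H.OneF (P' s) := by
      intro s
      by_cases h0 : s = 0
      · subst h0
        constructor
        · intro u hu
          rw [eout 0 u (fun h => hu (hCU u h).1)]
          exact (hO 0).1 u hu
        · intro u hu
          by_cases hc : u ∈ C
          · rw [e0 u hc]
            refine ⟨((hO 4).2 u hu).1, fun hw => ?_⟩
            rw [e0 _ ((hc4 u hu hw).mp hc)]
            exact ((hO 4).2 u hu).2 hw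
          · rw [eout 0 u hc]
            refine ⟨((hO 0).2 u hu).1, fun hw => ?_⟩
            rw [eout 0 _ (fun h => hc ((hc0 u hu hw).mpr h))]
            exact ((hO 0).2 u hu).2 hw
      by_cases h4 : s = 4
      · subst h4
        constructor
        · intro u hu
          rw [eout 4 u (fun h => hu (hCU u h).1)]
          exact (hO 4).1 u hu
        · intro u hu
          by_cases hc : u ∈ C
          · rw [e4 u hc]
            refine ⟨((hO 0).2 u hu).1, fun hw => ?_⟩
            rw [e4 _ ((hc0 u hu hw).mp hc)]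
            exact ((hO 0).2 u hu).2 hw
          · rw [eout 4 u hc]
            refine ⟨((hO 4).2 u hu).1, fun hw => ?_⟩
            rw [eout 4 _ (fun h => hc ((hc4 u hu hw).mpr h))]
            exact ((hO 4).2 u hu).2 hw
      have : P' s = P s := funext fun u => ene s u h0 h4
      rw [this]
      exact hO s
    have hC' : H.Cov P' := by
      intro u hu w hw
      have h := hC u hu w hw
      rw [Finset.card_filter, Fin.sum_univ_six] at h ⊢
      rw [ene 1 u (by decide) (by decide), ene 2 u (by decide) (by decide),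
        ene 3 u (by decide) (by decide), ene 5 u (by decide) (by decide)]
      by_cases hc : u ∈ C
      · rw [e0 u hc, e4 u hc]
        omega
      · rw [eout 0 u hc, eout 4 u hc]
        exact h
    have hbd' : ∀ s, H.bd (P' s) =
        (![{3}, {0}, {1, 2, 4}, {0}, {1, 2, 4}, {3}] : Fin 6 → Finset (Fin 5)) s := by
      have hsame : ∀ s, s ≠ 0 → s ≠ 4 → H.bd (P' s) = β s := by
        intro s h0 h4
        have : P' s = P s := funext fun u => ene s u h0 h4
        rw [this, hbd]
      have m0 : ∀ t, P 0 (H.e t) = H.z t ↔ t ∈ ({2, 3, 4} : Finset (Fin 5)) := by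
        intro t
        rw [← mem_bd, hbd, hb0]
      have m4 : ∀ t, P 4 (H.e t) = H.z t ↔ t ∈ ({1} : Finset (Fin 5)) := by
        intro t
        rw [← mem_bd, hbd, hb4]
      intro s
      fin_cases s
      · show H.bd (P' 0) = {3}
        ext t
        rw [mem_bd]
        fin_cases t
        · show P' 0 (H.e 0) = H.z 0 ↔ _
          by_cases hc : H.e 0 ∈ C
          · rw [e0 _ hc, m4]; decide
          · rw [eout 0 _ hc, m0]; decide
        · show P' 0 (H.e 1) = H.z 1 ↔ _
          rw [eout 0 _ hC1, m0]; decide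
        · show P' 0 (H.e 2) = H.z 2 ↔ _
          rw [e0 _ hC2, m4]; decide
        · show P' 0 (H.e 3) = H.z 3 ↔ _
          rw [eout 0 _ hC3, m0]; decide
        · show P' 0 (H.e 4) = H.z 4 ↔ _
          rw [e0 _ hC4, m4]; decide
      · exact (hsame 1 (by decide) (by decide)).trans hb1
      · exact (hsame 2 (by decide) (by decide)).trans hb2
      · exact (hsame 3 (by decide) (by decide)).trans hb3
      · show H.bd (P' 4) = {1, 2, 4}
        ext t
        rw [mem_bd]
        fin_cases t
        · show P' 4 (H.e 0) = H.z 0 ↔ _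
          by_cases hc : H.e 0 ∈ C
          · rw [e4 _ hc, m0]; decide
          · rw [eout 4 _ hc, m4]; decide
        · show P' 4 (H.e 1) = H.z 1 ↔ _
          rw [eout 4 _ hC1, m4]; decide
        · show P' 4 (H.e 2) = H.z 2 ↔ _
          rw [e4 _ hC2, m0]; decide
        · show P' 4 (H.e 3) = H.z 3 ↔ _
          rw [eout 4 _ hC3, m4]; decide
        · show P' 4 (H.e 4) = H.z 4 ↔ _
          rw [e4 _ hC4, m0]; decide
      · exact (hsame 5 (by decide) (by decide)).trans hb5
    have hgood : Good (![{3}, {0}, {1, 2, 4}, {0}, {1, 2, 4}, {3}] : Fin 6 → Finset (Fin 5)) := by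
      unfold Good
      decide
    refine ext_bf H hgood ⟨P', ?_⟩
    unfold Pole.Tup
    rw [mem_filter]
    exact ⟨mem_univ _, hO', hbd', hC'⟩
  rw [hempty, card_empty]

end Pool.Agent.H416R3.BP
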