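import Pool.Agent.H416R3.BP.Defs
import Pool.Agent.H416R3.BP.T03
import Pool.Agent.H416R3.BP.T05
import Pool.Agent.H416R3.BP.T06
import Pool.Agent.H416R3.BP.T07

set_option autoImplicit false

namespace Pool.Agent.H416R3.BP

open Finset Classical

namespace T18

theorem even_card {V : Type*} (H : Pole V) [Fintype V] : Even (Fintype.card V) := by
  have h := H.G.even_card_odd_degree_vertices
  have h1 : (univ.filter fun v => Odd (H.G.degree v)) = (univ : Finset V) := by
    refine Finset.filter_true_of_mem fun u _ => ?_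
    have h2 := H.deg3 u
    rw [Set.ncard_eq_toFinset_card'] at h2
    have h3 : H.G.degree u = 3 := by
      rw [← h2]
      rfl
    rw [h3]
    decide
  rw [h1, Finset.card_univ] at h
  exact h

variable {V : Type*} (H : Pole V)

theorem I_e (t : Fin 5) : H.I (H.e t) := ⟨H.hex t, H.hev t, H.hey t⟩

theorem bd_iff {p : V → V} (t : Fin 5) : t ∈ H.bd p ↔ p (H.e t) = H.z t := by
  simp [Pole.bd]

variable {H}

section
variable {Y : V → V} (hY : H.OneF Y) (hb : H.bd Y = {2, 3, 4})
include hY hb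

omit hY in
theorem Ye0 : Y (H.e 0) ≠ H.x := fun h => by
  have h1 : (0 : Fin 5) ∈ H.bd Y := (bd_iff H 0).2 h
  rw [hb] at h1
  exact absurd h1 (by decide)

omit hY in
theorem Ye1 : Y (H.e 1) ≠ H.x := fun h => by
  have h1 : (1 : Fin 5) ∈ H.bd Y := (bd_iff H 1).2 h
  rw [hb] at h1
  exact absurd h1 (by decide)

omit hY in
theorem Ye2 : Y (H.e 2) = H.v := (bd_iff H 2).1 (by rw [hb]; decide)

omit hY in
theorem Ye3 : Y (H.e 3) = H.y := (bd_iff H 3).1 (by rw [hb]; decide)

omit hY in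
theorem Ye4 : Y (H.e 4) = H.y := (bd_iff H 4).1 (by rw [hb]; decide)

theorem Fx (w : V) : (H.FG Y).Adj H.x w ↔ w = H.e 0 ∨ w = H.e 1 := by
  constructor
  · rintro ⟨h1, h2, -, -⟩
    rw [H.adjx] at h1
    rcases h1 with rfl | h1
    · rcases h2 with h2 | h2
      · exact absurd rfl h2.1
      · exact absurd rfl h2.2.1
    · exact h1
  · rintro (rfl | rfl)
    · exact ⟨(H.adjx _).2 (Or.inr (Or.inl rfl)), Or.inr (I_e H 0), fun h => absurd rfl h.1,
        fun _ => Ye0 hb⟩
    · exact ⟨(H.adjx _).2 (Or.inr (Or.inr rfl)), Or.inr (I_e H 1), fun h => absurd rfl h.1,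
        fun _ => Ye1 hb⟩

theorem Fv (w : V) : ¬ (H.FG Y).Adj H.v w := by
  rintro ⟨h1, h2, -, h3⟩
  have hw : H.I w := by
    rcases h2 with h2 | h2
    · exact absurd rfl h2.2.1
    · exact h2
  rw [H.adjv] at h1
  rcases h1 with rfl | rfl | rfl
  · exact hw.1 rfl
  · exact hw.2.2 rfl
  · exact h3 hw (Ye2 hb)

theorem Fy (w : V) : ¬ (H.FG Y).Adj H.y w := by
  rintro ⟨h1, h2, -, h3⟩
  have hw : H.I w := by
    rcases h2 with h2 | h2
    · exact absurd rfl h2.2.2
    · exact h2
  rw [H.adjy] at h1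
  rcases h1 with rfl | rfl | rfl
  · exact hw.2.1 rfl
  · exact h3 hw (Ye3 hb)
  · exact h3 hw (Ye4 hb)

omit hb in
theorem Fi {u : V} (hu : H.I u) (w : V) : (H.FG Y).Adj u w ↔ H.G.Adj u w ∧ w ≠ Y u := by
  constructor
  · rintro ⟨h1, -, h2, -⟩
    exact ⟨h1, fun h => h2 hu h.symm⟩
  · rintro ⟨h1, h2⟩
    refine ⟨h1, Or.inl hu, fun _ h => h2 h.symm, fun hw h => h2 ?_⟩
    have h3 := (hY.2 w hw).2 (by rw [h]; exact hu)
    rw [h] at h3
    exact h3.symm

omit hb in
theorem Fi_card [Finite V] {u : V} (hu : H.I u) : ((H.FG Y).neighborSet u).ncard = 2 := by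
  have h1 : (H.FG Y).neighborSet u = H.G.neighborSet u \ {Y u} := by
    ext w
    simp only [SimpleGraph.mem_neighborSet, Set.mem_sdiff, Set.mem_singleton_iff]
    exact Fi hY hu w
  rw [h1, Set.ncard_sdiff_singleton_of_mem (show Y u ∈ H.G.neighborSet u from (hY.2 u hu).1),
    H.deg3]

/-- the `F`-neighbours of an inner vertex are inner or `x` -/
theorem Fi_I {u w : V} (h : (H.FG Y).Adj u w) : H.I w ∨ w = H.x := by
  by_contra hcon
  push Not at hcon
  have h1 : w = H.v ∨ w = H.y := by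
    by_contra h2
    push Not at h2
    exact hcon.1 ⟨hcon.2, h2.1, h2.2⟩
  rcases h1 with rfl | rfl
  · exact Fv hY hb _ h.symm
  · exact Fy hY hb _ h.symm

theorem reach_ne {u : V} (h : (H.FG Y).Reachable H.x u) : u ≠ H.v ∧ u ≠ H.y := by
  rw [SimpleGraph.reachable_iff_reflTransGen] at h
  rcases Relation.ReflTransGen.cases_tail h with h1 | ⟨w, -, h1⟩
  · rw [h1]
    exact ⟨H.hxv, H.hxy⟩
  · refine ⟨?_, ?_⟩
    · rintro rfl
      exact Fv hY hb _ h1.symm
    · rintro rfl
      exact Fy hY hb _ h1.symm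

omit hb in
/-- two elements of an `F`-neighbourhood besides a third one are equal -/
theorem two_eq [Finite V] {u a b c : V} (hu : H.I u) (ha : (H.FG Y).Adj u a)
    (hb' : (H.FG Y).Adj u b) (hc : (H.FG Y).Adj u c) (hac : a ≠ c) (hbc : b ≠ c) : a = b := by
  have h1 := Fi_card hY hu
  rw [Set.ncard_eq_two] at h1
  obtain ⟨p, q, hpq, h2⟩ := h1
  have h3 : ∀ w, (H.FG Y).Adj u w → w = p ∨ w = q := by
    intro w hw
    have h4 : w ∈ (H.FG Y).neighborSet u := hw
    rw [h2] at h4
    exact h4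
  rcases h3 a ha with rfl | rfl <;> rcases h3 b hb' with rfl | rfl <;>
    rcases h3 c hc with rfl | rfl <;> first | rfl | exact absurd rfl hac | exact absurd rfl hbc

omit hb in
theorem mem_S [Fintype V] {s : V → V} (hs : s ∈ H.S Y {1}) :
    H.OneF s ∧ s (H.e 1) = H.x ∧ s (H.e 0) ≠ H.x ∧ ∀ u, H.I u → (H.FG Y).Adj u (s u) := by
  unfold Pole.S at hs
  rw [Finset.mem_filter] at hs
  obtain ⟨-, h1, h2, h3⟩ := hs
  refine ⟨h1, (bd_iff H 1).1 (by rw [h2]; decide), fun h => ?_, fun u hu => ?_⟩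
  · have h4 : (0 : Fin 5) ∈ H.bd s := (bd_iff H 0).2 h
    rw [h2] at h4
    exact absurd h4 (by decide)
  · exact (Fi hY hu _).2 ⟨(h1.2 u hu).1, h3 u hu⟩

theorem unique [Fintype V] {s s' : V → V} (hs : s ∈ H.S Y {1}) (hs' : s' ∈ H.S Y {1}) {u : V}
    (hu : (H.FG Y).Reachable H.x u) : u = H.x ∨ (H.I u ∧ s u = s' u) := by
  obtain ⟨h1, h2, h3, h4⟩ := mem_S hY hs
  obtain ⟨h1', h2', h3', h4'⟩ := mem_S hY hs'
  rw [SimpleGraph.reachable_iff_reflTransGen] at hu
  induction hu with
  | refl => exact Or.inl rfl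
  | @tail u w _ huw ih =>
    rcases Fi_I hY hb huw with hw | hw
    · right
      refine ⟨hw, ?_⟩
      rcases ih with rfl | ⟨hu, hsu⟩
      · rcases (Fx hY hb w).1 huw with rfl | rfl
        · exact two_eq hY hw (h4 _ hw) (h4' _ hw) huw.symm h3 h3'
        · rw [h2, h2']
      · by_cases hsw : w = s u
        · have e1 : s w = u := by
            rw [hsw]
            exact (h1.2 u hu).2 (hsw ▸ hw)
          have e2 : s' w = u := by
            rw [hsw, hsu]
            exact (h1'.2 u hu).2 (by rw [← hsu, ← hsw]; exact hw)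
          rw [e1, e2]
        · refine two_eq hY hw (h4 _ hw) (h4' _ hw) huw.symm ?_ ?_
          · intro h
            apply hsw
            have h5 := (h1.2 w hw).2 (by rw [h]; exact hu)
            rw [h] at h5
            exact h5.symm
          · intro h
            apply hsw
            have h5 := (h1'.2 w hw).2 (by rw [h]; exact hu)
            rw [h] at h5
            rw [hsu]
            exact h5.symm
    · exact Or.inl hw

theorem exists_s [Fintype V] (hr : ∀ u, u ≠ H.v → u ≠ H.y → (H.FG Y).Reachable H.x u) :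
    ∃ s, s ∈ H.S Y {1} := by
  have hd : ∀ u, (H.FG Y).Reachable H.x u → ((H.FG Y).neighborSet u).ncard = 2 := by
    intro u hu
    obtain ⟨h1, h2⟩ := reach_ne hY hb hu
    by_cases h3 : u = H.x
    · have h4 : (H.FG Y).neighborSet u = {H.e 0, H.e 1} := by
        ext w
        rw [SimpleGraph.mem_neighborSet, h3, Fx hY hb w]
        rfl
      rw [h4, Set.ncard_pair H.he01]
    · exact Fi_card hY ⟨h3, h1, h2⟩
  obtain ⟨g, hg1, hg2, hg3⟩ := alt_exists (H.FG Y) H.x (H.e 1) (H.e 0) H.he01.symm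
    (fun w => (Fx hY hb w).trans or_comm) hd
  have hset : {u | (H.FG Y).Reachable H.x u} = ({H.v, H.y} : Set V)ᶜ := by
    ext u
    simp only [Set.mem_ofPred_eq, Set.mem_compl_iff, Set.mem_insert_iff, Set.mem_singleton_iff,
      not_or]
    exact ⟨fun h => reach_ne hY hb h, fun h => hr u h.1 h.2⟩
  have hodd : ¬ Odd ({u | (H.FG Y).Reachable H.x u}.ncard) := by
    rw [hset, Nat.not_odd_iff_even]
    have h1 := Set.ncard_add_ncard_compl ({H.v, H.y} : Set V)
    rw [Set.ncard_pair H.hyv.symm, Nat.card_eq_fintype_card] at h1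
    have h2 := even_card H
    rw [← h1] at h2
    exact (Nat.even_add.1 h2).1 (by decide)
  have hg0 : g (H.e 0) ≠ H.x := fun h => hodd (hg3.1 h)
  have hI : ∀ u, H.I u → (H.FG Y).Adj u (g u) ∧ (g u ≠ H.x → g (g u) = u) := fun u hu =>
    hg1 u (hr u hu.2.1 hu.2.2) hu.1
  refine ⟨fun u => if H.I u then g u else u, ?_⟩
  unfold Pole.S
  rw [Finset.mem_filter]
  have hif : ∀ u, H.I u → (if H.I u then g u else u) = g u := fun u hu => if_pos hu
  refine ⟨mem_univ _, ⟨fun u hu => if_neg hu, fun u hu => ?_⟩, ?_, fun u hu => ?_⟩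
  · beta_reduce
    rw [hif u hu]
    refine ⟨(hI u hu).1.1, fun h => ?_⟩
    rw [hif _ h]
    exact (hI u hu).2 h.1
  · ext t
    rw [bd_iff]
    beta_reduce
    rw [hif _ (I_e H t)]
    have hv : g (H.e t) ≠ H.v := fun h => Fv hY hb (H.e t) (by
      have := (hI _ (I_e H t)).1
      rw [h] at this
      exact this.symm)
    have hy : g (H.e t) ≠ H.y := fun h => Fy hY hb (H.e t) (by
      have := (hI _ (I_e H t)).1
      rw [h] at this
      exact this.symm)
    fin_cases t
    · refine ⟨fun h => absurd h hg0, fun h => absurd h (by decide)⟩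
    · refine ⟨fun _ => by decide, fun _ => hg2⟩
    · refine ⟨fun h => absurd h hv, fun h => absurd h (by decide)⟩
    · refine ⟨fun h => absurd h hy, fun h => absurd h (by decide)⟩
    · refine ⟨fun h => absurd h hy, fun h => absurd h (by decide)⟩
  · show (if H.I u then g u else u) ≠ Y u
    rw [hif u hu]
    exact ((Fi hY hu _).1 (hI u hu).1).2

theorem even_S [Fintype V] {u1 : V} (h1 : u1 ≠ H.v) (h2 : u1 ≠ H.y)
    (hr : ¬ (H.FG Y).Reachable H.x u1) : Even (H.S Y {1}).card := by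
  have hI1 : H.I u1 := ⟨fun h => hr (by rw [h]), h1, h2⟩
  set C : Set V := {u | (H.FG Y).Reachable u1 u} with hC
  have hcl : ∀ u w, H.I u → H.I w → H.G.Adj u w → w ≠ Y u → u ∈ C → w ∈ C := by
    intro u w hu _ huw hwY huC
    exact SimpleGraph.Reachable.trans (show (H.FG Y).Reachable u1 u from huC)
      ((Fi hY hu w).2 ⟨huw, hwY⟩).reachable
  have he : ∀ t, H.e t ∈ C → t ≠ 0 ∧ t ≠ 1 := by
    intro t ht
    have h3 : ¬ (H.FG Y).Adj H.x (H.e t) := by
      intro h
      apply hr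
      exact h.reachable.trans (show (H.FG Y).Reachable u1 (H.e t) from ht).symm
    rw [Fx hY hb] at h3
    push Not at h3
    exact ⟨fun h => h3.1 (by rw [h]), fun h => h3.2 (by rw [h])⟩
  have key : ∀ s ∈ H.S Y {1}, H.fl Y s C ∈ H.S Y {1} ∧ H.fl Y (H.fl Y s C) C = s := by
    intro s hs
    refine fl_mem H hY hs C hcl fun t => ?_
    split_ifs with ht
    · obtain ⟨h3, h4⟩ := he t ht
      rw [hb]
      fin_cases t
      · exact absurd rfl h3
      · exact absurd rfl h4
      · decide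
      · decide
      · decide
    · rfl
  have h3 : ∑ s ∈ H.S Y {1}, (1 : ZMod 2) = 0 := by
    refine Finset.sum_involution (fun s _ => H.fl Y s C) (fun _ _ => by decide) ?_
      (fun s hs => (key s hs).1) (fun s hs => (key s hs).2)
    intro s hs _ hfix
    have h4 : H.fl Y s C u1 = H.co Y s u1 := by
      unfold Pole.fl
      exact if_pos (SimpleGraph.Reachable.refl u1)
    obtain ⟨h5, -, -, -⟩ := mem_S hY hs
    have h6 : ∀ u, H.I u → s u ≠ Y u := by
      unfold Pole.S at hs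
      rw [Finset.mem_filter] at hs
      exact hs.2.2.2
    have h7 := (co_spec H hY h5 h6 hI1).2.2.1
    rw [← h4, hfix] at h7
    exact h7 rfl
  rw [Finset.sum_const, nsmul_eq_mul, mul_one, ZMod.natCast_eq_zero_iff] at h3
  exact even_iff_two_dvd.2 h3

end

end T18

variable {V : Type*} [Fintype V] (H : Pole V)

/-- T18 -/
theorem ham_local {Y : V → V} (hY : Y ∈ H.F1 {2, 3, 4}) :
    (H.S Y {1}).card % 2 =
      if (∀ u, u ≠ H.v → u ≠ H.y → (H.FG Y).Reachable H.x u) then 1 else 0 := by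
  unfold Pole.F1 at hY
  rw [Finset.mem_filter] at hY
  obtain ⟨-, h1, h2⟩ := hY
  split_ifs with h
  · have h3 : (H.S Y {1}).card = 1 := by
      rw [Finset.card_eq_one]
      obtain ⟨s, hs⟩ := T18.exists_s h1 h2 h
      refine ⟨s, Finset.eq_singleton_iff_unique_mem.2 ⟨hs, fun s' hs' => ?_⟩⟩
      funext u
      by_cases hu : H.I u
      · rcases T18.unique h1 h2 hs' hs (h u hu.2.1 hu.2.2) with h4 | h4
        · exact absurd h4 hu.1
        · exact h4.2
      · rw [(T18.mem_S h1 hs).1.1 u hu, (T18.mem_S h1 hs').1.1 u hu]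
    rw [h3]
  · push Not at h
    obtain ⟨u1, h3, h4, h5⟩ := h
    exact Nat.even_iff.1 (T18.even_S h1 h2 h3 h4 h5)

end Pool.Agent.H416R3.BP
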