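import Pool.Agent.H416R3.BP.Defs

set_option autoImplicit false

namespace Pool.Agent.H416R3.BP

open Finset Classical

namespace T19

variable {V : Type*} (H : Pole V)

theorem I_e (t : Fin 5) : H.I (H.e t) := ⟨H.hex t, H.hev t, H.hey t⟩

theorem bd_spec [Fintype V] {Y : V → V} (h : H.bd Y = {2, 3, 4}) :
    Y (H.e 2) = H.v ∧ Y (H.e 3) = H.y ∧ Y (H.e 4) = H.y ∧ Y (H.e 0) ≠ H.x ∧
      Y (H.e 1) ≠ H.x := by
  have key : ∀ t, t ∈ H.bd Y ↔ Y (H.e t) = H.z t := by
    intro t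
    simp [Pole.bd]
  have k2 := (key 2).1 (by rw [h]; decide)
  have k3 := (key 3).1 (by rw [h]; decide)
  have k4 := (key 4).1 (by rw [h]; decide)
  have k0 : Y (H.e 0) ≠ H.z 0 := fun hh => by
    have := (key 0).2 hh
    rw [h] at this
    revert this
    decide
  have k1 : Y (H.e 1) ≠ H.z 1 := fun hh => by
    have := (key 1).2 hh
    rw [h] at this
    revert this
    decide
  exact ⟨k2, k3, k4, k0, k1⟩

theorem FG_inner {Y : V → V} (hY : H.OneF Y) {u w : V} (hu : H.I u) :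
    (H.FG Y).Adj u w ↔ H.G.Adj u w ∧ w ≠ Y u := by
  constructor
  · intro h
    exact ⟨h.1, fun hh => h.2.2.1 hu hh.symm⟩
  · rintro ⟨h1, h2⟩
    refine ⟨h1, Or.inl hu, fun _ hh => h2 hh.symm, fun hw hh => ?_⟩
    have h3 := (hY.2 w hw).2 (by rw [hh]; exact hu)
    rw [hh] at h3
    exact h2 h3.symm

theorem FG_x {Y : V → V} [Fintype V] (hb : H.bd Y = {2, 3, 4}) {w : V} :
    (H.FG Y).Adj H.x w ↔ w = H.e 0 ∨ w = H.e 1 := by
  obtain ⟨-, -, -, k0, k1⟩ := bd_spec H hb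
  constructor
  · intro h
    rcases (H.adjx w).1 h.1 with h1 | h1 | h1
    · exfalso
      rcases h.2.1 with h2 | h2
      · exact h2.1 rfl
      · exact h2.2.1 h1
    · exact Or.inl h1
    · exact Or.inr h1
  · rintro (rfl | rfl)
    · exact ⟨(H.adjx _).2 (Or.inr (Or.inl rfl)), Or.inr (I_e H 0), fun h => absurd rfl h.1,
        fun _ => k0⟩
    · exact ⟨(H.adjx _).2 (Or.inr (Or.inr rfl)), Or.inr (I_e H 1), fun h => absurd rfl h.1,
        fun _ => k1⟩

theorem FG_v {Y : V → V} [Fintype V] (hb : H.bd Y = {2, 3, 4}) {w : V} :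
    ¬ (H.FG Y).Adj H.v w := by
  obtain ⟨k2, -, -, -, -⟩ := bd_spec H hb
  intro h
  have hI : H.I w := by
    rcases h.2.1 with h1 | h1
    · exact absurd rfl h1.2.1
    · exact h1
  rcases (H.adjv w).1 h.1 with h1 | h1 | h1
  · exact hI.1 h1
  · exact hI.2.2 h1
  · subst h1
    exact h.2.2.2 hI k2

theorem FG_y {Y : V → V} [Fintype V] (hb : H.bd Y = {2, 3, 4}) {w : V} :
    ¬ (H.FG Y).Adj H.y w := by
  obtain ⟨-, k3, k4, -, -⟩ := bd_spec H hb
  intro h
  have hI : H.I w := by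
    rcases h.2.1 with h1 | h1
    · exact absurd rfl h1.2.2
    · exact h1
  rcases (H.adjy w).1 h.1 with h1 | h1 | h1
  · exact hI.2.1 h1
  · subst h1
    exact h.2.2.2 hI k3
  · subst h1
    exact h.2.2.2 hI k4

/-- the subgraph -/
def ZY (Y : V → V) : H.G.Subgraph where
  verts := {H.v, H.y}ᶜ
  Adj u w := (H.FG Y).Adj u w ∧ u ∈ ({H.v, H.y}ᶜ : Set V) ∧ w ∈ ({H.v, H.y}ᶜ : Set V)
  adj_sub h := h.1.1
  edge_vert h := h.2.1
  symm := ⟨fun _ _ h => ⟨h.1.symm, h.2.2, h.2.1⟩⟩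

theorem ZY_adj {Y : V → V} [Fintype V] (hb : H.bd Y = {2, 3, 4}) {u w : V} :
    (ZY H Y).Adj u w ↔ (H.FG Y).Adj u w := by
  constructor
  · exact fun h => h.1
  · intro h
    refine ⟨h, ?_, ?_⟩
    · rintro (h1 | h1)
      · subst h1; exact FG_v H hb h
      · have h1' : u = H.y := h1
        subst h1'; exact FG_y H hb h
    · rintro (h1 | h1)
      · subst h1; exact FG_v H hb h.symm
      · have h1' : w = H.y := h1
        subst h1'; exact FG_y H hb h.symm

theorem nbr_ncard {u w : V} (h : H.G.Adj u w) : (H.G.neighborSet u \ {w}).ncard = 2 := by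
  have hfin : (H.G.neighborSet u).Finite := by
    apply Set.finite_of_ncard_ne_zero
    rw [H.deg3 u]
    norm_num
  rw [Set.ncard_sdiff_singleton_of_mem (by exact h), H.deg3 u]

theorem ZY_circuit {Y : V → V} [Fintype V] (hY : H.OneF Y) (hb : H.bd Y = {2, 3, 4})
    (hr : ∀ u, u ≠ H.v → u ≠ H.y → (H.FG Y).Reachable H.x u) : IsCircuit (ZY H Y) := by
  have hx : H.x ∈ (ZY H Y).verts := by
    rintro (h | h)
    · exact H.hxv h
    · exact H.hxy h
  have hwalk : ∀ a b : V, (H.FG Y).Walk a b → ∀ ha : a ∈ (ZY H Y).verts,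
      ∃ hb' : b ∈ (ZY H Y).verts, (ZY H Y).coe.Reachable ⟨a, ha⟩ ⟨b, hb'⟩ := by
    intro a b p
    induction p with
    | nil => intro ha; exact ⟨ha, SimpleGraph.Reachable.refl _⟩
    | cons h q ih =>
      intro ha
      have hadj := (ZY_adj H hb).2 h
      obtain ⟨hb', hr'⟩ := ih hadj.2.2
      refine ⟨hb', SimpleGraph.Reachable.trans (SimpleGraph.Adj.reachable ?_) hr'⟩
      exact hadj
  constructor
  · rw [SimpleGraph.Subgraph.connected_iff]
    refine ⟨?_, ⟨H.x, hx⟩⟩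
    rw [SimpleGraph.Subgraph.preconnected_iff]
    have key : ∀ u : (ZY H Y).verts, (ZY H Y).coe.Reachable ⟨H.x, hx⟩ u := by
      rintro ⟨u, hu⟩
      have h1 : u ≠ H.v := fun h => hu (Or.inl h)
      have h2 : u ≠ H.y := fun h => hu (Or.inr h)
      obtain ⟨p⟩ := hr u h1 h2
      obtain ⟨_, h3⟩ := hwalk _ _ p hx
      exact h3
    intro u w
    exact (key u).symm.trans (key w)
  · intro u hu
    by_cases hux : u = H.x
    · subst hux
      have : (ZY H Y).neighborSet H.x = {H.e 0, H.e 1} := by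
        ext w
        rw [SimpleGraph.Subgraph.mem_neighborSet, ZY_adj H hb, FG_x H hb]
        rfl
      rw [this, Set.ncard_pair H.he01]
    · have hI : H.I u := ⟨hux, fun h => hu (Or.inl h), fun h => hu (Or.inr h)⟩
      have : (ZY H Y).neighborSet u = H.G.neighborSet u \ {Y u} := by
        ext w
        rw [SimpleGraph.Subgraph.mem_neighborSet, ZY_adj H hb, FG_inner H hY hI]
        rfl
      rw [this]
      exact nbr_ncard H (hY.2 u hI).1

theorem inj {Y₁ Y₂ : V → V} [Fintype V] (h1 : H.OneF Y₁) (b1 : H.bd Y₁ = {2, 3, 4})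
    (h2 : H.OneF Y₂) (b2 : H.bd Y₂ = {2, 3, 4}) (h : ZY H Y₁ = ZY H Y₂) : Y₁ = Y₂ := by
  funext u
  by_cases hI : H.I u
  · by_contra hne
    have e1 : (H.FG Y₂).Adj u (Y₁ u) := (FG_inner H h2 hI).2 ⟨(h1.2 u hI).1, hne⟩
    have e2 : (ZY H Y₂).Adj u (Y₁ u) := (ZY_adj H b2).2 e1
    rw [← h] at e2
    exact ((FG_inner H h1 hI).1 ((ZY_adj H b1).1 e2)).2 rfl
  · rw [h1.1 u hI, h2.1 u hI]

theorem exists_third {Z : H.G.Subgraph} (hZ : IsCircuit Z) {u : V} (hu : u ∈ Z.verts) :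
    ∃ w, H.G.Adj u w ∧ ¬ Z.Adj u w ∧ ∀ w', H.G.Adj u w' → ¬ Z.Adj u w' → w' = w := by
  have hfin : (H.G.neighborSet u).Finite := by
    apply Set.finite_of_ncard_ne_zero
    rw [H.deg3 u]
    norm_num
  have hsub : Z.neighborSet u ⊆ H.G.neighborSet u := fun w hw => Z.adj_sub hw
  have h1 : (H.G.neighborSet u \ Z.neighborSet u).ncard = 1 := by
    rw [Set.ncard_sdiff hsub (hfin.subset hsub), H.deg3 u, hZ.2 u hu]
  obtain ⟨w, hw⟩ := Set.ncard_eq_one.1 h1
  have hw' : w ∈ H.G.neighborSet u \ Z.neighborSet u := by rw [hw]; rfl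
  refine ⟨w, hw'.1, hw'.2, fun w' h2 h3 => ?_⟩
  have : w' ∈ H.G.neighborSet u \ Z.neighborSet u := ⟨h2, h3⟩
  rw [hw] at this
  exact this

theorem surj [Fintype V] {Z : H.G.Subgraph} (hZ : Z ∈ hamSet H.G H.v H.y) :
    ∃ Y : V → V, H.OneF Y ∧ H.bd Y = {2, 3, 4} ∧
      (∀ u, u ≠ H.v → u ≠ H.y → (H.FG Y).Reachable H.x u) ∧ ZY H Y = Z := by
  obtain ⟨hC, hV⟩ := hZ
  have hmem : ∀ u, H.I u → u ∈ Z.verts := by
    intro u hu
    rw [hV]
    rintro (h | h)
    · exact hu.2.1 h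
    · exact hu.2.2 h
  have hxm : H.x ∈ Z.verts := by
    rw [hV]
    rintro (h | h)
    · exact H.hxv h
    · exact H.hxy h
  have hthird : ∀ u, ∃ w, (H.I u → H.G.Adj u w ∧ ¬ Z.Adj u w ∧
      ∀ w', H.G.Adj u w' → ¬ Z.Adj u w' → w' = w) ∧ (¬ H.I u → w = u) := by
    intro u
    by_cases hI : H.I u
    · obtain ⟨w, hw⟩ := exists_third H hC (hmem u hI)
      exact ⟨w, fun _ => hw, fun h => absurd hI h⟩
    · exact ⟨u, fun h => absurd h hI, fun _ => rfl⟩
  choose Y hY1 hY2 using hthird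
  have hvZ : ∀ u, ¬ Z.Adj u H.v := by
    intro u h
    have := Z.edge_vert h.symm
    rw [hV] at this
    exact this (Or.inl rfl)
  have hyZ : ∀ u, ¬ Z.Adj u H.y := by
    intro u h
    have := Z.edge_vert h.symm
    rw [hV] at this
    exact this (Or.inr rfl)
  have hOneF : H.OneF Y := by
    refine ⟨fun u hu => hY2 u hu, fun u hu => ⟨(hY1 u hu).1, fun hI => ?_⟩⟩
    exact ((hY1 (Y u) hI).2.2 u (hY1 u hu).1.symm (fun h => (hY1 u hu).2.1 h.symm)).symm
  have hxn : Z.neighborSet H.x = {H.e 0, H.e 1} := by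
    apply Set.eq_of_subset_of_ncard_le
    · intro w hw
      rcases (H.adjx w).1 (Z.adj_sub hw) with h | h | h
      · exact absurd (h ▸ hw) (hvZ H.x)
      · exact Or.inl h
      · exact Or.inr h
    · rw [hC.2 _ hxm, Set.ncard_pair H.he01]
    · exact Set.toFinite _
  have a0 : Z.Adj H.x (H.e 0) := by
    have : H.e 0 ∈ Z.neighborSet H.x := by rw [hxn]; exact Or.inl rfl
    exact this
  have a1 : Z.Adj H.x (H.e 1) := by
    have : H.e 1 ∈ Z.neighborSet H.x := by rw [hxn]; exact Or.inr rfl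
    exact this
  have k0 : Y (H.e 0) ≠ H.x := fun h => (hY1 _ (I_e H 0)).2.1 (by rw [h]; exact a0.symm)
  have k1 : Y (H.e 1) ≠ H.x := fun h => (hY1 _ (I_e H 1)).2.1 (by rw [h]; exact a1.symm)
  have k2 : Y (H.e 2) = H.v :=
    ((hY1 _ (I_e H 2)).2.2 H.v ((H.adjv _).2 (Or.inr (Or.inr rfl))).symm (hvZ _)).symm
  have k3 : Y (H.e 3) = H.y :=
    ((hY1 _ (I_e H 3)).2.2 H.y ((H.adjy _).2 (Or.inr (Or.inl rfl))).symm (hyZ _)).symm
  have k4 : Y (H.e 4) = H.y :=
    ((hY1 _ (I_e H 4)).2.2 H.y ((H.adjy _).2 (Or.inr (Or.inr rfl))).symm (hyZ _)).symm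
  have hbd : H.bd Y = {2, 3, 4} := by
    have key : ∀ t, t ∈ H.bd Y ↔ Y (H.e t) = H.z t := by
      intro t
      simp [Pole.bd]
    ext t
    rw [key]
    fin_cases t
    · exact ⟨fun h => absurd h k0, fun h => absurd h (by decide)⟩
    · exact ⟨fun h => absurd h k1, fun h => absurd h (by decide)⟩
    · exact ⟨fun _ => by decide, fun _ => k2⟩
    · exact ⟨fun _ => by decide, fun _ => k3⟩
    · exact ⟨fun _ => by decide, fun _ => k4⟩
  have hadj : ∀ u w, (H.FG Y).Adj u w ↔ Z.Adj u w := by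
    have half : ∀ u w, H.I u → ((H.FG Y).Adj u w ↔ Z.Adj u w) := by
      intro u w hu
      rw [FG_inner H hOneF hu]
      constructor
      · rintro ⟨h1, h2⟩
        by_contra h3
        exact h2 ((hY1 u hu).2.2 w h1 h3)
      · intro h
        refine ⟨Z.adj_sub h, fun h1 => (hY1 u hu).2.1 ?_⟩
        rw [← h1]
        exact h
    intro u w
    by_cases hu : H.I u
    · exact half u w hu
    · by_cases hw : H.I w
      · rw [SimpleGraph.adj_comm, half w u hw]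
        exact ⟨fun h => h.symm, fun h => h.symm⟩
      · constructor
        · intro h
          rcases h.2.1 with h1 | h1
          · exact absurd h1 hu
          · exact absurd h1 hw
        · intro h
          exfalso
          have h1 := Z.edge_vert h
          have h2 := Z.edge_vert h.symm
          rw [hV] at h1 h2
          have h3 : u = H.x := by
            by_contra h4
            exact hu ⟨h4, fun h5 => h1 (Or.inl h5), fun h5 => h1 (Or.inr h5)⟩
          have h4 : w = H.x := by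
            by_contra h4
            exact hw ⟨h4, fun h5 => h2 (Or.inl h5), fun h5 => h2 (Or.inr h5)⟩
          rw [h3, h4] at h
          exact (Z.adj_sub h).ne rfl
  refine ⟨Y, hOneF, hbd, ?_, ?_⟩
  · intro u hu1 hu2
    have hum : u ∈ Z.verts := by
      rw [hV]
      rintro (h | h)
      · exact hu1 h
      · exact hu2 h
    have hr := hC.1.preconnected ⟨H.x, hxm⟩ ⟨u, hum⟩
    let f : Z.coe →g H.FG Y := ⟨fun a => (a : V), fun {a b} h => (hadj _ _).2 h⟩
    exact hr.map f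
  · apply SimpleGraph.Subgraph.ext
    · rw [hV]
      rfl
    · funext u w
      exact propext ((ZY_adj H hbd).trans (hadj u w))

end T19

variable {V : Type*} [Fintype V] (H : Pole V)

/-- T19 -/
theorem ham_bij :
    ((H.F1 {2, 3, 4}).filter
      (fun Y => ∀ u, u ≠ H.v → u ≠ H.y → (H.FG Y).Reachable H.x u)).card =
      (hamSet H.G H.v H.y).ncard := by
  have hmem : ∀ Y, Y ∈ (H.F1 {2, 3, 4}).filter
      (fun Y => ∀ u, u ≠ H.v → u ≠ H.y → (H.FG Y).Reachable H.x u) ↔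
      (H.OneF Y ∧ H.bd Y = {2, 3, 4}) ∧
        ∀ u, u ≠ H.v → u ≠ H.y → (H.FG Y).Reachable H.x u := by
    intro Y
    simp [Pole.F1]
  have himg : hamSet H.G H.v H.y = (T19.ZY H) '' (((H.F1 {2, 3, 4}).filter
      (fun Y => ∀ u, u ≠ H.v → u ≠ H.y → (H.FG Y).Reachable H.x u) : Finset (V → V)) :
        Set (V → V)) := by
    ext Z
    constructor
    · intro hZ
      obtain ⟨Y, h1, h2, h3, h4⟩ := T19.surj H hZ
      exact ⟨Y, Finset.mem_coe.2 ((hmem Y).2 ⟨⟨h1, h2⟩, h3⟩), h4⟩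
    · rintro ⟨Y, hY, rfl⟩
      obtain ⟨⟨h1, h2⟩, h3⟩ := (hmem Y).1 (Finset.mem_coe.1 hY)
      exact ⟨T19.ZY_circuit H h1 h2 h3, rfl⟩
  rw [himg, Set.InjOn.ncard_image, Set.ncard_coe_finset]
  intro Y₁ hY₁ Y₂ hY₂ h
  obtain ⟨⟨h1, b1⟩, -⟩ := (hmem Y₁).1 (Finset.mem_coe.1 hY₁)
  obtain ⟨⟨h2, b2⟩, -⟩ := (hmem Y₂).1 (Finset.mem_coe.1 hY₂)
  exact T19.inj H h1 b1 h2 b2 h

end Pool.Agent.H416R3.BP
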