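import Pool.Agent.H416R3.BP.Defs
import Pool.Agent.H416R3.BP.T03
import Pool.Agent.H416R3.BP.T05
import Pool.Agent.H416R3.BP.T06
import Pool.Agent.H416R3.BP.T07

set_option autoImplicit false

namespace Pool.Agent.H416R3.BP.T20

open Finset Classical

theorem two_elems {α : Type*} {S : Set α} (hS : S.ncard = 2) {a b c : α} (ha : a ∈ S)
    (hb : b ∈ S) (hc : c ∈ S) (hac : a ≠ c) (hbc : b ≠ c) : a = b := by
  obtain ⟨p, q, hpq, rfl⟩ := Set.ncard_eq_two.1 hS
  simp only [Set.mem_insert_iff, Set.mem_singleton_iff] at ha hb hc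
  rcases ha with rfl | rfl <;> rcases hb with rfl | rfl <;> rcases hc with rfl | rfl <;>
    first | rfl | exact absurd rfl hac | exact absurd rfl hbc

theorem even_card_of_inv {α : Type*} (S : Finset α) (g : α → α) (h1 : ∀ a ∈ S, g a ∈ S)
    (h2 : ∀ a ∈ S, g a ≠ a) (h3 : ∀ a ∈ S, g (g a) = a) : Even S.card := by
  have h : ∑ _a ∈ S, (1 : ZMod 2) = 0 := by
    refine Finset.sum_involution (fun a _ => g a) ?_ ?_ ?_ ?_
    · intro a _
      exact CharTwo.add_self_eq_zero 1
    · intro a ha _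
      exact h2 a ha
    · intro a ha
      exact h1 a ha
    · intro a ha
      exact h3 a ha
  rw [Finset.sum_const, nsmul_eq_mul, mul_one] at h
  exact (ZMod.natCast_eq_zero_iff_even).1 h

section

variable {V : Type*} (H : Pole V)

theorem inner_e (t : Fin 5) : H.I (H.e t) := ⟨H.hex t, H.hev t, H.hey t⟩

theorem not_inner_x : ¬ H.I H.x := fun h => h.1 rfl
theorem not_inner_v : ¬ H.I H.v := fun h => h.2.1 rfl
theorem not_inner_y : ¬ H.I H.y := fun h => h.2.2 rfl

theorem cases_of_not_inner {u : V} (h : ¬ H.I u) : u = H.x ∨ u = H.v ∨ u = H.y := by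
  unfold Pole.I at h
  tauto

theorem mem_bd {p : V → V} {t : Fin 5} : t ∈ H.bd p ↔ p (H.e t) = H.z t := by
  simp [Pole.bd]

variable {H}
variable {X : V → V}

/-- the properties of `X` -/
structure PX (H : Pole V) (X : V → V) : Prop where
  one : H.OneF X
  h0 : X (H.e 0) ≠ H.x
  h1 : X (H.e 1) ≠ H.x
  h2 : X (H.e 2) = H.v
  h3 : X (H.e 3) ≠ H.y
  h4 : X (H.e 4) ≠ H.y

theorem px_of (h1 : H.OneF X) (hb : H.bd X = {2}) : PX H X := by
  have h : ∀ t, X (H.e t) = H.z t ↔ t = 2 := by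
    intro t
    rw [← mem_bd, hb, Finset.mem_singleton]
  refine ⟨h1, ?_, ?_, ?_, ?_, ?_⟩
  · intro h'
    have := (h 0).1 h'
    exact absurd this (by decide)
  · intro h'
    have := (h 1).1 h'
    exact absurd this (by decide)
  · exact (h 2).2 rfl
  · intro h'
    have := (h 3).1 h'
    exact absurd this (by decide)
  · intro h'
    have := (h 4).1 h'
    exact absurd this (by decide)

theorem adjI (hX : PX H X) {u : V} (hu : H.I u) (w : V) :
    (H.FG X).Adj u w ↔ H.G.Adj u w ∧ w ≠ X u := by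
  constructor
  · rintro ⟨h1, -, h3, -⟩
    exact ⟨h1, fun h => h3 hu h.symm⟩
  · rintro ⟨h1, h2⟩
    refine ⟨h1, Or.inl hu, fun _ h => h2 h.symm, fun hw h => h2 ?_⟩
    have h5 := (hX.one.2 w hw).2 (by rw [h]; exact hu)
    rw [h] at h5
    exact h5.symm

theorem adj_x (hX : PX H X) (w : V) : (H.FG X).Adj H.x w ↔ w = H.e 0 ∨ w = H.e 1 := by
  constructor
  · rintro ⟨h1, h2, -, -⟩
    rcases (H.adjx w).1 h1 with rfl | h | h
    · rcases h2 with h2 | h2
      · exact absurd h2 (not_inner_x H)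
      · exact absurd h2 (not_inner_v H)
    · exact Or.inl h
    · exact Or.inr h
  · rintro (rfl | rfl)
    · exact ⟨(H.adjx _).2 (Or.inr (Or.inl rfl)), Or.inr (inner_e H 0),
        fun h => absurd h (not_inner_x H), fun _ => hX.h0⟩
    · exact ⟨(H.adjx _).2 (Or.inr (Or.inr rfl)), Or.inr (inner_e H 1),
        fun h => absurd h (not_inner_x H), fun _ => hX.h1⟩

theorem adj_y (hX : PX H X) (w : V) : (H.FG X).Adj H.y w ↔ w = H.e 3 ∨ w = H.e 4 := by
  constructor
  · rintro ⟨h1, h2, -, -⟩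
    rcases (H.adjy w).1 h1 with rfl | h | h
    · rcases h2 with h2 | h2
      · exact absurd h2 (not_inner_y H)
      · exact absurd h2 (not_inner_v H)
    · exact Or.inl h
    · exact Or.inr h
  · rintro (rfl | rfl)
    · exact ⟨(H.adjy _).2 (Or.inr (Or.inl rfl)), Or.inr (inner_e H 3),
        fun h => absurd h (not_inner_y H), fun _ => hX.h3⟩
    · exact ⟨(H.adjy _).2 (Or.inr (Or.inr rfl)), Or.inr (inner_e H 4),
        fun h => absurd h (not_inner_y H), fun _ => hX.h4⟩

theorem adj_v (hX : PX H X) (w : V) : ¬ (H.FG X).Adj H.v w := by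
  rintro ⟨h1, h2, -, h4⟩
  rcases (H.adjv w).1 h1 with rfl | rfl | rfl
  · rcases h2 with h2 | h2
    · exact absurd h2 (not_inner_v H)
    · exact absurd h2 (not_inner_x H)
  · rcases h2 with h2 | h2
    · exact absurd h2 (not_inner_v H)
    · exact absurd h2 (not_inner_y H)
  · exact h4 (inner_e H 2) hX.h2

/-- `v` is isolated -/
theorem reach_v (hX : PX H X) {u : V} (h : (H.FG X).Reachable u H.v) : u = H.v := by
  by_contra hne
  obtain ⟨p⟩ := h.symm
  cases p with
  | nil => exact hne rfl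
  | cons h _ => exact adj_v hX _ h

theorem ncard_inner (hX : PX H X) {u : V} (hu : H.I u) :
    ((H.FG X).neighborSet u).ncard = 2 := by
  have h1 : (H.FG X).neighborSet u = H.G.neighborSet u \ {X u} := by
    ext w
    rw [SimpleGraph.mem_neighborSet, adjI hX hu]
    rfl
  have h2 : X u ∈ H.G.neighborSet u := (hX.one.2 u hu).1
  rw [h1, Set.ncard_sdiff_singleton_of_mem h2, H.deg3]

theorem ncard_x (hX : PX H X) : ((H.FG X).neighborSet H.x).ncard = 2 := by
  have h1 : (H.FG X).neighborSet H.x = {H.e 0, H.e 1} := by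
    ext w
    rw [SimpleGraph.mem_neighborSet, adj_x hX]
    rfl
  rw [h1, Set.ncard_pair H.he01]

theorem ncard_y (hX : PX H X) : ((H.FG X).neighborSet H.y).ncard = 2 := by
  have h1 : (H.FG X).neighborSet H.y = {H.e 3, H.e 4} := by
    ext w
    rw [SimpleGraph.mem_neighborSet, adj_y hX]
    rfl
  rw [h1, Set.ncard_pair H.he34]

theorem ncard_two (hX : PX H X) {u : V} (hu : u ≠ H.v) :
    ((H.FG X).neighborSet u).ncard = 2 := by
  by_cases h : H.I u
  · exact ncard_inner hX h
  · rcases cases_of_not_inner H h with rfl | rfl | rfl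
    · exact ncard_x hX
    · exact absurd rfl hu
    · exact ncard_y hX

/-- propagation -/
theorem propagate (hX : PX H X) {s s' : V → V} (hs : H.OneF s) (hs' : H.OneF s')
    (hd : ∀ u, H.I u → s u ≠ X u) (hd' : ∀ u, H.I u → s' u ≠ X u) {u w : V} (hu : H.I u)
    (hw : H.I w) (huw : (H.FG X).Adj u w) (h : s u = s' u) : s w = s' w := by
  by_cases hc : w = s u
  · have h1 := (hs.2 u hu).2 (by rw [← hc]; exact hw)
    have h2 := (hs'.2 u hu).2 (by rw [← h, ← hc]; exact hw)
    rw [← hc] at h1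
    rw [← h, ← hc] at h2
    rw [h1, h2]
  · have a1 : (H.FG X).Adj w (s w) := (adjI hX hw _).2 ⟨(hs.2 w hw).1, hd w hw⟩
    have a2 : (H.FG X).Adj w (s' w) := (adjI hX hw _).2 ⟨(hs'.2 w hw).1, hd' w hw⟩
    refine two_elems (ncard_inner hX hw) a1 a2 huw.symm ?_ ?_
    · intro h3
      have := (hs.2 w hw).2 (by rw [h3]; exact hu)
      rw [h3] at this
      exact hc this.symm
    · intro h3
      have := (hs'.2 w hw).2 (by rw [h3]; exact hu)
      rw [h3, ← h] at this
      exact hc this.symm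

/-- closed sets contain everything reachable -/
theorem closed_reach {F : SimpleGraph V} {A : V → Prop} (hA : ∀ u w, A u → F.Adj u w → A w)
    {a b : V} (ha : A a) (h : F.Reachable a b) : A b := by
  obtain ⟨p⟩ := h
  induction p with
  | nil => exact ha
  | cons hadj _ ih => exact ih (hA _ _ ha hadj)

/-- the properties of an element of `S X {p, 3, 4}` -/
structure PS (H : Pole V) (X : V → V) (p q : Fin 5) (s : V → V) : Prop where
  one : H.OneF s
  dis : ∀ u, H.I u → s u ≠ X u
  hp : s (H.e p) = H.x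
  hq : s (H.e q) ≠ H.x
  h3 : s (H.e 3) = H.y
  h4 : s (H.e 4) = H.y

theorem PS.adj (hX : PX H X) {p q : Fin 5} {s : V → V} (hs : PS H X p q s) {u : V}
    (hu : H.I u) : (H.FG X).Adj u (s u) :=
  (adjI hX hu _).2 ⟨(hs.one.2 u hu).1, hs.dis u hu⟩

theorem agree (hX : PX H X) {p q : Fin 5}
    (hpq : ∀ w, (H.FG X).Adj H.x w ↔ w = H.e p ∨ w = H.e q) {s s' : V → V}
    (hs : PS H X p q s) (hs' : PS H X p q s')
    (hr : ∀ u, u ≠ H.v → (H.FG X).Reachable H.x u ∨ (H.FG X).Reachable H.y u) : s = s' := by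
  have hq : s (H.e q) = s' (H.e q) := by
    have hax : (H.FG X).Adj (H.e q) H.x := ((hpq _).2 (Or.inr rfl)).symm
    exact two_elems (ncard_inner hX (inner_e H q)) (hs.adj hX (inner_e H q))
      (hs'.adj hX (inner_e H q)) hax hs.hq hs'.hq
  have hA : ∀ u w, (H.I u → s u = s' u) → (H.FG X).Adj u w → (H.I w → s w = s' w) := by
    intro u w h huw hw
    by_cases hu : H.I u
    · exact propagate hX hs.one hs'.one hs.dis hs'.dis hu hw huw (h hu)
    · rcases cases_of_not_inner H hu with rfl | rfl | rfl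
      · rcases (hpq _).1 huw with rfl | rfl
        · rw [hs.hp, hs'.hp]
        · exact hq
      · exact absurd huw (adj_v hX _)
      · rcases (adj_y hX _).1 huw with rfl | rfl
        · rw [hs.h3, hs'.h3]
        · rw [hs.h4, hs'.h4]
  funext u
  by_cases hu : H.I u
  · rcases hr u hu.2.1 with h | h
    · exact closed_reach (A := fun u => H.I u → s u = s' u) hA
        (fun h => absurd h (not_inner_x H)) h hu
    · exact closed_reach (A := fun u => H.I u → s u = s' u) hA
        (fun h => absurd h (not_inner_y H)) h hu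
  · rw [hs.one.1 u hu, hs'.one.1 u hu]

theorem not_reach (hX : PX H X) {p q : Fin 5}
    (hpq : ∀ w, (H.FG X).Adj H.x w ↔ w = H.e p ∨ w = H.e q) {s s' : V → V}
    (hs : PS H X p q s) (hs' : PS H X q p s') : ¬ (H.FG X).Reachable H.x H.y := by
  intro h
  have hA : ∀ u w, (u = H.y ∨ (H.I u ∧ s u = s' u)) → (H.FG X).Adj u w →
      (w = H.y ∨ (H.I w ∧ s w = s' w)) := by
    rintro u w (rfl | ⟨hu, hsu⟩) huw
    · rcases (adj_y hX _).1 huw with rfl | rfl
      · exact Or.inr ⟨inner_e H 3, by rw [hs.h3, hs'.h3]⟩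
      · exact Or.inr ⟨inner_e H 4, by rw [hs.h4, hs'.h4]⟩
    · by_cases hw : H.I w
      · exact Or.inr ⟨hw, propagate hX hs.one hs'.one hs.dis hs'.dis hu hw huw hsu⟩
      · rcases cases_of_not_inner H hw with rfl | rfl | rfl
        · exfalso
          rcases (hpq _).1 huw.symm with rfl | rfl
          · rw [hs.hp] at hsu
            exact hs'.hq hsu.symm
          · rw [hs'.hp] at hsu
            exact hs.hq hsu
        · exact absurd huw.symm (adj_v hX _)
        · exact Or.inl rfl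
  rcases closed_reach (A := fun u => u = H.y ∨ (H.I u ∧ s u = s' u)) hA (Or.inl rfl) h.symm
    with h | h
  · exact H.hxy h
  · exact not_inner_x H h.1

theorem even_cx [Fintype V] (hX : PX H X) {p q : Fin 5}
    (hpq : ∀ w, (H.FG X).Adj H.x w ↔ w = H.e p ∨ w = H.e q) {s : V → V}
    (hs : PS H X p q s) (hxy : ¬ (H.FG X).Reachable H.x H.y) :
    Even ({u | (H.FG X).Reachable H.x u}.ncard) := by
  rw [Set.ncard_eq_toFinset_card']
  have hmem : ∀ u, u ∈ ({u | (H.FG X).Reachable H.x u} : Set V).toFinset ↔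
      (H.FG X).Reachable H.x u := fun u => by simp
  have hin : ∀ u, (H.FG X).Reachable H.x u → u ≠ H.x → H.I u := by
    intro u hu hux
    refine ⟨hux, ?_, ?_⟩
    · rintro rfl
      exact H.hxv (reach_v hX hu)
    · rintro rfl
      exact hxy hu
  refine even_card_of_inv _ (fun u => if u = H.x then H.e p else s u) ?_ ?_ ?_
  · intro u hu
    rw [hmem] at hu ⊢
    by_cases h : u = H.x
    · rw [if_pos h]
      exact ((hpq _).2 (Or.inl rfl)).reachable
    · rw [if_neg h]
      exact hu.trans (hs.adj hX (hin u hu h)).reachable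
  · intro u hu
    rw [hmem] at hu
    by_cases h : u = H.x
    · simp only [if_pos h]
      rw [h]
      exact H.hex p
    · simp only [if_neg h]
      exact (hs.adj hX (hin u hu h)).ne.symm
  · intro u hu
    rw [hmem] at hu
    by_cases h : u = H.x
    · simp only [if_pos h, if_neg (H.hex p)]
      rw [hs.hp, h]
    · simp only [if_neg h]
      have hui := hin u hu h
      have ha := hs.adj hX hui
      by_cases h5 : s u = H.x
      · rw [if_pos h5]
        rw [h5] at ha
        rcases (hpq _).1 ha.symm with h6 | h6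
        · exact h6.symm
        · rw [h6] at h5
          exact absurd h5 hs.hq
      · rw [if_neg h5]
        exact (hs.one.2 u hui).2 (hin _ (hu.trans ha.reachable) h5)

end

section

variable {V : Type*} [Fintype V] {H : Pole V} {X : V → V}

theorem even_V (H : Pole V) : Even (Fintype.card V) := by
  have h := H.G.sum_degrees_eq_twice_card_edges
  have h3 : ∀ u, H.G.degree u = 3 := by
    intro u
    rw [← H.deg3 u, ← SimpleGraph.card_neighborSet_eq_degree, Set.ncard_eq_toFinset_card',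
      Set.toFinset_card]
  simp only [h3, Finset.sum_const, smul_eq_mul, Finset.card_univ] at h
  have : Even (Fintype.card V * 3) := ⟨#H.G.edgeFinset, by rw [h]; ring⟩
  rcases Nat.even_mul.1 this with h | h
  · exact h
  · exact absurd h (by decide)

theorem mem_S_iff {p q : Fin 5} (hpq : (p = 1 ∧ q = 0) ∨ (p = 0 ∧ q = 1)) (hX : PX H X)
    {s : V → V} : s ∈ H.S X {p, 3, 4} ↔ PS H X p q s := by
  unfold Pole.S
  rw [Finset.mem_filter]
  constructor
  · rintro ⟨-, h1, h2, h3⟩
    have h : ∀ t, s (H.e t) = H.z t ↔ t ∈ ({p, 3, 4} : Finset (Fin 5)) := by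
      intro t
      rw [← mem_bd, h2]
    rcases hpq with ⟨rfl, rfl⟩ | ⟨rfl, rfl⟩
    · refine ⟨h1, h3, (h 1).2 (by decide), fun h' => ?_, (h 3).2 (by decide),
        (h 4).2 (by decide)⟩
      exact absurd ((h 0).1 h') (by decide)
    · refine ⟨h1, h3, (h 0).2 (by decide), fun h' => ?_, (h 3).2 (by decide),
        (h 4).2 (by decide)⟩
      exact absurd ((h 1).1 h') (by decide)
  · intro hs
    refine ⟨mem_univ _, hs.one, ?_, hs.dis⟩
    ext t
    rw [mem_bd]
    have h2 : s (H.e 2) ≠ H.v := by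
      intro h'
      have := hs.adj hX (inner_e H 2)
      rw [h'] at this
      exact adj_v hX _ this.symm
    rcases hpq with ⟨rfl, rfl⟩ | ⟨rfl, rfl⟩
    · fin_cases t
      · exact ⟨fun h => absurd h hs.hq, fun h => absurd h (by decide)⟩
      · exact ⟨fun _ => by decide, fun _ => hs.hp⟩
      · exact ⟨fun h => absurd h h2, fun h => absurd h (by decide)⟩
      · exact ⟨fun _ => by decide, fun _ => hs.h3⟩
      · exact ⟨fun _ => by decide, fun _ => hs.h4⟩
    · fin_cases t
      · exact ⟨fun _ => by decide, fun _ => hs.hp⟩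
      · exact ⟨fun h => absurd h hs.hq, fun h => absurd h (by decide)⟩
      · exact ⟨fun h => absurd h h2, fun h => absurd h (by decide)⟩
      · exact ⟨fun _ => by decide, fun _ => hs.h3⟩
      · exact ⟨fun _ => by decide, fun _ => hs.h4⟩

theorem exists_ps (hX : PX H X) {p q : Fin 5} (hne : H.e p ≠ H.e q)
    (hpq : ∀ w, (H.FG X).Adj H.x w ↔ w = H.e p ∨ w = H.e q)
    (hxy : ¬ (H.FG X).Reachable H.x H.y)
    (hr : ∀ u, u ≠ H.v → (H.FG X).Reachable H.x u ∨ (H.FG X).Reachable H.y u)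
    (hev : Even ({u | (H.FG X).Reachable H.x u}.ncard)) : ∃ s, PS H X p q s := by
  obtain ⟨g, hg1, hg2, hg3⟩ := alt_exists (H.FG X) H.x (H.e p) (H.e q) hne hpq
    (fun u hu => ncard_two hX (by rintro rfl; exact H.hxv (reach_v hX hu)))
  obtain ⟨g', hg1', hg2', hg3'⟩ := alt_exists (H.FG X) H.y (H.e 3) (H.e 4) H.he34
    (adj_y hX) (fun u hu => ncard_two hX (by rintro rfl; exact H.hyv (reach_v hX hu)))
  have hodd : Odd ({u | (H.FG X).Reachable H.y u}.ncard) := by
    have h1 : ({u | (H.FG X).Reachable H.x u} ∪ {u | (H.FG X).Reachable H.y u} : Set V) =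
        {H.v}ᶜ := by
      ext u
      simp only [Set.mem_union, Set.mem_ofPred_eq, Set.mem_compl_iff, Set.mem_singleton_iff]
      constructor
      · rintro (h | h) rfl
        · exact H.hxv (reach_v hX h)
        · exact H.hyv (reach_v hX h)
      · exact hr u
    have h2 : Disjoint {u | (H.FG X).Reachable H.x u} {u | (H.FG X).Reachable H.y u} := by
      rw [Set.disjoint_left]
      intro u h h'
      exact hxy (h.trans h'.symm)
    have h3 := Set.ncard_union_eq h2
    rw [h1, Set.ncard_compl, Set.ncard_singleton, Nat.card_eq_fintype_card] at h3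
    obtain ⟨a, ha⟩ := even_V H
    obtain ⟨b, hb⟩ := hev
    have hpos : 0 < Fintype.card V := Fintype.card_pos_iff.2 ⟨H.v⟩
    rw [← Nat.not_even_iff_odd]
    rintro ⟨c, hc⟩
    omega
  have hgq : g (H.e q) ≠ H.x := fun h => (Nat.not_odd_iff_even.2 hev) (hg3.1 h)
  have hg4 : g' (H.e 4) = H.y := hg3'.2 hodd
  have hRp : (H.FG X).Reachable H.x (H.e p) := ((hpq _).2 (Or.inl rfl)).reachable
  have hRq : (H.FG X).Reachable H.x (H.e q) := ((hpq _).2 (Or.inr rfl)).reachable
  have hR3 : ¬ (H.FG X).Reachable H.x (H.e 3) := fun h =>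
    hxy (h.trans (((adj_y hX _).2 (Or.inl rfl)).reachable).symm)
  have hR4 : ¬ (H.FG X).Reachable H.x (H.e 4) := fun h =>
    hxy (h.trans (((adj_y hX _).2 (Or.inr rfl)).reachable).symm)
  let s : V → V := fun u => if H.I u then (if (H.FG X).Reachable H.x u then g u else g' u) else u
  have hs1 : ∀ u, H.I u → (H.FG X).Reachable H.x u → s u = g u := by
    intro u hu h
    simp only [s, if_pos hu, if_pos h]
  have hs2 : ∀ u, H.I u → ¬ (H.FG X).Reachable H.x u → s u = g' u := by
    intro u hu h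
    simp only [s, if_pos hu, if_neg h]
  have hadj : ∀ u, H.I u → (H.FG X).Adj u (s u) := by
    intro u hu
    by_cases h : (H.FG X).Reachable H.x u
    · rw [hs1 u hu h]
      exact (hg1 u h hu.1).1
    · rw [hs2 u hu h]
      exact (hg1' u ((hr u hu.2.1).resolve_left h) hu.2.2).1
  refine ⟨s, ⟨?_, ?_⟩, ?_, ?_, ?_, ?_, ?_⟩
  · intro u hu
    simp only [s, if_neg hu]
  · intro u hu
    refine ⟨(hadj u hu).1, fun hi => ?_⟩
    by_cases h : (H.FG X).Reachable H.x u
    · have ha := (hadj u hu).reachable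
      have h' : (H.FG X).Reachable H.x (s u) := h.trans ha
      rw [hs1 _ hi h']
      rw [hs1 _ hu h] at hi ⊢
      exact (hg1 u h hu.1).2 hi.1
    · have ha := (hadj u hu).reachable
      have h' : ¬ (H.FG X).Reachable H.x (s u) := fun h'' => h (h''.trans ha.symm)
      rw [hs2 _ hi h']
      rw [hs2 _ hu h] at hi ⊢
      exact (hg1' u ((hr u hu.2.1).resolve_left h) hu.2.2).2 hi.2.2
  · intro u hu
    exact ((adjI hX hu _).1 (hadj u hu)).2
  · rw [hs1 _ (inner_e H p) hRp, hg2]
  · rw [hs1 _ (inner_e H q) hRq]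
    exact hgq
  · rw [hs2 _ (inner_e H 3) hR3, hg2']
  · rw [hs2 _ (inner_e H 4) hR4, hg4]

theorem card_one {p q : Fin 5} (hpq' : (p = 1 ∧ q = 0) ∨ (p = 0 ∧ q = 1)) (hX : PX H X)
    (hne : H.e p ≠ H.e q)
    (hpq : ∀ w, (H.FG X).Adj H.x w ↔ w = H.e p ∨ w = H.e q)
    (hxy : ¬ (H.FG X).Reachable H.x H.y)
    (hr : ∀ u, u ≠ H.v → (H.FG X).Reachable H.x u ∨ (H.FG X).Reachable H.y u)
    (hev : Even ({u | (H.FG X).Reachable H.x u}.ncard)) : (H.S X {p, 3, 4}).card = 1 := by
  obtain ⟨s, hs⟩ := exists_ps hX hne hpq hxy hr hev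
  rw [Finset.card_eq_one]
  refine ⟨s, ?_⟩
  ext s'
  rw [mem_S_iff hpq' hX, Finset.mem_singleton]
  constructor
  · intro hs'
    exact agree hX hpq hs' hs hr
  · rintro rfl
    exact hs

theorem even_other (hX : PX H X) (hb : H.bd X = {2}) {u1 : V} (hu1 : u1 ≠ H.v)
    (h1 : ¬ (H.FG X).Reachable H.x u1) (h2 : ¬ (H.FG X).Reachable H.y u1) :
    Even (H.S X {1, 3, 4}).card := by
  obtain ⟨C, hCd⟩ : ∃ C : Set V, ∀ u, u ∈ C ↔ (H.FG X).Reachable u1 u :=
    ⟨{u | (H.FG X).Reachable u1 u}, fun u => Iff.rfl⟩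
  have hCx : ∀ t : Fin 5, (t = 0 ∨ t = 1) → H.e t ∉ C := by
    intro t ht hc
    rw [hCd] at hc
    have : (H.FG X).Adj H.x (H.e t) := (adj_x hX _).2 (by rcases ht with rfl | rfl <;> simp)
    exact h1 (this.reachable.trans hc.symm)
  have hCy : ∀ t : Fin 5, (t = 3 ∨ t = 4) → H.e t ∉ C := by
    intro t ht hc
    rw [hCd] at hc
    have : (H.FG X).Adj H.y (H.e t) := (adj_y hX _).2 (by rcases ht with rfl | rfl <;> simp)
    exact h2 (this.reachable.trans hc.symm)
  have hu1i : H.I u1 := by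
    refine ⟨?_, hu1, ?_⟩
    · rintro rfl
      exact h1 (SimpleGraph.Reachable.refl _)
    · rintro rfl
      exact h2 (SimpleGraph.Reachable.refl _)
  have hC : ∀ u w, H.I u → H.I w → H.G.Adj u w → w ≠ X u → u ∈ C → w ∈ C := by
    intro u w hu _ huw hwX huC
    rw [hCd] at huC ⊢
    exact huC.trans ((adjI hX hu w).2 ⟨huw, hwX⟩).reachable
  have hσ : ∀ t, t ∈ ({1, 3, 4} : Finset (Fin 5)) ↔
      (if H.e t ∈ C then (t ∉ ({1, 3, 4} : Finset (Fin 5)) ∧ t ∉ H.bd X)
        else t ∈ ({1, 3, 4} : Finset (Fin 5))) := by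
    intro t
    by_cases ht : H.e t ∈ C
    · rw [if_pos ht, hb]
      fin_cases t
      · exact absurd ht (hCx _ (Or.inl rfl))
      · exact absurd ht (hCx _ (Or.inr rfl))
      · decide
      · exact absurd ht (hCy _ (Or.inl rfl))
      · exact absurd ht (hCy _ (Or.inr rfl))
    · rw [if_neg ht]
  refine even_card_of_inv _ (fun s => H.fl X s C) ?_ ?_ ?_
  · intro s hs
    exact (fl_mem H hX.one hs C hC hσ).1
  · intro s hs h
    have hd := (Finset.mem_filter.1 hs).2.2.2
    have hone := (Finset.mem_filter.1 hs).2.1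
    have h5 := congrFun h u1
    have hmem : u1 ∈ C := (hCd _).2 (SimpleGraph.Reachable.refl _)
    simp only [Pole.fl, if_pos hmem] at h5
    exact (co_spec H hX.one hone hd hu1i).2.2.1 h5
  · intro s hs
    exact (fl_mem H hX.one hs C hC hσ).2

end

end Pool.Agent.H416R3.BP.T20

namespace Pool.Agent.H416R3.BP

open Finset Classical T20

variable {V : Type*} [Fintype V] (H : Pole V)

/-- T20 -/
theorem two_local {X : V → V} (hX : X ∈ H.F1 {2}) :
    ((H.S X {1, 3, 4}).card * (H.S X {0, 3, 4}).card) % 2 =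
      if (¬ (H.FG X).Reachable H.x H.y ∧
        (∀ u, u ≠ H.v → (H.FG X).Reachable H.x u ∨ (H.FG X).Reachable H.y u) ∧
        Even ({u | (H.FG X).Reachable H.x u}.ncard)) then 1 else 0 := by
  have hXm := (Finset.mem_filter.1 hX).2
  have hP : PX H X := px_of hXm.1 hXm.2
  have a10 : ∀ w, (H.FG X).Adj H.x w ↔ w = H.e 1 ∨ w = H.e 0 := fun w => by
    rw [adj_x hP, or_comm]
  have a01 : ∀ w, (H.FG X).Adj H.x w ↔ w = H.e 0 ∨ w = H.e 1 := adj_x hP
  by_cases hc : (¬ (H.FG X).Reachable H.x H.y ∧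
        (∀ u, u ≠ H.v → (H.FG X).Reachable H.x u ∨ (H.FG X).Reachable H.y u) ∧
        Even ({u | (H.FG X).Reachable H.x u}.ncard))
  · rw [if_pos hc]
    obtain ⟨c1, c2, c3⟩ := hc
    rw [card_one (p := 1) (q := 0) (Or.inl ⟨rfl, rfl⟩) hP H.he01.symm a10 c1 c2 c3,
      card_one (p := 0) (q := 1) (Or.inr ⟨rfl, rfl⟩) hP H.he01 a01 c1 c2 c3]
  · rw [if_neg hc]
    rcases (H.S X {1, 3, 4}).eq_empty_or_nonempty with h1 | ⟨s, hs⟩
    · rw [h1]; simp
    rcases (H.S X {0, 3, 4}).eq_empty_or_nonempty with h2 | ⟨s', hs'⟩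
    · rw [h2]; simp
    have hs2 := (mem_S_iff (p := 1) (q := 0) (Or.inl ⟨rfl, rfl⟩) hP).1 hs
    have hs2' := (mem_S_iff (p := 0) (q := 1) (Or.inr ⟨rfl, rfl⟩) hP).1 hs'
    have c1 := not_reach hP a10 hs2 hs2'
    have c3 := even_cx hP a10 hs2 c1
    have c2 : ¬ ∀ u, u ≠ H.v → (H.FG X).Reachable H.x u ∨ (H.FG X).Reachable H.y u :=
      fun c2 => hc ⟨c1, c2, c3⟩
    push Not at c2
    obtain ⟨u1, hu1, h5, h6⟩ := c2
    have := even_other hP hXm.2 hu1 h5 h6
    exact Nat.even_iff.1 (this.mul_right _)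

end Pool.Agent.H416R3.BP
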