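import Pool.Agent.H416R3.BP.Defs

set_option autoImplicit false
set_option linter.unusedSectionVars false

/-! T21: pairs of circuits versus near perfect matchings with boundary `{2}`. -/

namespace Pool.Agent.H416R3.BP

open Finset Classical

namespace T21

/-- the component of `a` in a spanning subgraph, as a subgraph -/
def comp {V : Type*} {G F : SimpleGraph V} (hF : F ≤ G) (a : V) : G.Subgraph where
  verts := {u | F.Reachable a u}
  Adj u w := F.Adj u w ∧ F.Reachable a u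
  adj_sub := fun h => hF h.1
  edge_vert := fun h => h.2
  symm := ⟨fun _ _ h => ⟨h.1.symm, h.2.trans h.1.reachable⟩⟩

theorem comp_conn {V : Type*} {G F : SimpleGraph V} (hF : F ≤ G) (a : V) :
    (comp hF a).Connected := by
  have key : ∀ u (h : F.Reachable a u), (comp hF a).coe.Reachable ⟨a, SimpleGraph.Reachable.refl a⟩ ⟨u, h⟩ := by
    intro u h
    have h' := (SimpleGraph.reachable_iff_reflTransGen a u).1 h
    induction h' with
    | refl => exact SimpleGraph.Reachable.refl _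
    | tail hab hbc ih =>
      rename_i b c
      have hb : F.Reachable a b := (SimpleGraph.reachable_iff_reflTransGen a b).2 hab
      refine (ih hb).trans (SimpleGraph.Adj.reachable ?_)
      show (comp hF a).Adj b c
      exact ⟨hbc, hb⟩
  rw [SimpleGraph.Subgraph.connected_iff']
  have : Nonempty (comp hF a).verts := ⟨⟨a, SimpleGraph.Reachable.refl a⟩⟩
  refine ⟨fun u w => ?_⟩
  exact (key u.1 u.2).symm.trans (key w.1 w.2)

theorem reach_closed {V : Type*} {F : SimpleGraph V} {S : Set V} {a : V} (ha : a ∈ S)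
    (hS : ∀ u w, F.Adj u w → u ∈ S → w ∈ S) {u : V} (h : F.Reachable a u) : u ∈ S := by
  have h' := (SimpleGraph.reachable_iff_reflTransGen a u).1 h
  induction h' with
  | refl => exact ha
  | tail hab hbc ih =>
    exact hS _ _ hbc (ih ((SimpleGraph.reachable_iff_reflTransGen a _).2 hab))

theorem sub_reach {V : Type*} {G F : SimpleGraph V} {Z : G.Subgraph} (hZ : Z.Connected)
    (hF : ∀ u w, Z.Adj u w → F.Adj u w) {a u : V} (ha : a ∈ Z.verts) (hu : u ∈ Z.verts) :
    F.Reachable a u := by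
  have h1 := (SimpleGraph.Subgraph.connected_iff'.1 hZ).preconnected ⟨a, ha⟩ ⟨u, hu⟩
  have f : Z.coe →g F := ⟨fun p => p.1, fun {p q} h => hF _ _ h⟩
  have h2 : ∀ p q : Z.verts, Z.coe.Reachable p q → F.Reachable p.1 q.1 := by
    intro p q h
    have h' := (SimpleGraph.reachable_iff_reflTransGen p q).1 h
    induction h' with
    | refl => exact SimpleGraph.Reachable.refl _
    | tail hab hbc ih =>
      refine (ih ((SimpleGraph.reachable_iff_reflTransGen p _).2 hab)).trans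
        (SimpleGraph.Adj.reachable (hF _ _ hbc))
  exact h2 _ _ h1

variable {V : Type*} (H : Pole V)

theorem inner_e (t : Fin 5) : H.I (H.e t) := ⟨H.hex t, H.hev t, H.hey t⟩

theorem z_adj (t : Fin 5) : H.G.Adj (H.e t) (H.z t) := by
  fin_cases t
  · exact ((H.adjx _).2 (Or.inr (Or.inl rfl))).symm
  · exact ((H.adjx _).2 (Or.inr (Or.inr rfl))).symm
  · exact ((H.adjv _).2 (Or.inr (Or.inr rfl))).symm
  · exact ((H.adjy _).2 (Or.inr (Or.inl rfl))).symm
  · exact ((H.adjy _).2 (Or.inr (Or.inr rfl))).symm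

theorem FG_le (X : V → V) : H.FG X ≤ H.G := fun _ _ h => h.1

theorem FG_inner {X : V → V} (hX : H.OneF X) {u : V} (hu : H.I u) (w : V) :
    (H.FG X).Adj u w ↔ H.G.Adj u w ∧ w ≠ X u := by
  constructor
  · intro h
    exact ⟨h.1, fun e => h.2.2.1 hu e.symm⟩
  · rintro ⟨h, hw⟩
    refine ⟨h, Or.inl hu, fun _ e => hw e.symm, fun hwi e => ?_⟩
    have h1 := (hX.2 w hwi).2 (by rw [e]; exact hu)
    rw [e] at h1
    exact hw h1.symm

variable [Fintype V]

theorem FG_deg {X : V → V} (hX : H.OneF X) {u : V} (hu : H.I u) :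
    ((H.FG X).neighborSet u).ncard = 2 := by
  have h1 : (H.FG X).neighborSet u = H.G.neighborSet u \ {X u} := by
    ext w
    simp only [SimpleGraph.mem_neighborSet, Set.mem_sdiff, Set.mem_singleton_iff]
    exact FG_inner H hX hu w
  have hm : X u ∈ H.G.neighborSet u := (hX.2 u hu).1
  rw [h1, Set.ncard_sdiff_singleton_of_mem hm, H.deg3]

theorem bd_iff {X : V → V} (hb : H.bd X = {2}) (t : Fin 5) : X (H.e t) = H.z t ↔ t = 2 := by
  have : t ∈ H.bd X ↔ t ∈ ({2} : Finset (Fin 5)) := by rw [hb]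
  simpa [Pole.bd] using this

theorem FG_x {X : V → V} (hb : H.bd X = {2}) (w : V) :
    (H.FG X).Adj H.x w ↔ w = H.e 0 ∨ w = H.e 1 := by
  constructor
  · intro h
    rcases (H.adjx w).1 h.1 with h1 | h1 | h1
    · exfalso
      rcases h.2.1 with h2 | h2
      · exact h2.1 rfl
      · exact h2.2.1 h1
    · exact Or.inl h1
    · exact Or.inr h1
  · intro h
    rcases h with rfl | rfl
    · refine ⟨(H.adjx _).2 (Or.inr (Or.inl rfl)), Or.inr (inner_e H 0), fun h => absurd rfl h.1,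
        fun _ h => ?_⟩
      exact absurd ((bd_iff H hb 0).1 h) (by decide)
    · refine ⟨(H.adjx _).2 (Or.inr (Or.inr rfl)), Or.inr (inner_e H 1), fun h => absurd rfl h.1,
        fun _ h => ?_⟩
      exact absurd ((bd_iff H hb 1).1 h) (by decide)

theorem FG_y {X : V → V} (hb : H.bd X = {2}) (w : V) :
    (H.FG X).Adj H.y w ↔ w = H.e 3 ∨ w = H.e 4 := by
  constructor
  · intro h
    rcases (H.adjy w).1 h.1 with h1 | h1 | h1
    · exfalso
      rcases h.2.1 with h2 | h2
      · exact h2.2.2 rfl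
      · exact h2.2.1 h1
    · exact Or.inl h1
    · exact Or.inr h1
  · intro h
    rcases h with rfl | rfl
    · refine ⟨(H.adjy _).2 (Or.inr (Or.inl rfl)), Or.inr (inner_e H 3), fun h => absurd rfl h.2.2,
        fun _ h => ?_⟩
      exact absurd ((bd_iff H hb 3).1 h) (by decide)
    · refine ⟨(H.adjy _).2 (Or.inr (Or.inr rfl)), Or.inr (inner_e H 4), fun h => absurd rfl h.2.2,
        fun _ h => ?_⟩
      exact absurd ((bd_iff H hb 4).1 h) (by decide)

theorem FG_v {X : V → V} (hb : H.bd X = {2}) (w : V) : ¬ (H.FG X).Adj H.v w := by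
  intro h
  rcases (H.adjv w).1 h.1 with h1 | h1 | h1
  · rcases h.2.1 with h2 | h2
    · exact h2.2.1 rfl
    · exact h2.1 h1
  · rcases h.2.1 with h2 | h2
    · exact h2.2.1 rfl
    · exact h2.2.2 h1
  · subst h1
    exact h.2.2.2 (inner_e H 2) ((bd_iff H hb 2).2 rfl)

theorem deg {X : V → V} (hX : H.OneF X) (hb : H.bd X = {2}) {u : V} (hu : u ≠ H.v) :
    ((H.FG X).neighborSet u).ncard = 2 := by
  by_cases hx : u = H.x
  · subst hx
    have : (H.FG X).neighborSet H.x = {H.e 0, H.e 1} := by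
      ext w
      simp only [SimpleGraph.mem_neighborSet, Set.mem_insert_iff, Set.mem_singleton_iff]
      exact FG_x H hb w
    rw [this, Set.ncard_pair H.he01]
  by_cases hy : u = H.y
  · subst hy
    have : (H.FG X).neighborSet H.y = {H.e 3, H.e 4} := by
      ext w
      simp only [SimpleGraph.mem_neighborSet, Set.mem_insert_iff, Set.mem_singleton_iff]
      exact FG_y H hb w
    rw [this, Set.ncard_pair H.he34]
  · exact FG_deg H hX ⟨hx, hu, hy⟩

theorem not_reach_v {X : V → V} (hb : H.bd X = {2}) {a : V} (ha : a ≠ H.v) :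
    ¬ (H.FG X).Reachable a H.v := by
  intro h
  have := reach_closed (F := H.FG X) (S := {u | u ≠ H.v}) ha (fun u w huw _ hw => by
    subst hw
    exact FG_v H hb u huw.symm) h
  exact this rfl

/-- the condition on `X` -/
def Cnd (X : V → V) : Prop := ¬ (H.FG X).Reachable H.x H.y ∧
  (∀ u, u ≠ H.v → (H.FG X).Reachable H.x u ∨ (H.FG X).Reachable H.y u) ∧
  Even ({u | (H.FG X).Reachable H.x u}.ncard)

/-- the forward map -/
def fwd (X : V → V) : H.G.Subgraph × H.G.Subgraph :=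
  (comp (FG_le H X) H.x, comp (FG_le H X) H.y)

theorem circ {X : V → V} (hX : H.OneF X) (hb : H.bd X = {2}) {a : V} (ha : a ≠ H.v) :
    IsCircuit (comp (FG_le H X) a) := by
  refine ⟨comp_conn _ a, fun u hu => ?_⟩
  have hr : (H.FG X).Reachable a u := hu
  have huv : u ≠ H.v := fun e => not_reach_v H hb ha (e ▸ hr)
  have : (comp (FG_le H X) a).neighborSet u = (H.FG X).neighborSet u := by
    ext w
    show ((H.FG X).Adj u w ∧ (H.FG X).Reachable a u) ↔ (H.FG X).Adj u w
    exact ⟨fun h => h.1, fun h => ⟨h, hr⟩⟩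
  rw [this]
  exact deg H hX hb huv

theorem fwd_mem {X : V → V} (hX : H.OneF X) (hb : H.bd X = {2}) (hc : Cnd H X) :
    fwd H X ∈ twoSet H.G H.v H.x H.y := by
  refine ⟨circ H hX hb H.hxv, circ H hX hb H.hyv, ?_, ?_, SimpleGraph.Reachable.refl _,
    SimpleGraph.Reachable.refl _, hc.2.2⟩
  · rw [Set.disjoint_left]
    intro u hu hu'
    have h1 : (H.FG X).Reachable H.x u := hu
    have h2 : (H.FG X).Reachable H.y u := hu'
    exact hc.1 (h1.trans h2.symm)
  · ext u
    constructor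
    · rintro (hu | hu) e
      · have h1 : (H.FG X).Reachable H.x u := hu
        rw [Set.mem_singleton_iff] at e
        exact not_reach_v H hb H.hxv (e ▸ h1)
      · have h1 : (H.FG X).Reachable H.y u := hu
        rw [Set.mem_singleton_iff] at e
        exact not_reach_v H hb H.hyv (e ▸ h1)
    · intro hu
      exact hc.2.1 u hu

theorem fwd_inj {X X' : V → V} (hX : H.OneF X) (hc : Cnd H X) (hX' : H.OneF X')
    (h : fwd H X = fwd H X') : X = X' := by
  have h1 : comp (FG_le H X) H.x = comp (FG_le H X') H.x := congrArg Prod.fst h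
  have h2 : comp (FG_le H X) H.y = comp (FG_le H X') H.y := congrArg Prod.snd h
  funext u
  by_cases hu : H.I u
  · by_contra hne
    have ha : (H.FG X').Adj u (X u) := (FG_inner H hX' hu _).2 ⟨(hX.2 u hu).1, hne⟩
    have hn : ¬ (H.FG X).Adj u (X u) := fun h => ((FG_inner H hX hu _).1 h).2 rfl
    rcases hc.2.1 u hu.2.1 with hr | hr
    · have hr' : u ∈ (comp (FG_le H X) H.x).verts := hr
      rw [h1] at hr'
      have : (comp (FG_le H X') H.x).Adj u (X u) := ⟨ha, hr'⟩
      rw [← h1] at this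
      exact hn this.1
    · have hr' : u ∈ (comp (FG_le H X) H.y).verts := hr
      rw [h2] at hr'
      have : (comp (FG_le H X') H.y).Adj u (X u) := ⟨ha, hr'⟩
      rw [← h2] at this
      exact hn this.1
  · rw [hX.1 u hu, hX'.1 u hu]

section inv

variable {H} {Z : H.G.Subgraph × H.G.Subgraph} (hZ : Z ∈ twoSet H.G H.v H.x H.y)

include hZ

theorem mem_or {u : V} (hu : u ≠ H.v) : u ∈ Z.1.verts ∨ u ∈ Z.2.verts := by
  have : u ∈ Z.1.verts ∪ Z.2.verts := by rw [hZ.2.2.2.1]; exact hu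
  exact this

theorem v_not1 : H.v ∉ Z.1.verts := fun h => by
  have : H.v ∈ Z.1.verts ∪ Z.2.verts := Or.inl h
  rw [hZ.2.2.2.1] at this
  exact this rfl

theorem v_not2 : H.v ∉ Z.2.verts := fun h => by
  have : H.v ∈ Z.1.verts ∪ Z.2.verts := Or.inr h
  rw [hZ.2.2.2.1] at this
  exact this rfl

theorem nb_card {u : V} (hu : u ≠ H.v) : {w | Z.1.Adj u w ∨ Z.2.Adj u w}.ncard = 2 := by
  rcases mem_or hZ hu with h | h
  · have hn : u ∉ Z.2.verts := fun h' => Set.disjoint_left.1 hZ.2.2.1 h h'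
    have : {w | Z.1.Adj u w ∨ Z.2.Adj u w} = Z.1.neighborSet u := by
      ext w
      simp only [Set.mem_ofPred_eq, SimpleGraph.Subgraph.mem_neighborSet]
      exact ⟨fun h => h.elim id fun h => absurd h.fst_mem hn, Or.inl⟩
    rw [this]
    exact hZ.1.2 u h
  · have hn : u ∉ Z.1.verts := fun h' => Set.disjoint_left.1 hZ.2.2.1 h' h
    have : {w | Z.1.Adj u w ∨ Z.2.Adj u w} = Z.2.neighborSet u := by
      ext w
      simp only [Set.mem_ofPred_eq, SimpleGraph.Subgraph.mem_neighborSet]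
      exact ⟨fun h => h.elim (fun h => absurd h.fst_mem hn) id, Or.inr⟩
    rw [this]
    exact hZ.2.1.2 u h

theorem third {u : V} (hu : u ≠ H.v) : ∃ w, H.G.Adj u w ∧ ¬ (Z.1.Adj u w ∨ Z.2.Adj u w) ∧
    ∀ w', H.G.Adj u w' → ¬ (Z.1.Adj u w' ∨ Z.2.Adj u w') → w' = w := by
  have h1 := nb_card hZ hu
  have h2 := H.deg3 u
  have hsub : {w | Z.1.Adj u w ∨ Z.2.Adj u w} ⊆ H.G.neighborSet u := by
    intro w hw
    exact hw.elim (fun h => h.adj_sub) (fun h => h.adj_sub)
  have h3 : (H.G.neighborSet u \ {w | Z.1.Adj u w ∨ Z.2.Adj u w}).ncard = 1 := by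
    rw [Set.ncard_sdiff hsub (Set.toFinite _), h1, h2]
  obtain ⟨w, hw⟩ := Set.ncard_eq_one.1 h3
  have hw1 : w ∈ H.G.neighborSet u \ {w | Z.1.Adj u w ∨ Z.2.Adj u w} := by
    rw [hw]; rfl
  refine ⟨w, hw1.1, hw1.2, fun w' h h' => ?_⟩
  have : w' ∈ H.G.neighborSet u \ {w | Z.1.Adj u w ∨ Z.2.Adj u w} := ⟨h, h'⟩
  rw [hw] at this
  exact this

end inv

/-- the inverse map -/
noncomputable def bwd (Z : H.G.Subgraph × H.G.Subgraph) (u : V) : V :=
  if h : ∃ w, H.I u ∧ H.G.Adj u w ∧ ¬ (Z.1.Adj u w ∨ Z.2.Adj u w) then h.choose else u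

theorem bwd_out (Z : H.G.Subgraph × H.G.Subgraph) {u : V} (hu : ¬ H.I u) : bwd H Z u = u := by
  unfold bwd
  rw [dif_neg]
  rintro ⟨w, h, -⟩
  exact hu h

theorem bwd_iff {Z : H.G.Subgraph × H.G.Subgraph} (hZ : Z ∈ twoSet H.G H.v H.x H.y) {u : V}
    (hu : H.I u) (w : V) :
    bwd H Z u = w ↔ H.G.Adj u w ∧ ¬ (Z.1.Adj u w ∨ Z.2.Adj u w) := by
  obtain ⟨w0, h1, h2, h3⟩ := third hZ hu.2.1
  have hex : ∃ w, H.I u ∧ H.G.Adj u w ∧ ¬ (Z.1.Adj u w ∨ Z.2.Adj u w) := ⟨w0, hu, h1, h2⟩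
  have hb : bwd H Z u = w0 := by
    unfold bwd
    rw [dif_pos hex]
    exact h3 _ hex.choose_spec.2.1 hex.choose_spec.2.2
  rw [hb]
  constructor
  · rintro rfl
    exact ⟨h1, h2⟩
  · rintro ⟨h, h'⟩
    exact (h3 w h h').symm

theorem bwd_oneF {Z : H.G.Subgraph × H.G.Subgraph} (hZ : Z ∈ twoSet H.G H.v H.x H.y) :
    H.OneF (bwd H Z) := by
  refine ⟨fun u hu => bwd_out H Z hu, fun u hu => ?_⟩
  have h1 := (bwd_iff H hZ hu (bwd H Z u)).1 rfl
  refine ⟨h1.1, fun hi => ?_⟩
  rw [bwd_iff H hZ hi]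
  exact ⟨h1.1.symm, fun h => h1.2 (h.imp (fun h => h.symm) (fun h => h.symm))⟩

theorem z1_x {Z : H.G.Subgraph × H.G.Subgraph} (hZ : Z ∈ twoSet H.G H.v H.x H.y) :
    Z.1.Adj H.x (H.e 0) ∧ Z.1.Adj H.x (H.e 1) := by
  have h1 := hZ.1.2 H.x hZ.2.2.2.2.1
  have hsub : Z.1.neighborSet H.x ⊆ {H.e 0, H.e 1} := by
    intro w hw
    have hw' : Z.1.Adj H.x w := hw
    rcases (H.adjx w).1 hw'.adj_sub with h | h | h
    · exact absurd (h ▸ hw'.snd_mem) (v_not1 hZ)
    · exact Or.inl h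
    · exact Or.inr h
  have heq : Z.1.neighborSet H.x = {H.e 0, H.e 1} := by
    apply Set.eq_of_subset_of_ncard_le hsub _ (Set.toFinite _)
    rw [h1, Set.ncard_pair H.he01]
  constructor
  · have : H.e 0 ∈ Z.1.neighborSet H.x := by rw [heq]; exact Or.inl rfl
    exact this
  · have : H.e 1 ∈ Z.1.neighborSet H.x := by rw [heq]; exact Or.inr rfl
    exact this

theorem z2_y {Z : H.G.Subgraph × H.G.Subgraph} (hZ : Z ∈ twoSet H.G H.v H.x H.y) :
    Z.2.Adj H.y (H.e 3) ∧ Z.2.Adj H.y (H.e 4) := by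
  have h1 := hZ.2.1.2 H.y hZ.2.2.2.2.2.1
  have hsub : Z.2.neighborSet H.y ⊆ {H.e 3, H.e 4} := by
    intro w hw
    have hw' : Z.2.Adj H.y w := hw
    rcases (H.adjy w).1 hw'.adj_sub with h | h | h
    · exact absurd (h ▸ hw'.snd_mem) (v_not2 hZ)
    · exact Or.inl h
    · exact Or.inr h
  have heq : Z.2.neighborSet H.y = {H.e 3, H.e 4} := by
    apply Set.eq_of_subset_of_ncard_le hsub _ (Set.toFinite _)
    rw [h1, Set.ncard_pair H.he34]
  constructor
  · have : H.e 3 ∈ Z.2.neighborSet H.y := by rw [heq]; exact Or.inl rfl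
    exact this
  · have : H.e 4 ∈ Z.2.neighborSet H.y := by rw [heq]; exact Or.inr rfl
    exact this

theorem bwd_bd {Z : H.G.Subgraph × H.G.Subgraph} (hZ : Z ∈ twoSet H.G H.v H.x H.y) :
    H.bd (bwd H Z) = {2} := by
  have hx := z1_x H hZ
  have hy := z2_y H hZ
  ext t
  simp only [Pole.bd, Finset.mem_filter, Finset.mem_univ, true_and, Finset.mem_singleton]
  rw [bwd_iff H hZ (inner_e H t)]
  have hz := z_adj H t
  fin_cases t
  · refine ⟨fun h => absurd (Or.inl hx.1.symm) h.2, fun h => absurd h (by decide)⟩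
  · refine ⟨fun h => absurd (Or.inl hx.2.symm) h.2, fun h => absurd h (by decide)⟩
  · refine ⟨fun _ => rfl, fun _ => ⟨hz, fun h => ?_⟩⟩
    rcases h with h | h
    · exact v_not1 hZ h.snd_mem
    · exact v_not2 hZ h.snd_mem
  · refine ⟨fun h => absurd (Or.inr hy.1.symm) h.2, fun h => absurd h (by decide)⟩
  · refine ⟨fun h => absurd (Or.inr hy.2.symm) h.2, fun h => absurd h (by decide)⟩

theorem FG_bwd {Z : H.G.Subgraph × H.G.Subgraph} (hZ : Z ∈ twoSet H.G H.v H.x H.y) (u w : V) :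
    (H.FG (bwd H Z)).Adj u w ↔ Z.1.Adj u w ∨ Z.2.Adj u w := by
  constructor
  · intro h
    rcases h.2.1 with hu | hw
    · by_contra hn
      exact h.2.2.1 hu ((bwd_iff H hZ hu w).2 ⟨h.1, hn⟩)
    · by_contra hn
      refine h.2.2.2 hw ((bwd_iff H hZ hw u).2 ⟨h.1.symm, fun h => hn ?_⟩)
      exact h.imp (fun h => h.symm) (fun h => h.symm)
  · intro h
    have hG : H.G.Adj u w := h.elim (fun h => h.adj_sub) (fun h => h.adj_sub)
    have huv : u ≠ H.v := by
      rintro rfl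
      exact h.elim (fun h => v_not1 hZ h.fst_mem) (fun h => v_not2 hZ h.fst_mem)
    have hwv : w ≠ H.v := by
      rintro rfl
      exact h.elim (fun h => v_not1 hZ h.snd_mem) (fun h => v_not2 hZ h.snd_mem)
    refine ⟨hG, ?_, fun hu e => ?_, fun hw e => ?_⟩
    · by_contra hn
      push Not at hn
      have hxy : ¬ H.G.Adj H.x H.y := by
        intro hxy
        rcases (H.adjx _).1 hxy with h1 | h1 | h1
        · exact H.hyv h1
        · exact H.hey 0 h1.symm
        · exact H.hey 1 h1.symm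
      have hu : u = H.x ∨ u = H.y := by
        by_contra h1
        push Not at h1
        exact hn.1 ⟨h1.1, huv, h1.2⟩
      have hw : w = H.x ∨ w = H.y := by
        by_contra h1
        push Not at h1
        exact hn.2 ⟨h1.1, hwv, h1.2⟩
      rcases hu with hu | hu <;> rcases hw with hw | hw
      · exact hG.ne (hu.trans hw.symm)
      · exact hxy (by rw [← hu, ← hw]; exact hG)
      · exact hxy (by rw [← hu, ← hw]; exact hG.symm)
      · exact hG.ne (hu.trans hw.symm)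
    · exact ((bwd_iff H hZ hu w).1 e).2 h
    · exact ((bwd_iff H hZ hw u).1 e).2 (h.imp (fun h => h.symm) (fun h => h.symm))

theorem reach1 {Z : H.G.Subgraph × H.G.Subgraph} (hZ : Z ∈ twoSet H.G H.v H.x H.y) (u : V) :
    (H.FG (bwd H Z)).Reachable H.x u ↔ u ∈ Z.1.verts := by
  constructor
  · intro h
    refine reach_closed hZ.2.2.2.2.1 (fun a b hab ha => ?_) h
    rcases (FG_bwd H hZ a b).1 hab with h1 | h1
    · exact h1.snd_mem
    · exact absurd h1.fst_mem (fun h2 => Set.disjoint_left.1 hZ.2.2.1 ha h2)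
  · intro h
    exact sub_reach hZ.1.1 (fun a b hab => (FG_bwd H hZ a b).2 (Or.inl hab)) hZ.2.2.2.2.1 h

theorem reach2 {Z : H.G.Subgraph × H.G.Subgraph} (hZ : Z ∈ twoSet H.G H.v H.x H.y) (u : V) :
    (H.FG (bwd H Z)).Reachable H.y u ↔ u ∈ Z.2.verts := by
  constructor
  · intro h
    refine reach_closed hZ.2.2.2.2.2.1 (fun a b hab ha => ?_) h
    rcases (FG_bwd H hZ a b).1 hab with h1 | h1
    · exact absurd ha (fun h2 => Set.disjoint_left.1 hZ.2.2.1 h1.fst_mem h2)
    · exact h1.snd_mem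
  · intro h
    exact sub_reach hZ.2.1.1 (fun a b hab => (FG_bwd H hZ a b).2 (Or.inr hab)) hZ.2.2.2.2.2.1 h

theorem bwd_cnd {Z : H.G.Subgraph × H.G.Subgraph} (hZ : Z ∈ twoSet H.G H.v H.x H.y) :
    Cnd H (bwd H Z) := by
  refine ⟨fun h => ?_, fun u hu => ?_, ?_⟩
  · exact Set.disjoint_left.1 hZ.2.2.1 ((reach1 H hZ _).1 h) hZ.2.2.2.2.2.1
  · rw [reach1 H hZ, reach2 H hZ]
    exact mem_or hZ hu
  · have : {u | (H.FG (bwd H Z)).Reachable H.x u} = Z.1.verts := by
      ext u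
      exact reach1 H hZ u
    rw [this]
    exact hZ.2.2.2.2.2.2

theorem fwd_bwd {Z : H.G.Subgraph × H.G.Subgraph} (hZ : Z ∈ twoSet H.G H.v H.x H.y) :
    fwd H (bwd H Z) = Z := by
  refine Prod.ext ?_ ?_
  · refine SimpleGraph.Subgraph.ext ?_ ?_
    · ext u
      exact reach1 H hZ u
    · funext u w
      apply propext
      show ((H.FG (bwd H Z)).Adj u w ∧ (H.FG (bwd H Z)).Reachable H.x u) ↔ Z.1.Adj u w
      rw [FG_bwd H hZ, reach1 H hZ]
      constructor
      · rintro ⟨h | h, h'⟩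
        · exact h
        · exact absurd h.fst_mem (fun h2 => Set.disjoint_left.1 hZ.2.2.1 h' h2)
      · intro h
        exact ⟨Or.inl h, h.fst_mem⟩
  · refine SimpleGraph.Subgraph.ext ?_ ?_
    · ext u
      exact reach2 H hZ u
    · funext u w
      apply propext
      show ((H.FG (bwd H Z)).Adj u w ∧ (H.FG (bwd H Z)).Reachable H.y u) ↔ Z.2.Adj u w
      rw [FG_bwd H hZ, reach2 H hZ]
      constructor
      · rintro ⟨h | h, h'⟩
        · exact absurd h' (fun h2 => Set.disjoint_left.1 hZ.2.2.1 h.fst_mem h2)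
        · exact h
      · intro h
        exact ⟨Or.inr h, h.fst_mem⟩

end T21

variable {V : Type*} [Fintype V] (H : Pole V)

/-- T21 -/
theorem two_bij :
    ((H.F1 {2}).filter (fun X => ¬ (H.FG X).Reachable H.x H.y ∧
        (∀ u, u ≠ H.v → (H.FG X).Reachable H.x u ∨ (H.FG X).Reachable H.y u) ∧
        Even ({u | (H.FG X).Reachable H.x u}.ncard))).card =
      (twoSet H.G H.v H.x H.y).ncard := by
  have hmem : ∀ X, X ∈ ((H.F1 {2}).filter (fun X => ¬ (H.FG X).Reachable H.x H.y ∧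
        (∀ u, u ≠ H.v → (H.FG X).Reachable H.x u ∨ (H.FG X).Reachable H.y u) ∧
        Even ({u | (H.FG X).Reachable H.x u}.ncard))) ↔
      H.OneF X ∧ H.bd X = {2} ∧ T21.Cnd H X := by
    intro X
    rw [Finset.mem_filter]
    unfold Pole.F1
    rw [Finset.mem_filter]
    constructor
    · rintro ⟨⟨-, h1, h2⟩, h3⟩
      exact ⟨h1, h2, h3⟩
    · rintro ⟨h1, h2, h3⟩
      exact ⟨⟨Finset.mem_univ _, h1, h2⟩, h3⟩
  rw [← Set.ncard_coe_finset]
  refine Set.ncard_congr (fun X _ => T21.fwd H X) ?_ ?_ ?_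
  · intro X hX
    obtain ⟨h1, h2, h3⟩ := (hmem X).1 hX
    exact T21.fwd_mem H h1 h2 h3
  · intro X X' hX hX' h
    obtain ⟨h1, h2, h3⟩ := (hmem X).1 hX
    obtain ⟨h1', -, -⟩ := (hmem X').1 hX'
    exact T21.fwd_inj H h1 h3 h1' h
  · intro Z hZ
    exact ⟨T21.bwd H Z, (hmem _).2 ⟨T21.bwd_oneF H hZ, T21.bwd_bd H hZ, T21.bwd_cnd H hZ⟩,
      T21.fwd_bwd H hZ⟩

end Pool.Agent.H416R3.BP
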