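import Pool.Agent.H416R3.BP.Defs
import Pool.Agent.H416R3.BP.T01
import Pool.Agent.H416R3.BP.T02
import Pool.Agent.H416R3.BP.T03
import Pool.Agent.H416R3.BP.T04
import Pool.Agent.H416R3.BP.T05
import Pool.Agent.H416R3.BP.T06
import Pool.Agent.H416R3.BP.T07
import Pool.Agent.H416R3.BP.T08
import Pool.Agent.H416R3.BP.T09
import Pool.Agent.H416R3.BP.T10
import Pool.Agent.H416R3.BP.T11
import Pool.Agent.H416R3.BP.T12
import Pool.Agent.H416R3.BP.T13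
import Pool.Agent.H416R3.BP.T14
import Pool.Agent.H416R3.BP.T15
import Pool.Agent.H416R3.BP.T16
import Pool.Agent.H416R3.BP.T17
import Pool.Agent.H416R3.BP.T18
import Pool.Agent.H416R3.BP.T19
import Pool.Agent.H416R3.BP.T20
import Pool.Agent.H416R3.BP.T21

set_option autoImplicit false

namespace Pool.Agent.H416R3.BP

open Finset Classical

variable {V : Type*} [Fintype V] (H : Pole V)

theorem cn_good (hB : ¬ HasBF H.G) {β : Fin 6 → Finset (Fin 5)} (hg : Good β) :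
    H.cn β = 0 := by
  by_contra h
  exact hB (ext_bf H hg (Finset.card_pos.1 (Nat.pos_of_ne_zero h)))

theorem cn_perm_even {β β' : Fin 6 → Finset (Fin 5)} (σ : Equiv.Perm (Fin 6))
    (h : β' = fun s => β (σ s)) (hE : Even (H.cn β)) : Even (H.cn β') := by
  rw [h, cn_perm]; exact hE

/-- relation R12 -/
theorem r12 (hB : ¬ HasBF H.G) :
    Even (H.cn ![{0, 3, 4}, {2}, {1, 2, 4}, {0}, {1}, {3}]) := by
  have h := kempe H {0, 2, 3, 4} rfl ![∅, ∅, {1, 2, 4}, {0}, {1}, {3}]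
  have e0 : kem {0, 2, 3, 4} 0 ![∅, ∅, {1, 2, 4}, {0}, {1}, {3}] =
      ![{2, 3, 4}, {0}, {1, 2, 4}, {0}, {1}, {3}] := by decide
  have e2 : kem {0, 2, 3, 4} 2 ![∅, ∅, {1, 2, 4}, {0}, {1}, {3}] =
      ![{0, 3, 4}, {2}, {1, 2, 4}, {0}, {1}, {3}] := by decide
  have g3 : Good (kem {0, 2, 3, 4} 3 ![∅, ∅, {1, 2, 4}, {0}, {1}, {3}]) := by
    unfold Good; decide
  have g4 : Good (kem {0, 2, 3, 4} 4 ![∅, ∅, {1, 2, 4}, {0}, {1}, {3}]) := by
    unfold Good; decide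
  rw [Finset.sum_insert (by decide), Finset.sum_insert (by decide),
    Finset.sum_insert (by decide), Finset.sum_singleton, cn_good H hB g3, cn_good H hB g4,
    e0, e2] at h
  have hb := bad_even H hB
  rw [Nat.even_iff] at *
  omega

theorem r12' (hB : ¬ HasBF H.G) :
    Even (H.cn ![{0, 3, 4}, {2}, {1, 2, 3}, {0}, {1}, {4}]) := by
  have h := r12 H.flip34 hB
  rw [← cn_flip] at h
  have e : (fun s => ((![{0, 3, 4}, {2}, {1, 2, 4}, {0}, {1}, {3}] :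
      Fin 6 → Finset (Fin 5)) s).image (Equiv.swap 3 4)) =
      ![{0, 3, 4}, {2}, {1, 2, 3}, {0}, {1}, {4}] := by decide
  rw [e] at h
  exact h

theorem q1_eq (hB : ¬ HasBF H.G) :
    H.cn ![{2, 3, 4}, {1}, {0, 3, 4}, {0}, {1}, {2}] % 2 = (hamSet H.G H.v H.y).ncard % 2 := by
  have h := cn_D4 H (β := ![{2, 3, 4}, {1}, {0, 3, 4}, {0}, {1}, {2}]) rfl
  rw [h]
  have h2 : ∀ X ∈ H.F1 {1}, H.D4 X ![{2, 3, 4}, {0, 3, 4}, {0}, {2}] % 2 =
      (H.S X {2, 3, 4}).card % 2 := by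
    intro X hX
    rw [← s_prod H hB hX]
    have hX' : H.OneF X ∧ H.bd X = {1} := by
      simpa [Pole.F1] using hX
    have := d4_parity H hX'.1 (σ0 := {2, 3, 4}) (σ2 := {0, 3, 4})
      (by rw [hX'.2]; decide) (by rw [hX'.2]; decide)
    rw [hX'.2] at this
    exact this
  have h3 : (∑ X ∈ H.F1 {1}, H.D4 X ![{2, 3, 4}, {0, 3, 4}, {0}, {2}]) % 2 =
      (∑ X ∈ H.F1 {1}, (H.S X {2, 3, 4}).card) % 2 := by
    rw [Finset.sum_nat_mod, Finset.sum_congr rfl h2, ← Finset.sum_nat_mod]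
  refine Eq.trans h3 ?_
  rw [s_swap, ← ham_bij, Finset.card_filter, Finset.sum_nat_mod, Finset.sum_nat_mod (H.F1 _)]
  congr 1
  apply Finset.sum_congr rfl
  intro Y hY
  rw [ham_local H hY]
  split_ifs <;> rfl

theorem q2_eq :
    H.cn ![{1, 3, 4}, {2}, {0, 3, 4}, {0}, {1}, {2}] % 2 =
      (twoSet H.G H.v H.x H.y).ncard % 2 := by
  have e : (![{1, 3, 4}, {2}, {0, 3, 4}, {0}, {1}, {2}] : Fin 6 → Finset (Fin 5)) =
      fun s => (![{1, 3, 4}, {2}, {0, 3, 4}, {0}, {2}, {1}] : Fin 6 → Finset (Fin 5))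
        ((Equiv.swap 4 5 : Equiv.Perm (Fin 6)) s) := by decide
  rw [e, cn_perm]
  have h := cn_D4 H (β := ![{1, 3, 4}, {2}, {0, 3, 4}, {0}, {2}, {1}]) rfl
  rw [h]
  have h2 : ∀ X ∈ H.F1 {2}, H.D4 X ![{1, 3, 4}, {0, 3, 4}, {0}, {1}] % 2 =
      ((H.S X {1, 3, 4}).card * (H.S X {0, 3, 4}).card) % 2 := by
    intro X hX
    have hX' : H.OneF X ∧ H.bd X = {2} := by
      simpa [Pole.F1] using hX
    have := d4_parity H hX'.1 (σ0 := {1, 3, 4}) (σ2 := {0, 3, 4})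
      (by rw [hX'.2]; decide) (by rw [hX'.2]; decide)
    rw [hX'.2] at this
    exact this
  have h3 : (∑ X ∈ H.F1 {2}, H.D4 X ![{1, 3, 4}, {0, 3, 4}, {0}, {1}]) % 2 =
      (∑ X ∈ H.F1 {2}, (H.S X {1, 3, 4}).card * (H.S X {0, 3, 4}).card) % 2 := by
    rw [Finset.sum_nat_mod, Finset.sum_congr rfl h2, ← Finset.sum_nat_mod]
  refine Eq.trans h3 ?_
  rw [← two_bij, Finset.card_filter, Finset.sum_nat_mod, Finset.sum_nat_mod (H.F1 _)]
  congr 1
  apply Finset.sum_congr rfl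
  intro X hX
  rw [two_local H hX]
  split_ifs <;> rfl

/-- the main parity statement -/
theorem bp_main (hB : ¬ HasBF H.G) :
    Even ((hamSet H.G H.v H.y).ncard + (twoSet H.G H.v H.x H.y).ncard) := by
  have h := kempe H {1, 2, 3, 4} rfl ![∅, ∅, {0, 3, 4}, {0}, {1}, {2}]
  have e1 : kem {1, 2, 3, 4} 1 ![∅, ∅, {0, 3, 4}, {0}, {1}, {2}] =
      ![{2, 3, 4}, {1}, {0, 3, 4}, {0}, {1}, {2}] := by decide
  have e2 : kem {1, 2, 3, 4} 2 ![∅, ∅, {0, 3, 4}, {0}, {1}, {2}] =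
      ![{1, 3, 4}, {2}, {0, 3, 4}, {0}, {1}, {2}] := by decide
  have e3 : kem {1, 2, 3, 4} 3 ![∅, ∅, {0, 3, 4}, {0}, {1}, {2}] =
      ![{1, 2, 4}, {3}, {0, 3, 4}, {0}, {1}, {2}] := by decide
  have e4 : kem {1, 2, 3, 4} 4 ![∅, ∅, {0, 3, 4}, {0}, {1}, {2}] =
      ![{1, 2, 3}, {4}, {0, 3, 4}, {0}, {1}, {2}] := by decide
  rw [Finset.sum_insert (by decide), Finset.sum_insert (by decide),
    Finset.sum_insert (by decide), Finset.sum_singleton, e1, e2, e3, e4] at h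
  have h3 : Even (H.cn ![{1, 2, 4}, {3}, {0, 3, 4}, {0}, {1}, {2}]) :=
    cn_perm_even H (Equiv.swap 0 2 * Equiv.swap 1 5) (by decide) (r12 H hB)
  have h4 : Even (H.cn ![{1, 2, 3}, {4}, {0, 3, 4}, {0}, {1}, {2}]) :=
    cn_perm_even H (Equiv.swap 0 2 * Equiv.swap 1 5) (by decide) (r12' H hB)
  have h1 := q1_eq H hB
  have h2 := q2_eq H
  rw [Nat.even_iff] at *
  omega

end Pool.Agent.H416R3.BP
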