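import Pool.Agent.H416R3.BP.Defs

set_option autoImplicit false

namespace Pool.Agent.H416R3.BP.Stubs

open Finset Classical

/-! ### General graph lemmas -/

/-- T01 -/
theorem path_sum {V : Type*} [Fintype V] (D : SimpleGraph V) (s : V → ℕ)
    (h : ∀ u, (D.neighborSet u).ncard + s u = 2 ∨ ((D.neighborSet u).ncard = 0 ∧ s u = 0))
    (u0 : V) (h0 : 1 ≤ s u0) :
    ∑ u ∈ univ.filter (fun u => D.Reachable u0 u), s u = 2 := by
  sorry

/-- T02 -/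
theorem leaf_pair {V : Type*} [Fintype V] (D : SimpleGraph V) (e : Fin 5 → V)
    (T : Finset (Fin 5))
    (h : ∀ u, (D.neighborSet u).ncard + (T.filter (fun t => e t = u)).card = 2 ∨
      ((D.neighborSet u).ncard = 0 ∧ (T.filter (fun t => e t = u)).card = 0))
    (t0 : Fin 5) (ht0 : t0 ∈ T) :
    (T.filter (fun t => D.Reachable (e t0) (e t))).card = 2 := by
  sorry

/-- T03 -/
theorem alt_exists {V : Type*} [Fintype V] (F : SimpleGraph V) (b a0 a1 : V) (h01 : a0 ≠ a1)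
    (hb : ∀ w, F.Adj b w ↔ w = a0 ∨ w = a1)
    (hd : ∀ u, F.Reachable b u → (F.neighborSet u).ncard = 2) :
    ∃ g : V → V, (∀ u, F.Reachable b u → u ≠ b → F.Adj u (g u) ∧ (g u ≠ b → g (g u) = u)) ∧
      g a0 = b ∧ (g a1 = b ↔ Odd ({u | F.Reachable b u}.ncard)) := by
  sorry

/-- T04 -/
theorem bf_of_fun {V : Type*} [Fintype V] (G : SimpleGraph V) (m : Fin 6 → V → V)
    (hm : ∀ s u, G.Adj u (m s u) ∧ m s (m s u) = u)
    (hc : ∀ u w, G.Adj u w → (univ.filter (fun s => m s u = w)).card = 2) : HasBF G := by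
  sorry

/-! ### Tuples of near perfect matchings -/

variable {V : Type*} [Fintype V] (H : Pole V)

/-- T05 -/
theorem co_spec {X s : V → V} (hX : H.OneF X) (hs : H.OneF s)
    (hd : ∀ u, H.I u → s u ≠ X u) {u : V} (hu : H.I u) :
    H.G.Adj u (H.co X s u) ∧ H.co X s u ≠ X u ∧ H.co X s u ≠ s u ∧
      ∀ w, H.G.Adj u w ↔ (w = X u ∨ w = s u ∨ w = H.co X s u) := by
  sorry

/-- T06 -/
theorem co_mem {X s : V → V} (hX : H.OneF X) {σ : Finset (Fin 5)} (hs : s ∈ H.S X σ) :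
    H.co X s ∈ H.S X (univ \ (H.bd X ∪ σ)) ∧ H.co X (H.co X s) = s := by
  sorry

/-- T07: `C` is closed under adjacency along inner non-`X`-edges; flipping `s` on `C`. -/
theorem fl_mem {X s : V → V} (hX : H.OneF X) {σ σ' : Finset (Fin 5)} (hs : s ∈ H.S X σ)
    (C : Set V) (hC : ∀ u w, H.I u → H.I w → H.G.Adj u w → w ≠ X u → u ∈ C → w ∈ C)
    (hσ : ∀ t, t ∈ σ' ↔ (if H.e t ∈ C then (t ∉ σ ∧ t ∉ H.bd X) else t ∈ σ)) :
    H.fl X s C ∈ H.S X σ' ∧ H.fl X (H.fl X s C) C = s := by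
  sorry

/-- T08 -/
theorem kempe (Q : Finset (Fin 5)) (hQ : Q.card = 4) (γ : Fin 6 → Finset (Fin 5)) :
    Even (∑ q ∈ Q, H.cn (kem Q q γ)) := by
  sorry

/-- T09 -/
theorem cn_perm (β : Fin 6 → Finset (Fin 5)) (σ : Equiv.Perm (Fin 6)) :
    H.cn (fun s => β (σ s)) = H.cn β := by
  sorry

/-- T10 -/
theorem cn_eq_mod {β : Fin 6 → Finset (Fin 5)} {a b : Fin 6} (hab : a ≠ b) (h : β a = β b) :
    H.cn β % 2 = ((H.Tup β).filter (fun P => P a = P b)).card % 2 := by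
  sorry

/-- T11 -/
theorem cn_D4 {β : Fin 6 → Finset (Fin 5)} (h : β 1 = β 4) :
    H.cn β % 2 = (∑ X ∈ H.F1 (β 1), H.D4 X ![β 0, β 2, β 3, β 5]) % 2 := by
  sorry

/-- T12 -/
theorem cn_flip (β : Fin 6 → Finset (Fin 5)) :
    H.cn (fun s => (β s).image (Equiv.swap 3 4)) = H.flip34.cn β := by
  sorry

/-- T13 -/
theorem ext_bf {β : Fin 6 → Finset (Fin 5)} (hg : Good β) (hne : (H.Tup β).Nonempty) :
    HasBF H.G := by
  sorry

/-- T14 -/
theorem d4_parity {X : V → V} (hX : H.OneF X) {σ0 σ2 : Finset (Fin 5)}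
    (h0 : Disjoint σ0 (H.bd X)) (h2 : Disjoint σ2 (H.bd X)) :
    H.D4 X ![σ0, σ2, univ \ (H.bd X ∪ σ0), univ \ (H.bd X ∪ σ2)] % 2 =
      ((H.S X σ0).card * (H.S X σ2).card) % 2 := by
  sorry

/-- T15 -/
theorem s_prod (hB : ¬ HasBF H.G) {X : V → V} (hX : X ∈ H.F1 {1}) :
    ((H.S X {2, 3, 4}).card * (H.S X {0, 3, 4}).card) % 2 = (H.S X {2, 3, 4}).card % 2 := by
  sorry

/-- T16 -/
theorem s_swap :
    ∑ X ∈ H.F1 {1}, (H.S X {2, 3, 4}).card = ∑ Y ∈ H.F1 {2, 3, 4}, (H.S Y {1}).card := by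
  sorry

/-- T17 -/
theorem bad_even (hB : ¬ HasBF H.G) :
    Even (H.cn ![{2, 3, 4}, {0}, {1, 2, 4}, {0}, {1}, {3}]) := by
  sorry

/-- T18 -/
theorem ham_local {Y : V → V} (hY : Y ∈ H.F1 {2, 3, 4}) :
    (H.S Y {1}).card % 2 =
      if (∀ u, u ≠ H.v → u ≠ H.y → (H.FG Y).Reachable H.x u) then 1 else 0 := by
  sorry

/-- T19 -/
theorem ham_bij :
    ((H.F1 {2, 3, 4}).filter
      (fun Y => ∀ u, u ≠ H.v → u ≠ H.y → (H.FG Y).Reachable H.x u)).card =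
      (hamSet H.G H.v H.y).ncard := by
  sorry

/-- T20 -/
theorem two_local {X : V → V} (hX : X ∈ H.F1 {2}) :
    ((H.S X {1, 3, 4}).card * (H.S X {0, 3, 4}).card) % 2 =
      if (¬ (H.FG X).Reachable H.x H.y ∧
        (∀ u, u ≠ H.v → (H.FG X).Reachable H.x u ∨ (H.FG X).Reachable H.y u) ∧
        Even ({u | (H.FG X).Reachable H.x u}.ncard)) then 1 else 0 := by
  sorry

/-- T21 -/
theorem two_bij :
    ((H.F1 {2}).filter (fun X => ¬ (H.FG X).Reachable H.x H.y ∧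
        (∀ u, u ≠ H.v → (H.FG X).Reachable H.x u ∨ (H.FG X).Reachable H.y u) ∧
        Even ({u | (H.FG X).Reachable H.x u}.ncard))).card =
      (twoSet H.G H.v H.x H.y).ncard := by
  sorry

end Pool.Agent.H416R3.BP.Stubs
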